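import Mathlib

/-!
# The choice of the ramification index
-/

set_option autoImplicit false

namespace Pool.Agent.Y220.IC

/-- For even `M` different from `2` and `6` there is an even `v` with `2 ≤ v ≤ M - 2` such that
`v - 1` and `v + 1` are prime to `M`. -/
theorem exists_v (M : ℕ) (hM : Even M) (hM4 : 4 ≤ M) (hM6 : M ≠ 6) :
    ∃ v : ℕ, Even v ∧ 2 ≤ v ∧ v + 2 ≤ M ∧
      ∀ l : ℕ, l.Prime → l ∣ M → ¬ (l : ℤ) ∣ (v : ℤ) - 1 ∧ ¬ (l : ℤ) ∣ (v : ℤ) + 1 := by
  obtain ⟨M2, hM2⟩ := even_iff_two_dvd.1 hM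
  have hunit : ∀ l : ℕ, l.Prime → ¬ (l : ℤ) ∣ 1 := by
    intro l hl h
    have h1 : l ∣ 1 := by exact_mod_cast h
    exact hl.one_lt.ne' (Nat.dvd_one.1 h1)
  have hzero : ∀ (l v : ℕ), l.Prime → l ∣ v →
      ¬ (l : ℤ) ∣ (v : ℤ) - 1 ∧ ¬ (l : ℤ) ∣ (v : ℤ) + 1 := by
    intro l v hl hv
    have hv' : (l : ℤ) ∣ (v : ℤ) := by exact_mod_cast hv
    constructor
    · intro h
      exact hunit l hl (by
        have := dvd_sub hv' h
        simpa using this)
    · intro h
      exact hunit l hl (by
        have := dvd_sub h hv'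
        simpa using this)
  by_cases hsq : ∃ q : ℕ, q.Prime ∧ q * q ∣ M
  · obtain ⟨q, hq, c, hc⟩ := hsq
    have hq2 := hq.two_le
    have hc0 : 0 < c := Nat.pos_of_ne_zero fun h => by rw [h] at hc; omega
    have hqc : 2 ≤ q * c := by nlinarith
    have hMq : M = q * (q * c) := by rw [hc]; ring
    refine ⟨q * c, ?_, hqc, ?_, ?_⟩
    · rcases hq.eq_two_or_odd' with h2 | h2
      · rw [h2]
        exact even_two_mul c
      · rw [hMq, Nat.even_mul] at hM
        rcases hM with h3 | h3
        · exact absurd h3 (Nat.not_even_iff_odd.2 h2)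
        · exact h3
    · rw [hMq]
      nlinarith
    · intro l hl hlM
      apply hzero l _ hl
      rw [hMq] at hlM
      rcases hl.dvd_mul.1 hlM with h | h
      · rw [(Nat.prime_dvd_prime_iff_eq hl hq).1 h]
        exact dvd_mul_right _ _
      · exact h
  · push Not at hsq
    -- a prime factor `≥ 5`
    obtain ⟨q, hq, hqM, hq5⟩ : ∃ q : ℕ, q.Prime ∧ q ∣ M ∧ 5 ≤ q := by
      by_contra hcon
      push Not at hcon
      have h23 : ∀ q : ℕ, q.Prime → q ∣ M → q = 2 ∨ q = 3 := by
        intro q hq hqM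
        have h1 := hcon q hq hqM
        have h2 := hq.two_le
        have h4 : q ≠ 4 := by
          rintro rfl
          revert hq
          decide
        omega
      -- M divides 6
      have hM20 : M2 ≠ 1 := by
        rintro rfl
        omega
      obtain ⟨l, hl, hlM⟩ := Nat.exists_prime_and_dvd hM20
      have hl2 : l ≠ 2 := by
        rintro rfl
        apply hsq 2 Nat.prime_two
        rw [hM2]
        exact mul_dvd_mul_left 2 hlM
      have hl3 : l = 3 := (h23 l hl (by rw [hM2]; exact hlM.mul_left 2)).resolve_left hl2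
      rw [hl3] at hlM
      obtain ⟨M3, hM3⟩ := hlM
      have hM31 : M3 ≠ 1 := by
        rintro rfl
        omega
      obtain ⟨r, hr, hrM⟩ := Nat.exists_prime_and_dvd hM31
      have hMM : M = 2 * (3 * M3) := by rw [hM2, hM3]
      rcases h23 r hr (by rw [hMM]; exact (hrM.mul_left 3).mul_left 2) with rfl | rfl
      · apply hsq 2 Nat.prime_two
        rw [hMM]
        exact mul_dvd_mul_left 2 (hrM.mul_left 3)
      · apply hsq 3 Nat.prime_three
        rw [hMM]
        exact (mul_dvd_mul_left 3 hrM).mul_left 2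
    obtain ⟨c, hc⟩ := hqM
    have hc0 : 0 < c := Nat.pos_of_ne_zero fun h => by rw [h] at hc; omega
    have hqc : ¬ q ∣ c := by
      rintro ⟨c', hc'⟩
      apply hsq q hq
      rw [hc, hc']
      exact ⟨c', by ring⟩
    have hceven : Even c := by
      rw [hc, Nat.even_mul] at hM
      rcases hM with h | h
      · exfalso
        have h2 : q = 2 := (Nat.prime_dvd_prime_iff_eq Nat.prime_two hq).1
          (even_iff_two_dvd.1 h) |>.symm
        omega
      · exact h
    have hc2 : 2 ≤ c := by
      obtain ⟨c', hc'⟩ := hceven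
      omega
    have hqc' : ¬ (q : ℤ) ∣ (c : ℤ) := by
      intro h
      exact hqc (by exact_mod_cast h)
    have hothers : ∀ v : ℕ, c ∣ v → ∀ l : ℕ, l.Prime → l ∣ M → l ≠ q →
        ¬ (l : ℤ) ∣ (v : ℤ) - 1 ∧ ¬ (l : ℤ) ∣ (v : ℤ) + 1 := by
      intro v hv l hl hlM hlq
      apply hzero l v hl
      rw [hc] at hlM
      rcases hl.dvd_mul.1 hlM with h | h
      · exact absurd ((Nat.prime_dvd_prime_iff_eq hl hq).1 h) hlq
      · exact h.trans hv
    by_cases hbad : (q : ℤ) ∣ (c : ℤ) - 1 ∨ (q : ℤ) ∣ (c : ℤ) + 1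
    · refine ⟨2 * c, even_two_mul c, by omega, by nlinarith, ?_⟩
      intro l hl hlM
      by_cases hlq : l = q
      · subst hlq
        have hsmall : ∀ n : ℤ, 0 < n → n < 5 → ¬ (l : ℤ) ∣ n := by
          intro n hn hn5 hdvd
          have := Int.le_of_dvd hn hdvd
          omega
        push_cast
        constructor
        · intro h
          rcases hbad with h1 | h1
          · have h2 := dvd_sub h (h1.mul_left 2)
            have h3 : 2 * (c : ℤ) - 1 - 2 * ((c : ℤ) - 1) = 1 := by ring
            rw [h3] at h2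
            exact hsmall 1 (by norm_num) (by norm_num) h2
          · have h2 := dvd_sub (h1.mul_left 2) h
            have h3 : 2 * ((c : ℤ) + 1) - (2 * (c : ℤ) - 1) = 3 := by ring
            rw [h3] at h2
            exact hsmall 3 (by norm_num) (by norm_num) h2
        · intro h
          rcases hbad with h1 | h1
          · have h2 := dvd_sub h (h1.mul_left 2)
            have h3 : 2 * (c : ℤ) + 1 - 2 * ((c : ℤ) - 1) = 3 := by ring
            rw [h3] at h2
            exact hsmall 3 (by norm_num) (by norm_num) h2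
          · have h2 := dvd_sub (h1.mul_left 2) h
            have h3 : 2 * ((c : ℤ) + 1) - (2 * (c : ℤ) + 1) = 1 := by ring
            rw [h3] at h2
            exact hsmall 1 (by norm_num) (by norm_num) h2
      · exact hothers (2 * c) (dvd_mul_left c 2) l hl hlM hlq
    · push Not at hbad
      refine ⟨c, hceven, hc2, by nlinarith, ?_⟩
      intro l hl hlM
      by_cases hlq : l = q
      · subst hlq
        exact hbad
      · exact hothers c dvd_rfl l hl hlM hlq

/-- The ramification index. -/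
theorem exists_e (p : ℕ) (hp : p.Prime) (hp5 : 5 ≤ p) (hp7 : p ≠ 7) :
    ∃ e : ℕ, 2 ≤ e ∧ e < p ∧ Odd e ∧ Nat.Coprime (e * (e - 2)) (p - 1) := by
  have hodd : Odd p := hp.odd_of_ne_two (by omega)
  have hev : Even (p - 1) := by
    obtain ⟨n, hn⟩ := hodd
    exact ⟨n, by omega⟩
  obtain ⟨v, hv, hv2, hvp, h⟩ := exists_v (p - 1) hev (by omega) (by omega)
  refine ⟨v + 1, by omega, by omega, hv.add_one, ?_⟩
  apply Nat.Coprime.symm
  apply Nat.coprime_of_dvd
  intro l hl hlp hle
  obtain ⟨h1, h2⟩ := h l hl hlp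
  rcases hl.dvd_mul.1 hle with h3 | h3
  · apply h2
    exact_mod_cast h3
  · apply h1
    have h4 : ((v + 1 - 2 : ℕ) : ℤ) = (v : ℤ) - 1 := by omega
    rw [← h4]
    exact_mod_cast h3

end Pool.Agent.Y220.IC
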