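import Mathlib

/-!
# The polynomial `(4 U - 3) (U ^ 7 - 3) - U ^ 4` in characteristic `7`
-/

set_option autoImplicit false

namespace Pool.Agent.Y220.IC

variable {k : Type} [Field k] [CharP k 7]

theorem seven_eq : (7 : k) = 0 := by
  have h := CharP.cast_eq_zero k 7
  exact_mod_cast h

theorem factor7 (c : k) (hc : ((4 : k) * c - (4 - 1)) * (c ^ 7 - 3) - c ^ 4 = 0) :
    c - 2 = 0 ∨ c ^ 2 + 4 * c + 6 = 0 ∨ c ^ 5 + 6 * c ^ 4 + 4 * c ^ 3 + 2 * c ^ 2 + 4 * c + 2 = 0 := by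
  have h7 := seven_eq (k := k)
  have h4 : (4 : k) ≠ 0 := by
    intro h
    have : (1 : k) = 0 := by linear_combination 2 * h - h7
    exact one_ne_zero this
  have h1 : (4 : k) * ((c - 2) * ((c ^ 2 + 4 * c + 6) *
      (c ^ 5 + 6 * c ^ 4 + 4 * c ^ 3 + 2 * c ^ 2 + 4 * c + 2))) = 0 := by
    linear_combination hc - (15 + 28*c^1 + 16*c^2 + 24*c^3 + 41*c^4 + 8*c^5 - 8*c^6 - 5*c^7) * h7
  simpa [h4] using h1

theorem quad_root7 (c : k) (hr : c ^ 2 + 4 * c + 6 = 0) :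
    ((4 : k) * c - (4 - 1)) * (c ^ 7 - 3) - c ^ 4 = 0 := by
  have h7 := seven_eq (k := k)
  linear_combination (4 * ((c - 2) * (c ^ 5 + 6 * c ^ 4 + 4 * c ^ 3 + 2 * c ^ 2 + 4 * c + 2))) * hr +
    (15 + 28*c^1 + 16*c^2 + 24*c^3 + 41*c^4 + 8*c^5 - 8*c^6 - 5*c^7) * h7

theorem quad_cases7 (c u : k) (hu : u ^ 2 + 4 * u + 6 = 0) (hc : c ^ 2 + 4 * c + 6 = 0) :
    c = u ∨ c = 3 - u := by
  have h7 := seven_eq (k := k)
  have h1 : (c - u) * (c - (3 - u)) = 0 := by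
    linear_combination hc - hu + (u - c) * h7
  rcases mul_eq_zero.1 h1 with h | h
  · exact Or.inl (sub_eq_zero.1 h)
  · exact Or.inr (sub_eq_zero.1 h)

variable [Fact (Nat.Prime 7)]

theorem frob_step (c : k) (n : ℕ) : c ^ (7 ^ (n + 1)) = frobenius k 7 (c ^ (7 ^ n)) := by
  rw [frobenius_def, ← pow_mul, pow_succ]

theorem quint7 (c : k) (hr : c ^ 5 + 6 * c ^ 4 + 4 * c ^ 3 + 2 * c ^ 2 + 4 * c + 2 = 0) :
    c ^ (7 ^ 5) = c := by
  have h7 := seven_eq (k := k)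
  have e0 : c ^ (7 ^ 0) = c := by simp
  have e1 : frobenius k 7 c = 6 + 3*c^1 + 6*c^3 + 5*c^4 := by
    rw [frobenius_def]
    linear_combination (32 - 6*c^1 + 1*c^2) * hr + (-10 - 17*c^1 - 6*c^2 - 18*c^3 - 25*c^4) * h7
  have e1' : c ^ (7 ^ 1) = 6 + 3*c^1 + 6*c^3 + 5*c^4 := by
    rw [frob_step, e0, e1]
  have e2 : c ^ (7 ^ 2) = 5 + 6*c^1 + 6*c^2 + 3*c^3 := by
    rw [frob_step, e1']
    simp only [map_add, map_mul, map_pow, map_ofNat, e1]
    linear_combination (-115221591588 + 21776959874*c^1 - 4115859604*c^2 + 777907664*c^3 - 147016634*c^4 + 27789010*c^5 - 5246330*c^6 + 1001130*c^7 - 184150*c^8 + 37000*c^9 - 3750*c^10 + 3125*c^11) * hr + (32920455853 + 59618923073*c^1 + 21652439082*c^2 + 61748586131*c^3 + 87090842840*c^4) * h7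
  have e3 : c ^ (7 ^ 3) = 1 + 5*c^1 + 6*c^2 + 3*c^3 + 5*c^4 := by
    rw [frob_step, e2]
    simp only [map_add, map_mul, map_pow, map_ofNat, e1]
    linear_combination (-22898340 + 4327863*c^1 - 817962*c^2 + 155022*c^3 - 28947*c^4 + 5520*c^5 - 900*c^6 + 375*c^7) * hr + (6542512 + 11848405*c^1 + 4303098*c^2 + 12271704*c^3 + 17308069*c^4) * h7
  have e4 : c ^ (7 ^ 4) = 3 + 6*c^1 + 2*c^2 + 2*c^3 + 4*c^4 := by
    rw [frob_step, e3]
    simp only [map_add, map_mul, map_pow, map_ofNat, map_one, e1]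
    linear_combination (-115198723440 + 21772637723*c^1 - 4115042722*c^2 + 777752942*c^3 - 146987687*c^4 + 27783490*c^5 - 5245430*c^6 + 1000755*c^7 - 184150*c^8 + 37000*c^9 - 3750*c^10 + 3125*c^11) * hr + (32913922036 + 59607090353*c^1 + 21648141670*c^2 + 61736330709*c^3 + 87073557692*c^4) * h7
  rw [frob_step, e4]
  simp only [map_add, map_mul, map_pow, map_ofNat, e1]
  linear_combination (-92155920608 + 17417532178*c^1 - 3291924936*c^2 + 622181634*c^3 - 117586290*c^4 + 22226056*c^5 - 4196224*c^6 + 800554*c^7 - 147320*c^8 + 29600*c^9 - 3000*c^10 + 2500*c^11) * hr + (26330263849 + 47684089883*c^1 + 17317938642*c^2 + 49387425630*c^3 + 69656534594*c^4) * h7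

theorem quad7 (c : k) (hr : c ^ 2 + 4 * c + 6 = 0) : c ^ (7 ^ 5) = 3 - c ∧ 3 - c ≠ c ∧
    (3 - c) ^ 2 + 4 * (3 - c) + 6 = 0 := by
  have h7 := seven_eq (k := k)
  have e0 : c ^ (7 ^ 0) = c := by simp
  have e1 : frobenius k 7 c = 3 - c := by
    rw [frobenius_def]
    linear_combination (80 + 4*c^1 - 16*c^2 + 10*c^3 - 4*c^4 + 1*c^5) * hr +
      (-69 - 50*c^1 + c) * h7
  have e3 : frobenius k 7 3 = (3 : k) := by
    have : (3 : k) = ((3 : ℕ) : k) := by norm_num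
    rw [this, map_natCast]
  have e1' : c ^ (7 ^ 1) = 3 - c := by rw [frob_step, e0, e1]
  have e2 : c ^ (7 ^ 2) = c := by
    rw [frob_step, e1', map_sub, e1, e3]
    ring
  have e3' : c ^ (7 ^ 3) = 3 - c := by rw [frob_step, e2, e1]
  have e4 : c ^ (7 ^ 4) = c := by
    rw [frob_step, e3', map_sub, e1, e3]
    ring
  refine ⟨by rw [frob_step, e4, e1], ?_, ?_⟩
  · intro h
    have : (1 : k) = 0 := by
      linear_combination 4 * hr + (11 + 2 * c) * h - 8 * h7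
    exact one_ne_zero this
  · linear_combination hr + (3 - 2*c) * h7

theorem lin7 (c : k) (hr : c - 2 = 0) : c ^ (7 ^ 5) = c := by
  have e0 : c = ((2 : ℕ) : k) := by
    rw [Nat.cast_ofNat]
    exact sub_eq_zero.1 hr
  have e1 : frobenius k 7 c = c := by
    rw [e0, map_natCast]
  have e2 : ∀ n, c ^ (7 ^ n) = c := by
    intro n
    induction n with
    | zero => simp
    | succ n ih => rw [frob_step, ih, e1]
  exact e2 5

end Pool.Agent.Y220.IC
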