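import Pool.Agent.Y220.IC.Main
import Pool.Agent.Y220.IC.Alg7

/-!
# The transposition for `p = 7`, by means of the Frobenius automorphism
-/

set_option autoImplicit false
set_option linter.unusedSectionVars false

namespace Pool.Agent.Y220.IC

open Polynomial WithZero

section

variable {L : Type} [Field L] {Γ : Type} [LinearOrderedCommGroupWithZero Γ] (w : Valuation L Γ)

theorem res_mul {a a' b b' : L} (ha : w a ≤ 1) (hb' : w b' ≤ 1) (haa : w (a - a') < 1)
    (hbb : w (b - b') < 1) : w (a * b - a' * b') < 1 := by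
  have h : a * b - a' * b' = a * (b - b') + (a - a') * b' := by ring
  rw [h]
  refine lt_of_le_of_lt (Valuation.map_add w _ _) (max_lt ?_ ?_)
  · rw [map_mul]
    exact lt_of_le_of_lt (mul_le_of_le_one_left' ha) hbb
  · rw [map_mul]
    exact lt_of_le_of_lt (mul_le_of_le_one_right' hb') haa

theorem res_F {p e : ℕ} (hnat : ∀ n : ℕ, w (n : L) ≤ 1) {y c x t : L} (hy : w y ≤ 1)
    (hc : w c ≤ 1) (hyc : w (y - c) < 1) (ht : w t ≤ 1)
    (hxt : w (x - t) < 1) :
    w ((((e : L) * y - (e - 1)) * (y ^ p - x) - y ^ e) -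
      (((e : L) * c - (e - 1)) * (c ^ p - t) - c ^ e)) < 1 := by
  have hle : ∀ z : L, w z ≤ 1 → w ((e : L) * z - (e - 1)) ≤ 1 := by
    intro z hz
    refine (Valuation.map_sub _ _ _).trans (max_le ?_ ?_)
    · rw [map_mul]
      exact mul_le_one' (hnat e) hz
    · exact (Valuation.map_sub _ _ _).trans (max_le (hnat e) (by rw [map_one]))
  have h1 : w (((e : L) * y - (e - 1)) * (y ^ p - x) - ((e : L) * c - (e - 1)) * (c ^ p - t)) < 1 := by
    apply res_mul w (hle y hy)
    · refine (Valuation.map_sub _ _ _).trans (max_le ?_ ht)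
      rw [map_pow]
      exact pow_le_one' hc p
    · have h2 : ((e : L) * y - (e - 1)) - ((e : L) * c - (e - 1)) = e * (y - c) := by ring
      rw [h2, map_mul]
      exact lt_of_le_of_lt (mul_le_of_le_one_left' (hnat e)) hyc
    · have h2 : (y ^ p - x) - (c ^ p - t) = (y ^ p - c ^ p) - (x - t) := by ring
      rw [h2]
      exact lt_of_le_of_lt (Valuation.map_sub w _ _) (max_lt (pow_sub_lt w hy hc hyc p) hxt)
  have h3 : (((e : L) * y - (e - 1)) * (y ^ p - x) - y ^ e) -
      (((e : L) * c - (e - 1)) * (c ^ p - t) - c ^ e) =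
      (((e : L) * y - (e - 1)) * (y ^ p - x) - ((e : L) * c - (e - 1)) * (c ^ p - t)) -
      (y ^ e - c ^ e) := by ring
  rw [h3]
  exact lt_of_le_of_lt (Valuation.map_sub w _ _) (max_lt h1 (pow_sub_lt w hy hc hyc e))

end

section

variable {k L : Type} [Field k] [IsAlgClosed k] [Field L] [Algebra (RatFunc k) L] {N : ℕ}
  [Fact (Nat.Prime 7)] [CharP k 7] [CharP L 7] [FiniteDimensional (RatFunc k) L]
  [IsGalois (RatFunc k) L]
  [IsSplittingField (RatFunc k) L (F 7 4 (RatFunc.X ^ N : RatFunc k))]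

theorem swap_seven (hN : 0 < N)
    (y : Fin (7 + 1) → L) (h : Roots 7 4 (algebraMap (RatFunc k) L (RatFunc.X ^ N)) y)
    (hinj : Function.Injective y)
    (hG : ∀ (σ : L ≃ₐ[RatFunc k] L) (i : Fin (7 + 1)), ∃ j, y j = σ (y i)) :
    ∃ a b : Fin (7 + 1), a ≠ b ∧ ∀ g ∈ (rho hinj hG).range,
        Equiv.swap a b * g * (Equiv.swap a b)⁻¹ ∈ (rho hinj hG).range := by
  have h7 := seven_eq (k := k)
  obtain ⟨z0, hz0⟩ := IsAlgClosed.exists_pow_nat_eq (3 : k) hN
  have h3k : (3 : k) ≠ 0 := by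
    intro h3
    have : (1 : k) = 0 := by linear_combination h7 - 2 * h3
    exact one_ne_zero this
  have hz00 : z0 ≠ 0 := by
    rintro rfl
    rw [zero_pow hN.ne'] at hz0
    exact h3k hz0.symm
  have hη0 : z0 ^ 6 ≠ 0 := pow_ne_zero _ hz00
  have hηN : (z0 ^ 6) ^ N = 1 := by
    rw [← pow_mul, mul_comm, pow_mul, hz0]
    linear_combination 104 * h7
  let α : k ≃+* k := frobeniusEquiv k 7
  have hα : ∀ c, α c = c ^ 7 := fun c => frobeniusEquiv_def k 7 c
  have hx0 : algebraMap (RatFunc k) L (RatFunc.X ^ N) ≠ 0 := by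
    simp [RatFunc.X_ne_zero]
  have he0k : ((4 : ℕ) : k) ≠ 0 := cast_ne_zero_of_lt (p := 7) (by norm_num) (by norm_num)
  have he0 : ((4 : ℕ) : L) ≠ 0 := cast_ne_zero_of_lt (p := 7) (by norm_num) (by norm_num)
  have hγX : ∀ γ0 : RatFunc k ≃+* RatFunc k,
      γ0 RatFunc.X = RatFunc.C (z0 ^ 6) * RatFunc.X → γ0 (RatFunc.X ^ N) = RatFunc.X ^ N := by
    intro γ0 h3
    rw [map_pow, h3, mul_pow, ← map_pow, hηN, map_one, one_mul]
  obtain ⟨w, ψ, γ0, h1, h2, h3, h4, h5, h6⟩ := exists_psi (L := L)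
    (F 7 4 (RatFunc.X ^ N : RatFunc k)) α (z0 ^ 6) z0 hη0 (by rw [hα]; ring) (by
      intro γ0 _ h4
      rw [F_map]
      congr 1
      exact hγX γ0 h4)
  have hnat := val_nat_le w h4
  have hw1 := val_nat w h4 he0k
  have hw2 : w (((4 : ℕ) : L) - 1) = 1 := val_sub_one (p := 7) w h4 (by norm_num) (by norm_num)
  set ι : k →+* L := (algebraMap (RatFunc k) L).comp RatFunc.C with hι
  have hιc : ∀ c, algebraMap (RatFunc k) L (RatFunc.C c) = ι c := fun c => rfl
  simp only [hιc, hα] at h4 h6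
  have hιle : ∀ c, w (ι c) ≤ 1 := by
    intro c
    by_cases hc : c = 0
    · rw [hc, map_zero, map_zero]
      exact zero_le
    · exact (h4 c hc).le
  have hιeq : ∀ c, w (ι c) < 1 → c = 0 := by
    intro c hc
    by_contra hcon
    rw [h4 c hcon] at hc
    exact lt_irrefl _ hc
  have hres : ∀ (a : L) (c c' : k), w (a - ι c) < 1 → w (a - ι c') < 1 → c = c' := by
    intro a c c' hc hc'
    have h8 : w (ι (c - c')) < 1 := by
      have h9 : ι (c - c') = (a - ι c') - (a - ι c) := by rw [map_sub]; ring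
      rw [h9]
      exact lt_of_le_of_lt (Valuation.map_sub w _ _) (max_lt hc' hc)
    exact sub_eq_zero.1 (hιeq _ h8)
  set x : L := algebraMap (RatFunc k) L (RatFunc.X ^ N) with hx
  rw [map_sub, hιc] at h5
  have hwX : w (algebraMap (RatFunc k) L RatFunc.X) ≤ 1 := by
    have h8 : algebraMap (RatFunc k) L RatFunc.X =
      (algebraMap (RatFunc k) L RatFunc.X - ι z0) + ι z0 := by ring
    rw [h8]
    exact (Valuation.map_add _ _ _).trans (max_le h5.le (hιle z0))
  have hx3 : w (x - ι 3) < 1 := by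
    have h8 := pow_sub_lt w hwX (hιle z0) h5 N
    rwa [← map_pow, ← map_pow, hz0] at h8
  have hwx : w x = 1 := by
    have h8 : x = (x - ι 3) + ι 3 := by ring
    rw [h8, Valuation.map_add_eq_of_lt_right, h4 3 h3k]
    rw [h4 3 h3k]
    exact hx3
  have hle1 := h.le_one w hw1 hw2 (by norm_num) hwx.le
  have hy1 : ∀ i, w (y i) = 1 := by
    intro i
    exact all_eq_one (s := Finset.univ) (fun j _ => hle1 j)
      ((h.prod_val w hw1 hw2 (by norm_num)).trans hwx) i (Finset.mem_univ i)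
  have hy2 : ∀ i, w (y i - 1) = 1 := by
    intro i
    exact all_eq_one (s := Finset.univ) (fun j _ => (Valuation.map_sub _ _ _).trans
      (max_le (hle1 j) (by rw [map_one]))) ((h.prod_val_one w hw1).trans hwx) i (Finset.mem_univ i)
  have hsep : ∀ i j, i ≠ j → w (y i - y j) = 1 := fun i j hij =>
    h.sep_far w hw1 hw2 (by norm_num) (by norm_num) hwx.le hij (hy1 i) (hy2 i)
  have huniq : ∀ i j c, w (y i - ι c) < 1 → w (y j - ι c) < 1 → i = j := by
    intro i j c hi hj
    by_contra hij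
    have h8 := hsep i j hij
    have h9 : y i - y j = (y i - ι c) - (y j - ι c) := by ring
    have h10 := lt_of_le_of_lt (Valuation.map_sub w _ _) (max_lt hi hj)
    rw [← h9, h8] at h10
    exact lt_irrefl _ h10
  choose c hc1 hc2 using fun i => h6 (y i) (hle1 i)
  -- the residues are roots of the reduced polynomial
  have hmap : ∀ u : k, (((4 : ℕ) : L) * ι u - (((4 : ℕ) : L) - 1)) * (ι u ^ 7 - ι 3) - ι u ^ 4 =
      ι (((4 : k) * u - (4 - 1)) * (u ^ 7 - 3) - u ^ 4) := by
    intro u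
    simp only [map_sub, map_mul, map_pow, map_ofNat, map_one, Nat.cast_ofNat]
  have hroot : ∀ i, ((4 : k) * c i - (4 - 1)) * (c i ^ 7 - 3) - c i ^ 4 = 0 := by
    intro i
    apply hιeq
    have h8 := res_F (p := 7) (e := 4) w hnat (hle1 i) (hιle (c i)) (hc1 i) (hιle 3) hx3
    rw [h.root i, sub_self, zero_sub, Valuation.map_neg, hmap] at h8
    exact h8
  have hψx : (ψ : L →+* L) x = x := by
    change ψ _ = _
    rw [hx, h3, hγX γ0 h2]
  have hψG : ∀ i, ∃ j, y j = ψ (y i) := fun i => h.exists_image he0 (ψ : L →+* L) hψx i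
  have hspec := permOf_spec hinj ψ hψG
  have hnorm := norm_mem hinj hG ψ γ0 h3 hψG
  set π := permOf y hinj ψ hψG with hπ
  have hstep : ∀ i u, w (y i - ι u) < 1 → w (y (π i) - ι (u ^ 7)) < 1 := by
    intro i u hu
    rw [hres (y i) u (c i) hu (hc1 i), hspec]
    exact hc2 i
  have hiter : ∀ (n : ℕ) i u, w (y i - ι u) < 1 → w (y ((π ^ n) i) - ι (u ^ (7 ^ n))) < 1 := by
    intro n
    induction n with
    | zero => intro i u hu; simpa using hu
    | succ n ih =>
      intro i u hu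
      have h8 := hstep _ _ (ih i u hu)
      rw [← pow_mul, ← pow_succ] at h8
      rw [pow_succ', Equiv.Perm.mul_apply]
      exact h8
  -- the two special roots
  obtain ⟨s, hs⟩ := IsAlgClosed.exists_pow_nat_eq (-2 : k) (n := 2) (by norm_num)
  have hu : (s - 2) ^ 2 + 4 * (s - 2) + 6 = 0 := by linear_combination hs
  set u := s - 2 with hudef
  have hfind : ∀ v : k, v ^ 2 + 4 * v + 6 = 0 → ∃ i, w (y i - ι v) < 1 := by
    intro v hv
    by_contra hcon
    push Not at hcon
    have h8 := h.eval (ι v)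
    have h9 := res_F (p := 7) (e := 4) (y := ι v) (c := ι v) w hnat (hιle v) (hιle v)
      (by rw [sub_self, map_zero]; exact zero_lt_one) (hιle 3) hx3
    rw [hmap, quad_root7 v hv, map_zero, sub_zero, h8, map_mul, hw1, one_mul, map_prod] at h9
    refine absurd h9 (not_lt.2 (Finset.one_le_prod' fun i _ => ?_))
    rw [Valuation.map_sub_swap]
    exact hcon i
  obtain ⟨q1, q2, q3⟩ := quad7 u hu
  obtain ⟨r1, r2, r3⟩ := quad7 (3 - u) q3
  obtain ⟨i1, hi1⟩ := hfind u hu
  obtain ⟨i2, hi2⟩ := hfind (3 - u) q3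
  have h12 : i1 ≠ i2 := by
    intro h8
    rw [← h8] at hi2
    exact q2 (hres _ _ _ hi2 hi1)
  have e1 : (π ^ 5) i1 = i2 := by
    have h8 := hiter 5 i1 u hi1
    rw [q1] at h8
    exact huniq _ _ _ h8 hi2
  have e2 : (π ^ 5) i2 = i1 := by
    have h8 := hiter 5 i2 (3 - u) hi2
    rw [r1, sub_sub_cancel] at h8
    exact huniq _ _ _ h8 hi1
  have e3 : ∀ i, i ≠ i1 → i ≠ i2 → (π ^ 5) i = i := by
    intro i hn1 hn2
    have h8 := hiter 5 i (c i) (hc1 i)
    have h9 : c i ^ (7 ^ 5) = c i := by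
      rcases factor7 (c i) (hroot i) with h10 | h10 | h10
      · exact lin7 _ h10
      · exfalso
        have h11 := hc1 i
        rcases quad_cases7 (c i) u hu h10 with h12 | h12
        · rw [h12] at h11
          exact hn1 (huniq _ _ _ h11 hi1)
        · rw [h12] at h11
          exact hn2 (huniq _ _ _ h11 hi2)
      · exact quint7 _ h10
    rw [h9] at h8
    exact huniq _ _ _ h8 (hc1 i)
  have hsw : π ^ 5 = Equiv.swap i1 i2 := by
    ext i : 1
    by_cases hn1 : i = i1
    · rw [hn1, e1, Equiv.swap_apply_left]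
    · by_cases hn2 : i = i2
      · rw [hn2, e2, Equiv.swap_apply_right]
      · rw [e3 i hn1 hn2, Equiv.swap_apply_of_ne_of_ne hn1 hn2]
  have hnorm' : ∀ n : ℕ, ∀ g ∈ (rho hinj hG).range, π ^ n * g * (π ^ n)⁻¹ ∈ (rho hinj hG).range := by
    intro n
    induction n with
    | zero => intro g hg; simpa using hg
    | succ n ih =>
      intro g hg
      have h8 := hnorm _ (ih g hg)
      have h9 : π ^ (n + 1) * g * (π ^ (n + 1))⁻¹ = π * (π ^ n * g * (π ^ n)⁻¹) * π⁻¹ := by
        rw [pow_succ', mul_inv_rev]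
        group
      rw [h9]
      exact h8
  exact ⟨i1, i2, h12, fun g hg => by rw [← hsw]; exact hnorm' 5 g hg⟩

end

end Pool.Agent.Y220.IC
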