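import Pool.Agent.Y220.IC.Swap
import Pool.Agent.Y220.IC.Seven
import Pool.Agent.Y220.IC.Num

/-!
# The inertia conjecture for the alternating group of degree `p + 1`
-/

set_option autoImplicit false
set_option linter.unusedSectionVars false

namespace Pool.Agent.Y220.IC

open Polynomial WithZero

/-- The statement to be proved, for a fixed coordinate and a fixed order of the linear parts. -/
def Goal (p : ℕ) (k : Type) [Field k] (bI : Fin (p + 1) ≃ Option (ZMod p)) (m : ℕ) : Prop :=
  ∃ (L : Type) (_ : Field L) (_ : Algebra (RatFunc k) L),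
      FiniteDimensional (RatFunc k) L ∧ IsGalois (RatFunc k) L ∧
      ∃ φ : (L ≃ₐ[RatFunc k] L) ≃* alternatingGroup (Fin (p + 1)),
        (∀ (Γ : Type) (_ : LinearOrderedCommGroupWithZero Γ) (w : Valuation L Γ),
          (∀ c : k, c ≠ 0 →
            w (algebraMap (RatFunc k) L (algebraMap k (RatFunc k) c)) = 1) →
          w (algebraMap (RatFunc k) L RatFunc.X) ≤ 1 →
          ∀ σ : L ≃ₐ[RatFunc k] L, (∀ a : L, w a ≤ 1 → w (σ a - a) < 1) → σ = 1) ∧
        ∃ (Γ : Type) (_ : LinearOrderedCommGroupWithZero Γ) (w : Valuation L Γ),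
          (∀ c : k, c ≠ 0 →
            w (algebraMap (RatFunc k) L (algebraMap k (RatFunc k) c)) = 1) ∧
          1 < w (algebraMap (RatFunc k) L RatFunc.X) ∧
          ∀ σ : L ≃ₐ[RatFunc k] L,
            (IsAff bI m (φ σ : Equiv.Perm (Fin (p + 1))) ↔
              ∀ a : L, w a ≤ 1 → w (σ a - a) < 1)

theorem goal_of {k : Type} [Field k] [IsAlgClosed k] {p e N m d r : ℕ} [Fact p.Prime] [CharP k p]
    (hp3 : 3 ≤ p) (he : 2 ≤ e) (hep : e < p) (heN : e ∣ N)
    (h2N : 2 ∣ N) (hN : N = 2 * r * d) (hpm : p - 1 = 2 * d * m)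
    (hcop : Nat.Coprime (r * (e - 2)) m) (hpN : Nat.Coprime p N)
    (hswap : ∀ (L : Type) [Field L] [Algebra (RatFunc k) L] [CharP L p]
      [FiniteDimensional (RatFunc k) L] [IsGalois (RatFunc k) L]
      [IsSplittingField (RatFunc k) L (F p e (RatFunc.X ^ N : RatFunc k))],
      ∀ y : Fin (p + 1) → L, Roots p e (algebraMap (RatFunc k) L (RatFunc.X ^ N)) y →
      ∀ hinj : Function.Injective y,
      ∀ hG : ∀ (σ : L ≃ₐ[RatFunc k] L) (i : Fin (p + 1)), ∃ j, y j = σ (y i),
      ∃ a b : Fin (p + 1), a ≠ b ∧ ∀ g ∈ (rho hinj hG).range,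
        Equiv.swap a b * g * (Equiv.swap a b)⁻¹ ∈ (rho hinj hG).range)
    (bI : Fin (p + 1) ≃ Option (ZMod p)) : Goal p k bI m := by
  have hp : p.Prime := Fact.out
  let L := (F p e (RatFunc.X ^ N : RatFunc k)).SplittingField
  have hcK : CharP (RatFunc k) p :=
    charP_of_injective_algebraMap (algebraMap k (RatFunc k)).injective p
  have hcL : CharP L p := charP_of_injective_algebraMap (algebraMap (RatFunc k) L).injective p
  have he0 : (e : L) ≠ 0 := cast_ne_zero_of_lt (p := p) (by omega) hep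
  have hx0 : algebraMap (RatFunc k) L (RatFunc.X ^ N) ≠ 0 := by
    simp [RatFunc.X_ne_zero]
  have hs : (F p e (algebraMap (RatFunc k) L (RatFunc.X ^ N))).Splits := by
    have := IsSplittingField.splits L (F p e (RatFunc.X ^ N : RatFunc k))
    rwa [F_map] at this
  obtain ⟨y, h⟩ := exists_roots he0 hep hp.two_le hs
  have hinj := h.injective hx0 he hep
  have hsep : (F p e (RatFunc.X ^ N : RatFunc k)).Separable := by
    rw [← separable_map (algebraMap (RatFunc k) L), F_map]
    exact h.separable hinj he0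
  have hfin : FiniteDimensional (RatFunc k) L :=
    IsSplittingField.finiteDimensional L (F p e (RatFunc.X ^ N : RatFunc k))
  have hgal : IsGalois (RatFunc k) L := IsGalois.of_separable_splitting_field hsep
  exact ⟨L, inferInstance, inferInstance, hfin, hgal,
    main_of_swap k L p e N hp3 he hep heN h2N hN hpm hcop hpN (hswap L) bI⟩

theorem goal_all {k : Type} [Field k] [IsAlgClosed k] {p m d : ℕ} [Fact p.Prime] [CharP k p]
    (hp5 : 5 ≤ p) (hpm : p - 1 = 2 * d * m)
    (bI : Fin (p + 1) ≃ Option (ZMod p)) : Goal p k bI m := by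
  have hp : p.Prime := Fact.out
  have hd : 0 < d := Nat.pos_of_ne_zero fun h => by rw [h] at hpm; simp at hpm; omega
  have hm : 0 < m := Nat.pos_of_ne_zero fun h => by rw [h] at hpm; simp at hpm; omega
  have hdp : d < p := by
    have : d ≤ 2 * d * m := by nlinarith
    omega
  have hmp : m ∣ p - 1 := ⟨2 * d, by rw [hpm]; ring⟩
  have hcd : Nat.Coprime p d := (hp.coprime_iff_not_dvd).2 fun h =>
    absurd (Nat.le_of_dvd hd h) (not_le.2 hdp)
  have hc2 : Nat.Coprime p 2 := (hp.coprime_iff_not_dvd).2 fun h =>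
    absurd (Nat.le_of_dvd (by norm_num) h) (by omega)
  by_cases hp7 : p = 7
  · subst hp7
    have hm2 : Nat.Coprime (2 * (4 - 2)) m := by
      have h1 : d * m = 3 := by
        have : 2 * (d * m) = 6 := by rw [← mul_assoc, ← hpm]
        omega
      have h2 : m ∣ 3 := ⟨d, by rw [← h1]; ring⟩
      exact Nat.Coprime.coprime_dvd_right h2 (by norm_num)
    refine goal_of (e := 4) (N := 2 * 2 * d) (r := 2) (by norm_num) (by norm_num) (by norm_num)
      (dvd_mul_right 4 d) ((dvd_mul_right 2 2).mul_right d) rfl hpm hm2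
      ((hc2.mul_right hc2).mul_right hcd) ?_ bI
    intro L _ _ _ _ _ _ y h hinj hG
    exact swap_seven (by positivity) y h hinj hG
  · obtain ⟨e, he, hep, heo, hcop⟩ := exists_e p hp hp5 hp7
    have hce : Nat.Coprime p e := (hp.coprime_iff_not_dvd).2 fun h =>
      absurd (Nat.le_of_dvd (by omega) h) (not_le.2 hep)
    refine goal_of (e := e) (N := 2 * e * d) (r := e) (by omega) he hep
      ((dvd_mul_left e 2).mul_right d) ((dvd_mul_right 2 e).mul_right d) rfl hpm
      (Nat.Coprime.coprime_dvd_right hmp hcop) ((hc2.mul_right hce).mul_right hcd) ?_ bI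
    intro L _ _ _ _ _ _ y h hinj hG
    exact swap_gen hd (by omega) he heo hep rfl y h hinj hG

end Pool.Agent.Y220.IC
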