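import Mathlib

/-!
# Subgroups of the alternating group with a normal subgroup of order `p`
-/

set_option autoImplicit false

namespace Pool.Agent.Y220.IC

open Equiv Equiv.Perm

variable {p : ℕ}

/-- In the coordinate `b`, the permutation `π` fixes `∞` and is `t ↦ a t + c`. -/
def Act (b : Fin (p + 1) ≃ Option (ZMod p)) (π : Perm (Fin (p + 1))) (a c : ZMod p) : Prop :=
  b (π (b.symm none)) = none ∧ ∀ t, b (π (b.symm (some t))) = some (a * t + c)

/-- `π` is affine with linear part of order dividing `m`. -/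
def IsAff (b : Fin (p + 1) ≃ Option (ZMod p)) (m : ℕ) (π : Perm (Fin (p + 1))) : Prop :=
  ∃ a c : ZMod p, a ^ m = 1 ∧ Act b π a c

theorem Act.ext {b : Fin (p + 1) ≃ Option (ZMod p)} {π π' : Perm (Fin (p + 1))} {a c : ZMod p}
    (h : Act b π a c) (h' : Act b π' a c) : π = π' := by
  ext i : 1
  obtain ⟨o, rfl⟩ := b.symm.surjective i
  apply b.injective
  cases o with
  | none => rw [h.1, h'.1]
  | some t => rw [h.2, h'.2]

theorem Act.mul {b : Fin (p + 1) ≃ Option (ZMod p)} {π π' : Perm (Fin (p + 1))}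
    {a c a' c' : ZMod p} (h : Act b π a c) (h' : Act b π' a' c') :
    Act b (π * π') (a * a') (a * c' + c) := by
  constructor
  · have h1 : π' (b.symm none) = b.symm none := by rw [Equiv.eq_symm_apply]; exact h'.1
    rw [Perm.mul_apply, h1]
    exact h.1
  · intro t
    have h1 : π' (b.symm (some t)) = b.symm (some (a' * t + c')) := by
      rw [Equiv.eq_symm_apply]; exact h'.2 t
    rw [Perm.mul_apply, h1, h.2]
    congr 1
    ring

theorem Act.one (b : Fin (p + 1) ≃ Option (ZMod p)) : Act b 1 1 0 := by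
  constructor <;> simp

theorem Act.inv {b : Fin (p + 1) ≃ Option (ZMod p)} {π : Perm (Fin (p + 1))}
    {a a' c : ZMod p} (h : Act b π a c) (ha : a * a' = 1) : Act b π⁻¹ a' (-(a' * c)) := by
  constructor
  · have h1 : π (b.symm none) = b.symm none := by rw [Equiv.eq_symm_apply]; exact h.1
    have h2 : π⁻¹ (b.symm none) = b.symm none := by
      rw [Perm.inv_eq_iff_eq]; exact h1.symm
    rw [h2, Equiv.apply_symm_apply]
  · intro t
    have h1 : π (b.symm (some (a' * t + -(a' * c)))) = b.symm (some t) := by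
      rw [Equiv.eq_symm_apply, h.2]
      congr 1
      linear_combination (t - c) * ha
    have h2 : π⁻¹ (b.symm (some t)) = b.symm (some (a' * t + -(a' * c))) := by
      rw [Perm.inv_eq_iff_eq]; exact h1.symm
    rw [h2, Equiv.apply_symm_apply]

theorem Act.ne_zero [Fact p.Prime] {b : Fin (p + 1) ≃ Option (ZMod p)} {π : Perm (Fin (p + 1))}
    {a c : ZMod p} (h : Act b π a c) : a ≠ 0 := by
  rintro rfl
  have h1 : b (π (b.symm (some 0))) = b (π (b.symm (some 1))) := by
    rw [h.2, h.2]
    simp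
  have h2 := b.symm.injective (π.injective (b.injective h1))
  simp at h2

/-- the permutation `t ↦ a t + c` -/
def affPerm (b : Fin (p + 1) ≃ Option (ZMod p)) (a : (ZMod p)ˣ) (c : ZMod p) :
    Perm (Fin (p + 1)) :=
  b.symm.permCongr (optionCongr ((Units.mulLeft a).trans (Equiv.addRight c)))

theorem act_affPerm (b : Fin (p + 1) ≃ Option (ZMod p)) (a : (ZMod p)ˣ) (c : ZMod p) :
    Act b (affPerm b a c) a c := by
  constructor <;> simp [affPerm]

theorem sign_gen [Fact p.Prime] (hp : 3 ≤ p) (g : (ZMod p)ˣ)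
    (hg : ∀ x : (ZMod p)ˣ, x ∈ Subgroup.zpowers g) :
    sign (Units.mulLeft g : Perm (ZMod p)) = -1 := by
  have hne : g ≠ 1 := by
    rintro rfl
    have h1 := hg (-1)
    rw [Subgroup.zpowers_one_eq_bot, Subgroup.mem_bot] at h1
    have h2 : ((-1 : (ZMod p)ˣ) : ZMod p) = ((1 : (ZMod p)ˣ) : ZMod p) := by rw [h1]
    have : Fact (2 < p) := ⟨by omega⟩
    exact ZMod.neg_one_ne_one (by simpa using h2)
  have hzpow : ∀ (n : ℤ) (x : ZMod p), ((Units.mulLeft g : Perm (ZMod p)) ^ n) x =
      ((g ^ n : (ZMod p)ˣ) : ZMod p) * x := by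
    intro n x
    have h1 : (Units.mulLeft g : Perm (ZMod p)) ^ n = Units.mulLeft (g ^ n) := by
      have h2 : ∀ a : (ZMod p)ˣ, (Units.mulLeft a : Perm (ZMod p)) =
        MulAction.toPermHom (ZMod p)ˣ (ZMod p) a := fun a => by
          ext x
          simp [Units.smul_def]
      rw [h2, h2, map_zpow]
    rw [h1]
    rfl
  have hcyc : (Units.mulLeft g : Perm (ZMod p)).IsCycle := by
    refine ⟨1, ?_, ?_⟩
    · intro h
      rw [Units.mulLeft_apply] at h
      have h' : (g : ZMod p) * 1 = 1 := h
      rw [mul_one] at h'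
      exact hne (Units.ext h')
    · intro x hx
      have hx0 : x ≠ 0 := by
        rintro rfl
        simp at hx
      obtain ⟨n, hn⟩ := hg (Units.mk0 x hx0)
      refine ⟨n, ?_⟩
      rw [hzpow, mul_one]
      simp only at hn
      rw [hn]
      rfl
  have hsupp : (Units.mulLeft g : Perm (ZMod p)).support = Finset.univ.erase 0 := by
    ext x
    rw [Perm.mem_support, Finset.mem_erase, Units.mulLeft_apply]
    constructor
    · intro h
      refine ⟨?_, Finset.mem_univ _⟩
      rintro rfl
      simp at h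
    · rintro ⟨h, -⟩ h2
      apply hne
      apply Units.ext
      rw [Units.val_one]
      have h3 : (g : ZMod p) * x = x := h2
      exact mul_right_cancel₀ h (by rw [h3, one_mul])
  rw [hcyc.sign, hsupp, Finset.card_erase_of_mem (Finset.mem_univ _), Finset.card_univ, ZMod.card]
  have hodd : Odd p := (Fact.out : p.Prime).odd_of_ne_two (by omega)
  have h2 : Even (p - 1) := Nat.Odd.sub_odd hodd odd_one
  rw [h2.neg_one_pow]

/-- coordinates for a subgroup of order `p` -/
theorem exists_coord [Fact p.Prime] (τ : Perm (Fin (p + 1))) (hτ : τ ^ p = 1) (hτ1 : τ ≠ 1) :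
    ∃ b : Fin (p + 1) ≃ Option (ZMod p), ∀ n : ℕ, Act b (τ ^ n) 1 (n : ZMod p) := by
  have hp : p.Prime := Fact.out
  obtain ⟨a0, ha0⟩ : ∃ a, τ a ≠ a := by
    by_contra hcon
    push Not at hcon
    exact hτ1 (Perm.ext hcon)
  let f : ZMod p → Fin (p + 1) := fun t => (τ ^ t.val) a0
  have hmod : ∀ n : ℕ, τ ^ n = τ ^ (n : ZMod p).val := by
    intro n
    rw [ZMod.val_natCast]
    conv_lhs => rw [← Nat.div_add_mod n p, pow_add, pow_mul, hτ, one_pow, one_mul]
  have hf : ∀ (n : ℕ) (t : ZMod p), (τ ^ n) (f t) = f (t + n) := by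
    intro n t
    change (τ ^ n) ((τ ^ t.val) a0) = (τ ^ (t + n).val) a0
    rw [← Perm.mul_apply, ← pow_add, hmod (n + t.val)]
    congr 3
    push_cast
    rw [ZMod.natCast_zmod_val]
    ring
  have hord : orderOf τ = p := orderOf_eq_prime hτ hτ1
  -- no fixed points of the powers on the orbit
  have hfix : ∀ (n : ℕ) (t : ZMod p), (τ ^ n) (f t) = f t → (n : ZMod p) = 0 := by
    intro n t h
    by_contra hn
    have hcop : Nat.Coprime n (orderOf τ) := by
      rw [hord, Nat.coprime_comm, hp.coprime_iff_not_dvd]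
      intro hd
      exact hn ((ZMod.natCast_eq_zero_iff n p).2 hd)
    obtain ⟨m, hm⟩ := exists_pow_eq_self_of_coprime hcop
    have h1 : ∀ k : ℕ, ((τ ^ n) ^ k) (f t) = f t := by
      intro k
      induction k with
      | zero => simp
      | succ k ih => rw [pow_succ, Perm.mul_apply, h, ih]
    have h2 : τ (f t) = f t := by
      have := h1 m
      rwa [hm] at this
    apply ha0
    have h3 : f t = (τ ^ t.val) a0 := rfl
    rw [h3, ← Perm.mul_apply, ← pow_succ', pow_succ, Perm.mul_apply] at h2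
    exact (τ ^ t.val).injective h2
  have hinj : Function.Injective f := by
    intro s t hst
    have h1 := hf (t - s).val s
    rw [ZMod.natCast_zmod_val, add_sub_cancel, ← hst] at h1
    have h2 := hfix _ _ h1
    rw [ZMod.natCast_zmod_val] at h2
    exact (sub_eq_zero.1 h2).symm
  obtain ⟨a1, ha1⟩ : ∃ a, a ∉ Set.range f := by
    by_contra hcon
    push Not at hcon
    have hs : Function.Surjective f := hcon
    have := Fintype.card_le_of_surjective f hs
    rw [Fintype.card_fin, ZMod.card] at this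
    omega
  let g : Option (ZMod p) → Fin (p + 1) := fun o => o.elim a1 f
  have hg : Function.Injective g := by
    intro o o' h
    cases o with
    | none =>
      cases o' with
      | none => rfl
      | some t => exact absurd ⟨t, h.symm⟩ ha1
    | some s =>
      cases o' with
      | none => exact absurd ⟨s, h⟩ ha1
      | some t => rw [hinj h]
  have hgb : Function.Bijective g := by
    rw [Fintype.bijective_iff_injective_and_card]
    refine ⟨hg, ?_⟩
    rw [Fintype.card_option, ZMod.card, Fintype.card_fin]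
  let b : Fin (p + 1) ≃ Option (ZMod p) := (Equiv.ofBijective g hgb).symm
  refine ⟨b, fun n => ⟨?_, fun t => ?_⟩⟩
  · have h1 : b.symm none = a1 := rfl
    rw [h1]
    by_contra hcon
    obtain ⟨t, ht⟩ := Option.ne_none_iff_exists'.1 hcon
    have h2 : (τ ^ n) a1 = f t := by
      have : (τ ^ n) a1 = b.symm (some t) := by rw [Equiv.eq_symm_apply]; exact ht
      rw [this]; rfl
    apply ha1
    refine ⟨t - n, ?_⟩
    have h3 := hf n (t - n)
    rw [sub_add_cancel, ← h2] at h3
    exact (τ ^ n).injective h3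
  · have h1 : b.symm (some t) = f t := rfl
    rw [h1, hf, one_mul]
    exact b.apply_symm_apply (some (t + n))

/-- The structure of a subgroup of the alternating group with a normal subgroup of order `p`. -/
theorem exists_aff [Fact p.Prime] (hp3 : 3 ≤ p) (I : Subgroup (alternatingGroup (Fin (p + 1))))
    (P : Subgroup (alternatingGroup (Fin (p + 1)))) (hPI : P ≤ I) (hP : Nat.card P = p)
    (hn : ∀ x ∈ I, ∀ y ∈ P, x * y * x⁻¹ ∈ P) :
    ∃ (b : Fin (p + 1) ≃ Option (ZMod p)) (m d : ℕ), 0 < m ∧ p - 1 = 2 * d * m ∧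
      ∀ π : alternatingGroup (Fin (p + 1)), π ∈ I ↔ IsAff b m π := by
  have hp : p.Prime := Fact.out
  -- a generator of P
  have hcyc : IsCyclic P := isCyclic_of_prime_card hP
  obtain ⟨τ, hτ⟩ := hcyc.exists_generator
  have hτp : τ ^ p = 1 := by
    have h := pow_card_eq_one' (x := τ)
    rwa [hP] at h
  have hτ1 : τ ≠ 1 := by
    rintro rfl
    have : Subsingleton P := ⟨fun x y => by
      have hx := hτ x
      have hy := hτ y
      rw [Subgroup.zpowers_one_eq_bot, Subgroup.mem_bot] at hx hy
      rw [hx, hy]⟩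
    rw [Nat.card_eq_one_iff_unique.2 ⟨this, ⟨1⟩⟩] at hP
    exact hp.one_lt.ne hP
  let t : Perm (Fin (p + 1)) := ((τ : alternatingGroup (Fin (p + 1))) : Perm (Fin (p + 1)))
  have htp : t ^ p = 1 := by
    have := congrArg (fun x : P => ((x : alternatingGroup (Fin (p + 1))) : Perm (Fin (p + 1)))) hτp
    simpa using this
  have ht1 : t ≠ 1 := by
    intro h
    apply hτ1
    apply Subtype.ext
    apply Subtype.ext
    exact h
  obtain ⟨b, hb⟩ := exists_coord t htp ht1
  -- members of P
  have hPmem : ∀ z ∈ P, ∃ n : ℕ, (z : Perm (Fin (p + 1))) = t ^ n := by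
    intro z hz
    obtain ⟨n, hn⟩ := (mem_powers_iff_mem_zpowers).2 (hτ ⟨z, hz⟩)
    refine ⟨n, ?_⟩
    have := congrArg (fun x : P => ((x : alternatingGroup (Fin (p + 1))) : Perm (Fin (p + 1)))) hn
    simpa using this.symm
  have hPpow : ∀ n : ℕ, (τ : alternatingGroup (Fin (p + 1))) ^ n ∈ P := fun n => P.pow_mem τ.2 n
  -- members of I are affine
  have hIact : ∀ π ∈ I, ∃ a c : ZMod p, Act b (π : Perm (Fin (p + 1))) a c := by
    intro π hπ
    obtain ⟨k, hk⟩ := hPmem _ (hn π hπ τ τ.2)
    have hk' : (π : Perm (Fin (p + 1))) * t * (π : Perm (Fin (p + 1)))⁻¹ = t ^ k := by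
      rw [← hk]; rfl
    have hk0 : (k : ZMod p) ≠ 0 := by
      intro h0
      have h1 := (hb k)
      rw [h0] at h1
      have h2 : t ^ k = 1 := h1.ext (Act.one b)
      rw [h2, mul_inv_eq_one, mul_eq_left] at hk'
      exact ht1 hk'
    have hpow : ∀ n : ℕ, (π : Perm (Fin (p + 1))) * t ^ n = t ^ (k * n) * π := by
      intro n
      rw [pow_mul, ← hk', conj_pow]
      group
    -- the fixed point
    have hfix : b ((π : Perm (Fin (p + 1))) (b.symm none)) = none := by
      by_contra hcon
      obtain ⟨s, hs⟩ := Option.ne_none_iff_exists'.1 hcon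
      have h1 := hpow 1
      rw [pow_one, mul_one] at h1
      have h2 := congrArg (fun q : Perm (Fin (p + 1)) => b (q (b.symm none))) h1
      simp only [Perm.mul_apply] at h2
      have h3 : t (b.symm none) = b.symm none := by
        have := (hb 1).1
        rw [pow_one] at this
        rw [Equiv.eq_symm_apply]; exact this
      have h4 : (π : Perm (Fin (p + 1))) (b.symm none) = b.symm (some s) := by
        rw [Equiv.eq_symm_apply]; exact hs
      rw [h3, h4, (hb k).2, Equiv.apply_symm_apply] at h2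
      simp only [one_mul, Option.some.injEq] at h2
      apply hk0
      linear_combination -h2
    obtain ⟨c, hc⟩ : ∃ c, b ((π : Perm (Fin (p + 1))) (b.symm (some 0))) = some c := by
      apply Option.ne_none_iff_exists'.1
      intro h1
      rw [← hfix] at h1
      have := b.symm.injective ((π : Perm (Fin (p + 1))).injective (b.injective h1))
      simp at this
    refine ⟨k, c, hfix, fun s => ?_⟩
    have h1 := congrArg (fun q : Perm (Fin (p + 1)) => b (q (b.symm (some 0)))) (hpow s.val)
    simp only [Perm.mul_apply] at h1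
    have h2 : (t ^ s.val) (b.symm (some 0)) = b.symm (some s) := by
      rw [Equiv.eq_symm_apply, (hb s.val).2]
      simp
    have h3 : (π : Perm (Fin (p + 1))) (b.symm (some 0)) = b.symm (some c) := by
      rw [Equiv.eq_symm_apply]; exact hc
    rw [h2, h3, (hb (k * s.val)).2] at h1
    rw [h1]
    push_cast
    rw [ZMod.natCast_zmod_val]
    congr 1
    ring
  -- the linear parts
  let H : Subgroup (ZMod p)ˣ :=
    { carrier := {a | ∃ π ∈ I, ∃ c : ZMod p, Act b (π : Perm (Fin (p + 1))) (a : ZMod p) c}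
      mul_mem' := by
        rintro a a' ⟨π, hπ, c, h⟩ ⟨π', hπ', c', h'⟩
        exact ⟨π * π', I.mul_mem hπ hπ', _, h.mul h'⟩
      one_mem' := ⟨1, I.one_mem, 0, Act.one b⟩
      inv_mem' := by
        rintro a ⟨π, hπ, c, h⟩
        exact ⟨π⁻¹, I.inv_mem hπ, _, h.inv (Units.mul_inv a)⟩ }
  have hHmem : ∀ a : (ZMod p)ˣ, a ∈ H ↔
      ∃ π ∈ I, ∃ c : ZMod p, Act b (π : Perm (Fin (p + 1))) (a : ZMod p) c := fun a => Iff.rfl
  have hm : 0 < Nat.card H := Nat.card_pos
  have hHpow : ∀ a : (ZMod p)ˣ, a ∈ H ↔ a ^ Nat.card H = 1 := by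
    classical
    have hfin : Finite (ZMod p)ˣ := inferInstance
    have h1 : (H : Set (ZMod p)ˣ) ⊆ {a | a ^ Nat.card H = 1} := by
      intro a ha
      have h5 := pow_card_eq_one' (x := (⟨a, ha⟩ : H))
      exact congrArg (fun u : H => (u : (ZMod p)ˣ)) h5
    have h2 : ({a : (ZMod p)ˣ | a ^ Nat.card H = 1} : Set (ZMod p)ˣ).ncard ≤ Nat.card H := by
      have h3 := IsCyclic.card_pow_eq_one_le (α := (ZMod p)ˣ) hm
      rw [Set.ncard_eq_toFinset_card']
      refine le_trans (le_of_eq (congrArg Finset.card (Finset.ext fun a => ?_))) h3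
      simp
    have h3 : (H : Set (ZMod p)ˣ) = {a | a ^ Nat.card H = 1} := by
      apply Set.eq_of_subset_of_ncard_le h1
      rw [← Nat.card_coe_set_eq (H : Set (ZMod p)ˣ)]
      exact h2
    intro a
    constructor
    · intro ha
      exact h1 ha
    · intro ha
      have : a ∈ (H : Set (ZMod p)ˣ) := by rw [h3]; exact ha
      exact this
  -- all affine permutations with linear part in `H` are in `I`
  have hall : ∀ (a : (ZMod p)ˣ) (c : ZMod p), a ∈ H → ∃ π ∈ I,
      Act b (π : Perm (Fin (p + 1))) (a : ZMod p) c := by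
    rintro a c ⟨π, hπ, c', h⟩
    refine ⟨(τ : alternatingGroup (Fin (p + 1))) ^ (c - c').val * π,
      I.mul_mem (hPI (hPpow _)) hπ, ?_⟩
    have h1 := (hb (c - c').val).mul h
    rw [one_mul, one_mul, ZMod.natCast_zmod_val, add_sub_cancel] at h1
    exact h1
  obtain ⟨g, hg⟩ := IsCyclic.exists_generator (α := (ZMod p)ˣ)
  have hcard : Nat.card (ZMod p)ˣ = p - 1 := by
    rw [Nat.card_eq_fintype_card, ZMod.card_units]
  have hdvd : Nat.card H ∣ p - 1 := by
    rw [← hcard]
    exact Subgroup.card_subgroup_dvd_card H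
  obtain ⟨j, hj⟩ := hdvd
  -- the sign
  have hjeven : Even j := by
    have h1 : g ^ j ∈ H := by
      rw [hHpow, ← pow_mul, mul_comm, ← hj, ← hcard]
      exact pow_card_eq_one'
    obtain ⟨π, hπ, h2⟩ := hall (g ^ j) 0 h1
    have h3 : (π : Perm (Fin (p + 1))) = affPerm b (g ^ j) 0 := h2.ext (act_affPerm b (g ^ j) 0)
    have h4 : sign (affPerm b (g ^ j) 0) = 1 := by
      rw [← h3]
      exact π.2
    have h5 : sign (affPerm b (g ^ j) 0) = sign (Units.mulLeft g : Perm (ZMod p)) ^ j := by
      have h6 : (Units.mulLeft (g ^ j)).trans (Equiv.addRight (0 : ZMod p)) =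
          (Units.mulLeft g : Perm (ZMod p)) ^ j := by
        have h7 : ∀ a : (ZMod p)ˣ, (Units.mulLeft a : Perm (ZMod p)) =
          MulAction.toPermHom (ZMod p)ˣ (ZMod p) a := fun a => by
            ext x
            simp [Units.smul_def]
        rw [h7 g, ← map_pow, ← h7]
        ext x
        simp
      rw [affPerm, sign_permCongr, optionCongr_sign, h6, map_pow]
    rw [h5, sign_gen hp3 g hg] at h4
    by_contra hodd
    rw [Nat.not_even_iff_odd] at hodd
    rw [hodd.neg_one_pow] at h4
    exact absurd h4 (by decide)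
  obtain ⟨d, hd⟩ := hjeven
  refine ⟨b, Nat.card H, d, hm, ?_, fun π => ⟨fun hπ => ?_, ?_⟩⟩
  · rw [hj, hd]; ring
  · obtain ⟨a, c, h⟩ := hIact π hπ
    refine ⟨a, c, ?_, h⟩
    have h1 : Units.mk0 a h.ne_zero ∈ H := ⟨π, hπ, c, h⟩
    rw [hHpow] at h1
    have h2 := congrArg (fun u : (ZMod p)ˣ => (u : ZMod p)) h1
    simpa using h2
  · rintro ⟨a, c, ha, h⟩
    have h1 : Units.mk0 a h.ne_zero ∈ H := by
      rw [hHpow]
      apply Units.ext
      simpa using ha
    obtain ⟨π', hπ', h2⟩ := hall _ c h1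
    have h3 : (π : Perm (Fin (p + 1))) = π' := h.ext h2
    have h4 : π = π' := Subtype.ext h3
    rw [h4]
    exact hπ'

end Pool.Agent.Y220.IC
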