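import Pool.Agent.Y220.IC.InfD

/-!
# The inertia group at the infinite place is the full group of affine maps
-/

set_option autoImplicit false
set_option linter.unusedSectionVars false

namespace Pool.Agent.Y220.IC

open Polynomial WithZero

section

variable {L : Type} [Field L] {p e : ℕ} [Fact p.Prime] [CharP L p] {x : L} {y : Fin (p + 1) → L}
  (w : Valuation L ℤᵐ⁰) {K : Type} [Field K] [Algebra K L] [FiniteDimensional K L]

theorem pow_sub_lt {Γ : Type} [LinearOrderedCommGroupWithZero Γ] (w : Valuation L Γ) {s t : L}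
    (hs : w s ≤ 1) (ht : w t ≤ 1) (hst : w (s - t) < 1) (n : ℕ) : w (s ^ n - t ^ n) < 1 := by
  induction n with
  | zero => simp
  | succ n ih =>
    have h1 : s ^ (n + 1) - t ^ (n + 1) = s * (s ^ n - t ^ n) + (s - t) * t ^ n := by ring
    rw [h1]
    refine lt_of_le_of_lt (Valuation.map_add w _ _) (max_lt ?_ ?_)
    · rw [map_mul]
      exact lt_of_le_of_lt (mul_le_of_le_one_left' hs) ih
    · rw [map_mul, map_pow]
      exact lt_of_le_of_lt (mul_le_of_le_one_right' (pow_le_one' ht n)) hst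

/-- The numbers. -/
theorem count_aux {p e N m d r D : ℕ} {n n' : ℤ} (hd : 0 < 2 * d * m)
    (hpm : p - 1 = 2 * d * m)
    (hN : N = 2 * r * d) (h1 : (p : ℤ) * n = N * D)
    (h2 : ((p - 1 : ℕ) : ℤ) * n' = ((e - 2 : ℕ) : ℤ) * n) :
    (p : ℤ) * m * n' = (r * (e - 2) : ℕ) * D := by
  have hd0 : (2 * (d : ℤ)) ≠ 0 := by
    intro h
    have : d = 0 := by
      have := (mul_eq_zero.1 h).resolve_left (by norm_num)
      exact_mod_cast this
    rw [this] at hd
    simp at hd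
  apply mul_left_cancel₀ hd0
  rw [hpm] at h2
  rw [hN] at h1
  push_cast at *
  linear_combination p * h2 + ((e - 2 : ℕ) : ℤ) * h1

theorem card_aux {m : ℕ} (hm : 0 < m) :
    Nat.card {q : ZMod p × ZMod p // q.1 ^ m = 1} ≤ p * m := by
  rw [Nat.subtype_card (nthRootsFinset m (1 : ZMod p) ×ˢ (Finset.univ : Finset (ZMod p)))
    (fun q => by
      rw [Finset.mem_product, mem_nthRootsFinset hm]
      simp), Finset.card_product, Finset.card_univ, ZMod.card, mul_comm]
  refine Nat.mul_le_mul_left p ?_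
  rw [nthRootsFinset_def]
  exact (Multiset.toFinset_card_le _).trans (card_nthRoots m 1)

theorem infD (h : Roots p e x y) (h1 : w (e : L) = 1) (h2 : w ((e : L) - 1) = 1)
    (he : 2 ≤ e) (hep : e < p) {z : K} {N m d r : ℕ} (hxz : x = algebraMap K L z ^ N)
    (hN : N = 2 * r * d) (hpm : p - 1 = 2 * d * m) (hcop : Nat.Coprime (r * (e - 2)) m)
    (hpN : Nat.Coprime p N)
    (hz : w (algebraMap K L z) = exp ((Nat.card (inert K w) : ℕ) : ℤ))
    (hinj : Function.Injective y)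
    (hG : ∀ (σ : L ≃ₐ[K] L) (i : Fin (p + 1)), ∃ j, y j = σ (y i))
    (hfaith : Function.Injective (rho hinj hG))
    (hτ : ∀ t : ZMod p, t ≠ 0 → w (tm p L t) = 1) :
    ∃ b : Fin (p + 1) ≃ Option (ZMod p), (∀ σ, σ ∈ inert K w ↔ IsAff b m (rho hinj hG σ)) ∧
      ∀ π, IsAff b m π → ∃ σ ∈ inert K w, rho hinj hG σ = π := by
  classical
  have hp : p.Prime := Fact.out
  have hp2 := hp.two_le
  have hpos : 0 < 2 * d * m := by omega
  have hm : 0 < m := Nat.pos_of_ne_zero fun h3 => by rw [h3] at hpos; simp at hpos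
  have hd : 0 < d := Nat.pos_of_ne_zero fun h3 => by rw [h3] at hpos; simp at hpos
  have hN0 : N ≠ 0 := by
    rintro rfl
    rw [Nat.coprime_zero_right] at hpN
    omega
  have : Finite (L ≃ₐ[K] L) := inferInstance
  have hDne : 0 < Nat.card (inert K w) := by
    have : Nonempty (inert K w) := ⟨⟨1, fun a _ => by simp⟩⟩
    exact Nat.card_pos
  set D := Nat.card (inert K w) with hD
  have hx : w x = exp ((N : ℤ) * D) := by
    rw [hxz, map_pow, hz, ← exp_nsmul, nsmul_eq_mul]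
  have hx1 : 1 < w x := by
    rw [hx, ← exp_zero, exp_lt_exp]
    positivity
  obtain ⟨b, i1, i2, h12, hb1, hb2, hb0, hbl, hlab⟩ :=
    exists_label w h h1 h2 he hep hx1 hinj hτ
  have hl1 : 1 < w (y i1) := by
    have := hbl 0
    rwa [← hb1, Equiv.symm_apply_apply] at this
  have hl2 : 1 < w (y i2) := by
    have := hbl 1
    rwa [← hb2, Equiv.symm_apply_apply] at this
  have hy12 : y i1 ≠ y i2 := fun h3 => h12 (hinj h3)
  have hδ0 : y i2 - y i1 ≠ 0 := sub_ne_zero.2 (Ne.symm hy12)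
  obtain ⟨-, -, h4, -⟩ := h.inf_diff w h1 h2 he hep hy12 hl1 hl2
  have h5 := h.inf_large w h1 h2 (by omega) hep i1 hl1
  have hwy : w (y i1) ≠ 0 := (zero_lt_one.trans hl1).ne'
  have hwδ : w (y i2 - y i1) ≠ 0 := (Valuation.ne_zero_iff _).2 hδ0
  obtain ⟨n, hn⟩ : ∃ n : ℤ, w (y i1) = exp n := ⟨log (w (y i1)), (exp_log hwy).symm⟩
  obtain ⟨n', hn'⟩ : ∃ n' : ℤ, w (y i2 - y i1) = exp n' :=
    ⟨log (w (y i2 - y i1)), (exp_log hwδ).symm⟩
  rw [hn, hn', ← exp_nsmul, ← exp_nsmul, exp_inj, nsmul_eq_mul, nsmul_eq_mul] at h4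
  rw [hn, hx, ← exp_nsmul, exp_inj, nsmul_eq_mul] at h5
  have h6 := count_aux hpos hpm hN h5 h4
  -- divisibility
  have hpD : p ∣ D := by
    have h7 : (p : ℤ) ∣ ((N * D : ℕ) : ℤ) := ⟨n, by push_cast; linarith⟩
    exact hpN.dvd_of_dvd_mul_left (Int.natCast_dvd_natCast.1 h7)
  have hmD : m ∣ D := by
    have h7 : (m : ℤ) ∣ ((r * (e - 2) * D : ℕ) : ℤ) := ⟨p * n', by push_cast at h6 ⊢; linarith⟩
    exact hcop.symm.dvd_of_dvd_mul_left (Int.natCast_dvd_natCast.1 h7)
  have hpmc : Nat.Coprime p m := by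
    rw [hp.coprime_iff_not_dvd]
    intro h7
    have h8 := Nat.le_of_dvd hm h7
    have h9 : m ≤ 2 * d * m := Nat.le_mul_of_pos_left m (by omega)
    omega
  have hD2 : p * m ≤ D := Nat.le_of_dvd hDne (hpmc.mul_dvd_of_dvd_of_dvd hpD hmD)
  -- the unit
  have hact : ∀ σ : inert K w, ∃ q : ZMod p × ZMod p, q.1 ^ m = 1 ∧
      Act b (rho hinj hG (σ : L ≃ₐ[K] L)) q.1 q.2 := by
    rintro ⟨σ, hσ⟩
    obtain ⟨a, c, hac, ha⟩ := act_of_inert w h1 hinj hG hτ h12 hb1 hb2 hb0 hbl hlab hσ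
    refine ⟨(a, c), ?_, hac⟩
    have hz0 : algebraMap K L z ≠ 0 := by
      intro h7
      rw [h7, map_zero] at hz
      exact exp_ne_zero hz.symm
    have hwu : w ((y i2 - y i1) ^ (p * m) / algebraMap K L z ^ (r * (e - 2))) = 1 := by
      rw [map_div₀, map_pow, map_pow, hn', hz, ← exp_nsmul, ← exp_nsmul, ← exp_sub, exp_eq_one,
        nsmul_eq_mul, nsmul_eq_mul]
      push_cast at h6 ⊢
      linarith
    have h7 := hσ _ hwu.le
    have hσz : σ (algebraMap K L z) = algebraMap K L z := σ.commutes z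
    rw [map_div₀ σ, map_pow σ, map_pow σ, hσz, ← one_mul (w _)] at h7
    have hu0 : (y i2 - y i1) ^ (p * m) / algebraMap K L z ^ (r * (e - 2)) ≠ 0 :=
      div_ne_zero (pow_ne_zero _ hδ0) (pow_ne_zero _ hz0)
    have h8 : w ((σ (y i2 - y i1) / (y i2 - y i1)) ^ (p * m) - 1) < 1 := by
      have h9 : (σ (y i2 - y i1) / (y i2 - y i1)) ^ (p * m) - 1 =
          (σ (y i2 - y i1) ^ (p * m) / algebraMap K L z ^ (r * (e - 2)) -
          (y i2 - y i1) ^ (p * m) / algebraMap K L z ^ (r * (e - 2))) /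
          ((y i2 - y i1) ^ (p * m) / algebraMap K L z ^ (r * (e - 2))) := by
        have h13 : (y i2 - y i1) ^ (p * m) ≠ 0 := pow_ne_zero _ hδ0
        have h14 : algebraMap K L z ^ (r * (e - 2)) ≠ 0 := pow_ne_zero _ hz0
        rw [div_pow]
        field_simp
      rw [h9, map_div₀, hwu, div_one]
      rwa [one_mul] at h7
    have htle := tm_le w hτ a
    have hsle : w (σ (y i2 - y i1) / (y i2 - y i1)) ≤ 1 := by
      have h9 : σ (y i2 - y i1) / (y i2 - y i1) =
        (σ (y i2 - y i1) / (y i2 - y i1) - tm p L a) + tm p L a := by ring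
      rw [h9]
      exact (Valuation.map_add _ _ _).trans (max_le ha.le htle)
    have h9 := pow_sub_lt w hsle htle ha (p * m)
    have h10 : w (tm p L (a ^ (p * m)) - tm p L 1) < 1 := by
      rw [map_pow, map_one (tm p L)]
      have h11 : tm p L a ^ (p * m) - 1 =
        ((σ (y i2 - y i1) / (y i2 - y i1)) ^ (p * m) - 1) -
        ((σ (y i2 - y i1) / (y i2 - y i1)) ^ (p * m) - tm p L a ^ (p * m)) := by ring
      rw [h11]
      exact lt_of_le_of_lt (Valuation.map_sub w _ _) (max_lt h8 h9)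
    have h12 := tm_eq w hτ h10
    rwa [pow_mul, ZMod.pow_card] at h12
  choose f hf1 hf2 using hact
  let g : inert K w → {q : ZMod p × ZMod p // q.1 ^ m = 1} := fun σ => ⟨f σ, hf1 σ⟩
  have hginj : Function.Injective g := by
    intro σ σ' hσ
    have h7 : f σ = f σ' := congrArg Subtype.val hσ
    have h8 := hf2 σ
    rw [h7] at h8
    exact Subtype.ext (hfaith (h8.ext (hf2 σ')))
  have hgb : Function.Bijective g := hginj.bijective_of_nat_card_le ((card_aux hm).trans hD2)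
  have hsurj : ∀ π, IsAff b m π → ∃ σ ∈ inert K w, rho hinj hG σ = π := by
    rintro π ⟨a, c, ham, hac⟩
    obtain ⟨σ, hσ⟩ := hgb.2 ⟨(a, c), ham⟩
    have h7 : f σ = (a, c) := congrArg Subtype.val hσ
    have h8 := hf2 σ
    rw [h7] at h8
    exact ⟨σ, σ.2, h8.ext hac⟩
  refine ⟨b, fun σ => ⟨fun hσ => ⟨_, _, hf1 ⟨σ, hσ⟩, hf2 ⟨σ, hσ⟩⟩, fun hσ => ?_⟩, hsurj⟩
  obtain ⟨σ', hσ', h7⟩ := hsurj _ hσ
  rwa [← hfaith h7]

end

end Pool.Agent.Y220.IC
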