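import Mathlib

/-!
# Extension of automorphisms to splitting fields
-/

set_option autoImplicit false

namespace Pool.Agent.Y220.IC

open Polynomial

theorem ext_hom {K L K' L' : Type} [Field K] [Field L] [Algebra K L] [Field K'] [Field L']
    [Algebra K' L'] (f : K[X]) [IsSplittingField K L f] (θ : K →+* K')
    (hf : ((f.map θ).map (algebraMap K' L')).Splits) :
    ∃ γ : L →+* L', ∀ a : K, γ (algebraMap K L a) = algebraMap K' L' (θ a) := by
  let : Algebra K L' := ((algebraMap K' L').comp θ).toAlgebra
  have h1 : (f.map (algebraMap K L')).Splits := by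
    rw [Polynomial.map_map] at hf
    exact hf
  refine ⟨(IsSplittingField.lift L f h1 : L →+* L'), fun a => ?_⟩
  exact (IsSplittingField.lift L f h1).commutes a

theorem exists_ext {K L : Type} [Field K] [Field L] [Algebra K L] (f : K[X])
    [IsSplittingField K L f] (θ : K ≃+* K) (hf : f.map (θ : K →+* K) = f) :
    ∃ γ : L ≃+* L, ∀ a : K, γ (algebraMap K L a) = algebraMap K L (θ a) := by
  have hs : (f.map (algebraMap K L)).Splits := IsSplittingField.splits L f
  have hf' : f.map (θ.symm : K →+* K) = f := by
    conv_lhs => rw [← hf]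
    rw [Polynomial.map_map]
    have : (θ.symm : K →+* K).comp (θ : K →+* K) = RingHom.id K := by
      ext a
      simp
    rw [this, Polynomial.map_id]
  obtain ⟨γ, hγ⟩ := ext_hom (L := L) (L' := L) f (θ : K →+* K) (by rw [hf]; exact hs)
  obtain ⟨δ, hδ⟩ := ext_hom (L := L) (L' := L) f (θ.symm : K →+* K) (by rw [hf']; exact hs)
  let ε : L →ₐ[K] L := { (γ.comp δ : L →+* L) with
    commutes' := fun a => by
      change γ (δ (algebraMap K L a)) = algebraMap K L a
      rw [hδ, hγ]
      simp }
  have : FiniteDimensional K L := IsSplittingField.finiteDimensional L f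
  have hb : Function.Bijective ε := Algebra.IsAlgebraic.algHom_bijective ε
  have hsur : Function.Surjective γ := fun a => by
    obtain ⟨b, hb'⟩ := hb.2 a
    exact ⟨δ b, hb'⟩
  exact ⟨RingEquiv.ofBijective γ ⟨γ.injective, hsur⟩, hγ⟩

end Pool.Agent.Y220.IC
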