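import Pool.Agent.Y220.IC.Sgn

/-!
# Automorphisms which act trivially modulo a finite place
-/

set_option autoImplicit false
set_option linter.unusedSectionVars false

namespace Pool.Agent.Y220.IC

section

variable {L : Type} [Field L] {p e : ℕ} [Fact p.Prime] [CharP L p] {x : L} {y : Fin (p + 1) → L}
  {Γ : Type} [LinearOrderedCommGroupWithZero Γ] (w : Valuation L Γ)

theorem fin_fix0 (h : Roots p e x y) (h1 : w (e : L) = 1) (h2 : w ((e : L) - 1) = 1)
    (he : 2 ≤ e) (hep : e < p) (hx0 : x ≠ 0) (hx : w x ≤ 1) {s0 : L} (hs0 : s0 ^ e = x)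
    (σ : L ≃+* L) (hσ0 : σ s0 = s0)
    (hσ : ∀ a, w a ≤ 1 → w (σ a - a) < 1) (hG : ∀ i, ∃ j, y j = σ (y i)) (i : Fin (p + 1))
    (hi1 : ¬ w (y i - 1) < 1) :
    σ (y i) = y i := by
  obtain ⟨j, hj⟩ := hG i
  by_contra hne
  have hij : i ≠ j := by
    rintro rfl
    exact hne hj.symm
  have hle := h.le_one w h1 h2 hep hx i
  have hc := hσ _ hle
  rw [← hj] at hc
  rcases lt_or_eq_of_le hle with hi | hi
  · -- near zero
    have hyj : w (y j) < 1 := by
      have h3 : y j = (y j - y i) + y i := by ring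
      rw [h3]
      exact lt_of_le_of_lt (Valuation.map_add w _ _) (max_lt hc hi)
    have h3 := h.near_zero w h1 h2 he hep hx0 hx i hi
    rw [← hs0, map_pow] at h3
    have h4 : w (y i) = w s0 := (pow_left_inj₀ zero_le zero_le (by omega)).1 h3
    have hs : s0 ≠ 0 := by
      rintro rfl
      rw [zero_pow (by omega)] at hs0
      exact hx0 hs0.symm
    have hws : w s0 ≠ 0 := (Valuation.ne_zero_iff _).2 hs
    have h5 := hσ (y i / s0) (by rw [map_div₀, h4, div_self hws])
    rw [map_div₀ σ, hσ0, ← hj, ← sub_div, map_div₀, div_lt_one₀ (zero_lt_iff.2 hws),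
      Valuation.map_sub_swap, h.sep_zero w h1 h2 he hep hx0 hx hij hi hyj, h4] at h5
    exact lt_irrefl _ h5
  · have hi2 : w (y i - 1) = 1 := by
      refine le_antisymm ?_ (not_lt.1 hi1)
      exact (Valuation.map_sub _ _ _).trans (max_le hle (by rw [map_one]))
    have h3 := h.sep_far w h1 h2 he hep hx hij hi hi2
    rw [Valuation.map_sub_swap, h3] at hc
    exact lt_irrefl _ hc

theorem fin_fix (h : Roots p e x y) (hnat : ∀ n : ℕ, w (n : L) ≤ 1)
    (h1 : w (e : L) = 1) (h2 : w ((e : L) - 1) = 1) (h22 : w (2 : L) = 1)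
    (he : 2 ≤ e) (hep : e < p) (hx0 : x ≠ 0) (hx : w x ≤ 1) {s0 s1 : L} (hs0 : s0 ^ e = x)
    (hs1 : s1 ^ 2 = x) (σ : L ≃+* L) (hσ0 : σ s0 = s0) (hσ1 : σ s1 = s1)
    (hσ : ∀ a, w a ≤ 1 → w (σ a - a) < 1) (hG : ∀ i, ∃ j, y j = σ (y i)) (i : Fin (p + 1)) :
    σ (y i) = y i := by
  by_cases hi1 : w (y i - 1) < 1
  · obtain ⟨j, hj⟩ := hG i
    by_contra hne
    have hij : i ≠ j := by
      rintro rfl
      exact hne hj.symm
    have hle := h.le_one w h1 h2 hep hx i
    have hc := hσ _ hle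
    rw [← hj] at hc
    have hyj : w (y j - 1) < 1 := by
      have h3 : y j - 1 = (y j - y i) + (y i - 1) := by ring
      rw [h3]
      exact lt_of_le_of_lt (Valuation.map_add w _ _) (max_lt hc hi1)
    have h3 := h.near_one w hnat h1 h2 h22 he hep hx i hi1
    rw [← hs1, map_pow] at h3
    have h4 : w (y i - 1) = w s1 := (pow_left_inj₀ zero_le zero_le (by omega)).1 h3
    have hs : s1 ≠ 0 := by
      rintro rfl
      rw [zero_pow (by omega)] at hs1
      exact hx0 hs1.symm
    have hws : w s1 ≠ 0 := (Valuation.ne_zero_iff _).2 hs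
    have h5 := hσ ((y i - 1) / s1) (by rw [map_div₀, h4, div_self hws])
    rw [map_div₀ σ, hσ1, map_sub σ, map_one σ, ← hj, ← sub_div, map_div₀,
      div_lt_one₀ (zero_lt_iff.2 hws)] at h5
    have h6 : y j - 1 - (y i - 1) = y j - y i := by ring
    rw [h6, Valuation.map_sub_swap, h.sep_one w hnat h1 h2 h22 he hep hx0 hx hij hi1 hyj,
      h4] at h5
    exact lt_irrefl _ h5
  · exact fin_fix0 w h h1 h2 he hep hx0 hx hs0 σ hσ0 hσ hG i hi1

theorem fin_swap (h : Roots p e x y) (hinj : Function.Injective y)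
    (hnat : ∀ n : ℕ, w (n : L) ≤ 1)
    (h1 : w (e : L) = 1) (h2 : w ((e : L) - 1) = 1) (h22 : w (2 : L) = 1)
    (he : 2 ≤ e) (hep : e < p) (hx0 : x ≠ 0) (hx : w x < 1) {s0 s1 : L} (hs0 : s0 ^ e = x)
    (hs1 : s1 ^ 2 = x) (σ : L ≃+* L) (hσ0 : σ s0 = s0) (hσ1 : σ s1 = -s1)
    (hσ : ∀ a, w a ≤ 1 → w (σ a - a) < 1) (hG : ∀ i, ∃ j, y j = σ (y i)) :
    ∃ a b : Fin (p + 1), a ≠ b ∧ permOf y hinj σ hG = Equiv.swap a b := by
  classical
  have hspec := permOf_spec hinj σ hG
  set π := permOf y hinj σ hG with hπ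
  obtain ⟨i, hi⟩ : ∃ i, w (y i - 1) < 1 := by
    by_contra hcon
    push Not at hcon
    have h3 := h.prod_val_one w h1
    rw [← h3] at hx
    exact absurd hx (not_lt.2 (Finset.one_le_prod' fun i _ => hcon i))
  obtain ⟨-, hS⟩ := h.card_one w hnat h1 h2 h22 he hep hx0 hx.le hi
  obtain ⟨a, b, hab, hSab⟩ := Finset.card_eq_two.1 hS
  have hmem : ∀ l, w (y l - 1) < 1 ↔ l = a ∨ l = b := by
    intro l
    have h3 : l ∈ Finset.univ.filter (fun l => w (y l - 1) < 1) ↔ l ∈ ({a, b} : Finset _) := by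
      rw [hSab]
    simpa using h3
  have hfix : ∀ l, ¬ (l = a ∨ l = b) → π l = l := by
    intro l hl
    apply hinj
    rw [hspec]
    exact fin_fix0 w h h1 h2 he hep hx0 hx.le hs0 σ hσ0 hσ hG l fun h3 => hl ((hmem l).1 h3)
  have hmov : ∀ l, w (y l - 1) < 1 → π l ≠ l := by
    intro l hl hl2
    have h3 := h.near_one w hnat h1 h2 h22 he hep hx.le l hl
    rw [← hs1, map_pow] at h3
    have h4 : w (y l - 1) = w s1 := (pow_left_inj₀ zero_le zero_le (by omega)).1 h3
    have hs : s1 ≠ 0 := by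
      rintro rfl
      rw [zero_pow (by omega)] at hs1
      exact hx0 hs1.symm
    have hws : w s1 ≠ 0 := (Valuation.ne_zero_iff _).2 hs
    have h5 := hσ ((y l - 1) / s1) (by rw [map_div₀, h4, div_self hws])
    rw [map_div₀ σ, hσ1, map_sub σ, map_one σ, ← hspec, hl2] at h5
    have h6 : (y l - 1) / -s1 - (y l - 1) / s1 = -(2 * ((y l - 1) / s1)) := by
      field_simp
      ring
    rw [h6, Valuation.map_neg, map_mul, h22, map_div₀, h4, div_self hws, mul_one] at h5
    exact lt_irrefl _ h5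
  have hcases : ∀ l, π l = l ∨ π l = a ∨ π l = b := by
    intro l
    by_contra hcon
    push Not at hcon
    have h3 := hfix (π l) (by
      rintro (h3 | h3)
      · exact hcon.2.1 h3
      · exact hcon.2.2 h3)
    exact hcon.1 (π.injective h3)
  have ha : π a = b := by
    have h3 := hmov a ((hmem a).2 (Or.inl rfl))
    rcases hcases a with h4 | h4 | h4
    · exact absurd h4 h3
    · exact absurd h4 h3
    · exact h4
  have hb : π b = a := by
    have h3 := hmov b ((hmem b).2 (Or.inr rfl))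
    rcases hcases b with h4 | h4 | h4
    · exact absurd h4 h3
    · exact h4
    · exact absurd h4 h3
  refine ⟨a, b, hab, ?_⟩
  ext l : 1
  by_cases hla : l = a
  · rw [hla, ha, Equiv.swap_apply_left]
  · by_cases hlb : l = b
    · rw [hlb, hb, Equiv.swap_apply_right]
    · rw [hfix l (by tauto), Equiv.swap_apply_of_ne_of_ne hla hlb]

end

end Pool.Agent.Y220.IC
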