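import Mathlib

/-!
# Doubly transitive groups normalized by a transposition
-/

set_option autoImplicit false

namespace Pool.Agent.Y220.IC

open Equiv Equiv.Perm

theorem alt_le {α : Type} [Fintype α] [DecidableEq α] (G : Subgroup (Perm α))
    (h2 : ∀ a b c d : α, a ≠ b → c ≠ d → ∃ g ∈ G, g a = c ∧ g b = d) {a b c : α} (hab : a ≠ b)
    (hac : a ≠ c) (hbc : b ≠ c) (hn : ∀ g ∈ G, swap a b * g * (swap a b)⁻¹ ∈ G) :
    alternatingGroup α ≤ G := by
  have hprim : MulAction.IsPreprimitive G α := by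
    apply MulAction.isPreprimitive_of_is_two_pretransitive
    rw [MulAction.is_two_pretransitive_iff]
    intro a b c d hab hcd
    obtain ⟨g, hg, h1, h3⟩ := h2 a b c d hab hcd
    exact ⟨⟨g, hg⟩, h1, h3⟩
  obtain ⟨g, hg, hga, hgb⟩ := h2 a b a c hab hac
  have h3 : g * (swap a b * g⁻¹ * (swap a b)⁻¹) ∈ G := G.mul_mem hg (hn _ (G.inv_mem hg))
  have h4 : g * (swap a b * g⁻¹ * (swap a b)⁻¹) = swap a c * swap a b := by
    have h5 : g * swap a b * g⁻¹ = swap a c := by
      rw [Equiv.mul_swap_eq_swap_mul, hga, hgb, mul_inv_cancel_right]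
    rw [← mul_assoc, ← mul_assoc, h5, swap_inv]
  rw [h4] at h3
  exact alternatingGroup_le_of_isPreprimitive_of_isThreeCycle_mem hprim
    (isThreeCycle_swap_mul_swap_same hac hab hbc.symm) h3

end Pool.Agent.Y220.IC
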