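import Pool.Agent.Y220.IC.Rat
import Pool.Agent.Y220.IC.Ext

/-!
# Field automorphisms preserving a place
-/

set_option autoImplicit false

namespace Pool.Agent.Y220.IC

open Polynomial WithZero

theorem exists_psi {k L : Type} [Field k] [IsAlgClosed k] [Field L] [Algebra (RatFunc k) L]
    [FiniteDimensional (RatFunc k) L] [IsGalois (RatFunc k) L] (f : (RatFunc k)[X])
    [IsSplittingField (RatFunc k) L f] (α : k ≃+* k) (η z0 : k) (hη : η ≠ 0)
    (hz : α z0 = η * z0)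
    (hf : ∀ γ0 : RatFunc k ≃+* RatFunc k, (∀ c, γ0 (RatFunc.C c) = RatFunc.C (α c)) →
      γ0 RatFunc.X = RatFunc.C η * RatFunc.X → f.map (γ0 : RatFunc k →+* RatFunc k) = f) :
    ∃ (w : Valuation L ℤᵐ⁰) (ψ : L ≃+* L) (γ0 : RatFunc k ≃+* RatFunc k),
      (∀ c, γ0 (RatFunc.C c) = RatFunc.C (α c)) ∧ γ0 RatFunc.X = RatFunc.C η * RatFunc.X ∧
      (∀ a, ψ (algebraMap (RatFunc k) L a) = algebraMap (RatFunc k) L (γ0 a)) ∧
      (∀ c, c ≠ 0 → w (algebraMap (RatFunc k) L (RatFunc.C c)) = 1) ∧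
      w (algebraMap (RatFunc k) L (RatFunc.X - RatFunc.C z0)) < 1 ∧
      ∀ a, w a ≤ 1 → ∃ c, w (a - algebraMap (RatFunc k) L (RatFunc.C c)) < 1 ∧
        w (ψ a - algebraMap (RatFunc k) L (RatFunc.C (α c))) < 1 := by
  obtain ⟨θ, hθ1, hθ2⟩ := exists_equiv_aff (RingEquiv.refl k) 1 (-z0) one_ne_zero
  obtain ⟨γ0, hγ1, hγ2⟩ := exists_equiv_aff α η 0 hη
  have hθC : ∀ c, θ (RatFunc.C c) = RatFunc.C c := hθ1
  have hθX : θ RatFunc.X = RatFunc.X - RatFunc.C z0 := by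
    rw [hθ2, map_one, one_mul, map_neg, sub_eq_add_neg]
  have hγX : γ0 RatFunc.X = RatFunc.C η * RatFunc.X := by
    rw [hγ2, map_zero, add_zero]
  obtain ⟨γ, hγ⟩ := exists_ext (L := L) f γ0 (hf γ0 hγ1 hγX)
  obtain ⟨w, h1, h2, h3, h4⟩ := exists_place_tw (L := L) θ
  obtain ⟨g, hg⟩ := h4 γ (α : k →+* k) η (fun c => by
    rw [hθC, hγ, hγ1, hθC]
    rfl) (by
    rw [hγ, hθX, map_sub, hγX, hγ1, hz, map_mul θ, hθC, hθX, map_mul RatFunc.C]
    congr 1
    ring)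
  refine ⟨w, g.toRingEquiv.trans γ, γ0, hγ1, hγX, ?_, ?_, ?_, ?_⟩
  · intro a
    change γ (g (algebraMap (RatFunc k) L a)) = _
    rw [g.commutes, hγ]
  · intro c hc
    rw [← hθC]
    exact h1 c hc
  · rw [← hθX, h3, ← exp_zero, exp_lt_exp]
    have : Nonempty (inert (RatFunc k) w) := ⟨⟨1, fun a _ => by simp⟩⟩
    have h5 : 0 < Nat.card (inert (RatFunc k) w) := Nat.card_pos
    omega
  · intro a ha
    obtain ⟨c, hc⟩ := h2 a ha
    rw [hθC] at hc
    refine ⟨c, hc, ?_⟩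
    have h5 : (g.toRingEquiv.trans γ) a - algebraMap (RatFunc k) L (RatFunc.C (α c)) =
        γ (g (a - algebraMap (RatFunc k) L (RatFunc.C c))) := by
      rw [map_sub g, g.commutes, map_sub γ, hγ, hγ1]
      rfl
    rw [h5]
    set b := a - algebraMap (RatFunc k) L (RatFunc.C c) with hb
    by_cases hb0 : b = 0
    · rw [hb0]
      simp
    · have h6 : γ (g b) ≠ 0 := by simpa using hb0
      have h7 := (hg b⁻¹).not
      rw [map_inv₀ g, map_inv₀ γ, map_inv₀ w, map_inv₀ w, not_le, not_le,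
        one_lt_inv₀ (zero_lt_iff.2 ((Valuation.ne_zero_iff _).2 h6)),
        one_lt_inv₀ (zero_lt_iff.2 ((Valuation.ne_zero_iff _).2 hb0))] at h7
      exact h7.2 hc

end Pool.Agent.Y220.IC
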