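import Pool.Agent.Y220.IC.Root
import Pool.Agent.Y220.IC.Count
import Pool.Agent.Y220.IC.FinTriv
import Pool.Agent.Y220.IC.Psi
import Pool.Agent.Y220.IC.Grp

/-!
# The extension
-/

set_option autoImplicit false
set_option linter.unusedSectionVars false

namespace Pool.Agent.Y220.IC

open Polynomial WithZero

section

variable {k L : Type} [Field k] [Field L] [Algebra (RatFunc k) L] {p : ℕ} [Fact p.Prime]
  [CharP k p] [CharP L p] {Γ : Type} [LinearOrderedCommGroupWithZero Γ] (w : Valuation L Γ)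

theorem val_nat (hw : ∀ c : k, c ≠ 0 → w (algebraMap (RatFunc k) L (RatFunc.C c)) = 1) {n : ℕ}
    (hn : (n : k) ≠ 0) : w (n : L) = 1 := by
  have h := hw _ hn
  rwa [map_natCast, map_natCast] at h

theorem val_nat_le (hw : ∀ c : k, c ≠ 0 → w (algebraMap (RatFunc k) L (RatFunc.C c)) = 1) (n : ℕ) :
    w (n : L) ≤ 1 := by
  by_cases hn : (n : k) = 0
  · have h : (n : L) = algebraMap (RatFunc k) L (RatFunc.C (n : k)) := by
      rw [map_natCast, map_natCast]
    rw [h, hn, map_zero, map_zero, map_zero]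
    exact zero_le
  · exact (val_nat w hw hn).le

theorem val_tm (hw : ∀ c : k, c ≠ 0 → w (algebraMap (RatFunc k) L (RatFunc.C c)) = 1)
    (t : ZMod p) (ht : t ≠ 0) : w (tm p L t) = 1 := by
  have h1 : tm p L t = ((t.val : ℕ) : L) := by
    conv_lhs => rw [← ZMod.natCast_zmod_val t]
    rw [map_natCast]
  rw [h1]
  apply val_nat w hw
  intro h2
  apply ht
  rw [CharP.cast_eq_zero_iff k p] at h2
  rw [← ZMod.natCast_zmod_val t]
  exact (ZMod.natCast_eq_zero_iff _ _).2 h2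

theorem val_sub_one (hw : ∀ c : k, c ≠ 0 → w (algebraMap (RatFunc k) L (RatFunc.C c)) = 1) {n : ℕ}
    (h1 : 2 ≤ n) (hn : n < p) : w ((n : L) - 1) = 1 := by
  have h2 : ((n : L) - 1) = ((n - 1 : ℕ) : L) := by
    rw [Nat.cast_sub (by omega), Nat.cast_one]
  rw [h2]
  exact val_nat w hw (cast_ne_zero_of_lt (p := p) (by omega) (by omega))

end

/-- conjugation of affine permutations -/
theorem isAff_conj {p m : ℕ} (b b' : Fin (p + 1) ≃ Option (ZMod p)) (π : Equiv.Perm (Fin (p + 1))) :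
    IsAff b' m ((b.trans b'.symm : Equiv.Perm (Fin (p + 1))) * π *
      (b.trans b'.symm : Equiv.Perm (Fin (p + 1)))⁻¹) ↔ IsAff b m π := by
  have h : ∀ o, b' (((b.trans b'.symm : Equiv.Perm (Fin (p + 1))) * π *
      (b.trans b'.symm : Equiv.Perm (Fin (p + 1)))⁻¹) (b'.symm o)) = b (π (b.symm o)) := by
    intro o
    have h1 : (b.trans b'.symm : Equiv.Perm (Fin (p + 1)))⁻¹ (b'.symm o) = b.symm o := by
      rw [Equiv.Perm.inv_eq_iff_eq]
      simp
    rw [Equiv.Perm.mul_apply, Equiv.Perm.mul_apply, h1]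
    simp
  unfold IsAff Act
  simp only [h]

section

variable {k L : Type} [Field k] [IsAlgClosed k] [Field L] [Algebra (RatFunc k) L] {p e N : ℕ}
  [Fact p.Prime] [CharP k p] [CharP L p] [FiniteDimensional (RatFunc k) L]
  [IsGalois (RatFunc k) L]
  [IsSplittingField (RatFunc k) L (F p e (RatFunc.X ^ N : RatFunc k))]
  {y : Fin (p + 1) → L}

theorem gal_roots (h : Roots p e (algebraMap (RatFunc k) L (RatFunc.X ^ N)) y)
    (he0 : (e : L) ≠ 0) (σ : L ≃ₐ[RatFunc k] L) (i : Fin (p + 1)) : ∃ j, y j = σ (y i) :=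
  h.exists_image he0 (σ : L →+* L) (σ.commutes _) i

theorem rho_inj (h : Roots p e (algebraMap (RatFunc k) L (RatFunc.X ^ N)) y)
    (he0 : (e : L) ≠ 0) (hinj : Function.Injective y)
    (hG : ∀ (σ : L ≃ₐ[RatFunc k] L) (i : Fin (p + 1)), ∃ j, y j = σ (y i)) :
    Function.Injective (rho hinj hG) := by
  rw [injective_iff_map_eq_one]
  intro σ hσ
  apply faithful h he0 σ
  intro i
  rw [← rho_spec hinj hG, hσ]
  rfl

theorem rho_alt (h : Roots p e (algebraMap (RatFunc k) L (RatFunc.X ^ N)) y)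
    (hinj : Function.Injective y)
    (hG : ∀ (σ : L ≃ₐ[RatFunc k] L) (i : Fin (p + 1)), ∃ j, y j = σ (y i))
    (he : 2 ≤ e) (hep : e < p) (hp3 : 3 ≤ p) (hNe : Even (N * e)) (σ : L ≃ₐ[RatFunc k] L) :
    rho hinj hG σ ∈ alternatingGroup (Fin (p + 1)) := by
  rw [Equiv.Perm.mem_alternatingGroup]
  obtain ⟨κ, hκ⟩ := h.disc he hep hp3 ((algebraMap (RatFunc k) L).comp (RatFunc.C))
  obtain ⟨s, hs⟩ := IsAlgClosed.exists_pow_nat_eq κ (n := 2) (by norm_num)
  obtain ⟨M, hM⟩ := hNe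
  -- the determinant is in the base field
  set u : L := algebraMap (RatFunc k) L (RatFunc.C s * RatFunc.X ^ M) with hu
  have h1 : vdm y ^ 2 = u ^ 2 := by
    rw [hκ, hu, ← hs, ← map_pow (algebraMap (RatFunc k) L), ← map_pow (algebraMap (RatFunc k) L),
      mul_pow, RingHom.comp_apply, ← map_mul, ← pow_mul, hM, map_pow RatFunc.C, ← pow_mul,
      mul_two]
  have h2 : σ (vdm y) = vdm y := by
    rcases sq_eq_sq_iff_eq_or_eq_neg.1 h1 with h3 | h3
    · rw [h3]
      exact σ.commutes _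
    · rw [h3, map_neg]
      congr 1
      exact σ.commutes _
  have h3 := vdm_perm (σ : L →+* L) (rho hinj hG σ) (fun i => rho_spec hinj hG σ i)
  have h4 : (σ : L →+* L) (vdm y) = vdm y := h2
  rw [h4] at h3
  rcases Int.units_eq_one_or (Equiv.Perm.sign (rho hinj hG σ)) with h5 | h5
  · exact h5
  · exfalso
    rw [h5] at h3
    have h6 : (2 : L) * vdm y = 0 := by
      push_cast at h3
      linear_combination h3
    have h7 : ((2 : ℕ) : L) ≠ 0 := cast_ne_zero_of_lt (p := p) (by norm_num) (by omega)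
    rcases mul_eq_zero.1 h6 with h8 | h8
    · apply h7
      exact_mod_cast h8
    · exact vdm_ne_zero hinj h8

/-- Transitivity and double transitivity. -/
theorem two_trans (h : Roots p e (algebraMap (RatFunc k) L (RatFunc.X ^ N)) y)
    (hinj : Function.Injective y)
    (hG : ∀ (σ : L ≃ₐ[RatFunc k] L) (i : Fin (p + 1)), ∃ j, y j = σ (y i))
    (he : 2 ≤ e) (hep : e < p) (hpN : ¬ p ∣ N)
    {b : Fin (p + 1) ≃ Option (ZMod p)} {m : ℕ}
    (hb : ∀ π, IsAff b m π → ∃ σ, rho hinj hG σ = π) (i j i' j' : Fin (p + 1)) (hij : i ≠ j)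
    (hij' : i' ≠ j') : ∃ g ∈ (rho hinj hG).range, g i = i' ∧ g j = j' := by
  have hp : p.Prime := Fact.out
  -- translations
  have htr : ∀ u v : Fin (p + 1), u ≠ b.symm none → v ≠ b.symm none →
      ∃ σ : L ≃ₐ[RatFunc k] L, rho hinj hG σ (b.symm none) = b.symm none ∧
        rho hinj hG σ u = v := by
    intro u v hu hv
    obtain ⟨s, hs⟩ : ∃ s, b u = some s := Option.ne_none_iff_exists'.1 fun h3 =>
      hu (by rw [← h3, Equiv.symm_apply_apply])
    obtain ⟨t, ht⟩ : ∃ s, b v = some s := Option.ne_none_iff_exists'.1 fun h3 =>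
      hv (by rw [← h3, Equiv.symm_apply_apply])
    have h3 := act_affPerm b 1 (t - s)
    obtain ⟨σ, hσ⟩ := hb (affPerm b 1 (t - s)) ⟨_, _, by simp, h3⟩
    refine ⟨σ, ?_, ?_⟩
    · rw [hσ]
      apply b.injective
      rw [h3.1, Equiv.apply_symm_apply]
    · rw [hσ]
      apply b.injective
      have h4 : u = b.symm (some s) := by rw [← hs, Equiv.symm_apply_apply]
      rw [h4, h3.2, ht]
      simp
  set i0 := b.symm none with hi0
  -- the special root is not fixed
  have hmov : ∃ σ : L ≃ₐ[RatFunc k] L, rho hinj hG σ i0 ≠ i0 := by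
    by_contra hcon
    push Not at hcon
    have h3 : ∀ σ : L ≃ₐ[RatFunc k] L, σ (y i0) = y i0 := fun σ => by
      rw [← rho_spec hinj hG, hcon]
    obtain ⟨β, hβ⟩ := (IsGalois.mem_range_algebraMap_iff_fixed (F := RatFunc k) (y i0)).2 h3
    have he0 : (e : k) ≠ 0 := cast_ne_zero_of_lt (p := p) (by omega) hep
    have he1 : (e : k) - 1 ≠ 0 := cast_sub_one_ne_zero (p := p) he hep
    apply fixed_absurd he0 he1 (by omega) hep hpN β
    apply (algebraMap (RatFunc k) L).injective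
    have h4 := h.root i0
    rw [← hβ] at h4
    simpa using h4
  have htrans : ∀ u, ∃ σ : L ≃ₐ[RatFunc k] L, rho hinj hG σ u = i0 := by
    intro u
    obtain ⟨τ, hτ⟩ := hmov
    by_cases hu : u = i0
    · exact ⟨1, by rw [map_one, hu]; rfl⟩
    · obtain ⟨σ, -, hσ⟩ := htr u (rho hinj hG τ i0) hu hτ
      refine ⟨τ⁻¹ * σ, ?_⟩
      rw [map_mul, Equiv.Perm.mul_apply, hσ, map_inv, Equiv.Perm.inv_eq_iff_eq]
  obtain ⟨σ1, h1⟩ := htrans i
  obtain ⟨σ2, h2⟩ := htrans i'
  have hj : rho hinj hG σ1 j ≠ i0 := fun h3 => hij ((rho hinj hG σ1).injective (by rw [h1, h3]))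
  have hj' : rho hinj hG σ2 j' ≠ i0 := fun h3 =>
    hij' ((rho hinj hG σ2).injective (by rw [h2, h3]))
  obtain ⟨σ, h3, h4⟩ := htr _ _ hj hj'
  refine ⟨_, ⟨σ2⁻¹ * (σ * σ1), rfl⟩, ?_, ?_⟩
  · rw [map_mul, map_mul, map_inv, Equiv.Perm.mul_apply, Equiv.Perm.mul_apply, h1, h3,
      Equiv.Perm.inv_eq_iff_eq, h2]
  · rw [map_mul, map_mul, map_inv, Equiv.Perm.mul_apply, Equiv.Perm.mul_apply, h4,
      Equiv.Perm.inv_eq_iff_eq]

end

end Pool.Agent.Y220.IC
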