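import Pool.Agent.Y220.IC.Poly

/-!
# The roots at the finite places
-/

set_option autoImplicit false
set_option linter.unusedSectionVars false

namespace Pool.Agent.Y220.IC

open Polynomial

section aux

variable {Γ : Type} [LinearOrderedCommGroupWithZero Γ] {ι : Type}

theorem all_eq_one {s : Finset ι} {a : ι → Γ} (h : ∀ i ∈ s, a i ≤ 1) (hp : ∏ i ∈ s, a i = 1) :
    ∀ i ∈ s, a i = 1 := (Finset.prod_eq_one_iff_of_le_one' h).1 hp

theorem all_eq {s : Finset ι} {a : ι → Γ} {γ : Γ} (hγ : γ ≠ 0) (h : ∀ i ∈ s, a i ≤ γ)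
    (hp : ∏ i ∈ s, a i = γ ^ s.card) : ∀ i ∈ s, a i = γ := by
  have h1 : ∀ i ∈ s, a i / γ ≤ 1 := fun i hi => by
    rw [div_le_one₀ (zero_lt_iff.2 hγ)]
    exact h i hi
  have h2 : ∏ i ∈ s, a i / γ = 1 := by
    rw [Finset.prod_div_distrib, hp, Finset.prod_const, div_self (pow_ne_zero _ hγ)]
  intro i hi
  have h3 := all_eq_one h1 h2 i hi
  rwa [div_eq_one_iff_eq hγ] at h3

theorem card_eq [Fintype ι] {S : Finset ι} {a : ι → Γ} {γ : Γ} (hγ : γ ≠ 0) (hγ1 : γ < 1)
    (h1 : ∀ i ∈ S, a i = γ) (h2 : ∀ i ∉ S, a i = 1) {n : ℕ} (hp : ∏ i, a i = γ ^ n) :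
    S.card = n := by
  classical
  have h3 : ∏ i, a i = γ ^ S.card := by
    rw [← Finset.prod_subset (Finset.subset_univ S) (fun i _ hi => h2 i hi),
      Finset.prod_congr rfl h1, Finset.prod_const]
  rw [h3] at hp
  exact (pow_right_strictAnti₀ (zero_lt_iff.2 hγ) hγ1).injective hp

end aux

section

variable {L : Type} [Field L] {p e : ℕ} [Fact p.Prime] [CharP L p] {x : L} {y : Fin (p + 1) → L}
  {Γ : Type} [LinearOrderedCommGroupWithZero Γ] (w : Valuation L Γ)

theorem Roots.prod_val (h : Roots p e x y) (h1 : w (e : L) = 1) (h2 : w ((e : L) - 1) = 1)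
    (he : e ≠ 0) : ∏ i, w (y i) = w x := by
  have hp : p ≠ 0 := (Fact.out : p.Prime).ne_zero
  have h3 := congrArg w (h.eval 0)
  rw [mul_zero, zero_sub, zero_pow hp, zero_sub, zero_pow he, sub_zero, neg_mul_neg, map_mul,
    map_mul, h1, h2, one_mul, one_mul, map_prod] at h3
  simp only [zero_sub, Valuation.map_neg] at h3
  exact h3.symm

omit [Fact p.Prime] [CharP L p] in
theorem Roots.prod_val_one (h : Roots p e x y) (h1 : w (e : L) = 1) :
    ∏ i, w (y i - 1) = w x := by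
  have h3 := congrArg w (h.eval 1)
  have h4 : ((e : L) * 1 - (e - 1)) * (1 ^ p - x) - 1 ^ e = -x := by
    rw [one_pow, one_pow]; ring
  rw [h4, map_mul, h1, one_mul, map_prod, Valuation.map_neg] at h3
  rw [h3]
  exact Finset.prod_congr rfl fun i _ => Valuation.map_sub_swap _ _ _

omit [Fact p.Prime] [CharP L p] in
theorem Roots.prod_val_lam (h : Roots p e x y) (h1 : w (e : L) = 1) (h2 : w ((e : L) - 1) = 1) :
    ∏ i, w ((e : L) * y i - (e - 1)) = 1 := by
  have he0 : (e : L) ≠ 0 := by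
    intro h0
    rw [h0, map_zero] at h1
    exact zero_ne_one h1
  have h3 := congrArg w (h.eval (((e : L) - 1) / e))
  have h4 : ((e : L) * (((e : L) - 1) / e) - (e - 1)) = 0 := by
    field_simp
    ring
  rw [h4, zero_mul, zero_sub, Valuation.map_neg, map_pow, map_div₀, h1, h2, div_one, one_pow,
    map_mul, h1, one_mul, map_prod] at h3
  rw [h3]
  refine Finset.prod_congr rfl fun i _ => ?_
  have h5 : (e : L) * y i - (e - 1) = -(e * (((e : L) - 1) / e - y i)) := by
    field_simp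
    ring
  rw [h5, Valuation.map_neg, map_mul, h1, one_mul]

theorem Roots.le_one (h : Roots p e x y) (h1 : w (e : L) = 1) (h2 : w ((e : L) - 1) = 1)
    (hep : e < p) (hx : w x ≤ 1) (i : Fin (p + 1)) : w (y i) ≤ 1 := by
  by_contra hcon
  rw [not_le] at hcon
  have hp : p ≠ 0 := (Fact.out : p.Prime).ne_zero
  have h3 := congrArg w (h.root i)
  have h4 : w ((e : L) * y i - (e - 1)) = w (y i) := by
    rw [Valuation.map_sub_eq_of_lt_left]
    · rw [map_mul, h1, one_mul]
    · rw [map_mul, h1, one_mul, h2]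
      exact hcon
  have h5 : w (y i ^ p - x) = w (y i) ^ p := by
    rw [Valuation.map_sub_eq_of_lt_left]
    · rw [map_pow]
    · rw [map_pow]
      exact lt_of_le_of_lt hx (one_lt_pow₀ hcon hp)
  rw [map_mul, h4, h5, map_pow, ← pow_succ'] at h3
  have h6 := (pow_right_strictMono₀ hcon).injective h3
  omega

theorem Roots.lam_val (h : Roots p e x y) (h1 : w (e : L) = 1) (h2 : w ((e : L) - 1) = 1)
    (hep : e < p) (hx : w x ≤ 1) (i : Fin (p + 1)) : w ((e : L) * y i - (e - 1)) = 1 := by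
  refine all_eq_one (s := Finset.univ) (fun j _ => ?_) (h.prod_val_lam w h1 h2) i
    (Finset.mem_univ i)
  refine (Valuation.map_sub _ _ _).trans (max_le ?_ h2.le)
  rw [map_mul, h1, one_mul]
  exact h.le_one w h1 h2 hep hx j

theorem Roots.der_val (h : Roots p e x y) (h1 : w (e : L) = 1) (h2 : w ((e : L) - 1) = 1)
    (he : 1 ≤ e) (hep : e < p) (hx : w x ≤ 1) (i : Fin (p + 1)) :
    ∏ j ∈ Finset.univ.erase i, w (y i - y j) = w (y i) ^ (e - 1) * w (y i - 1) := by
  have h3 := congrArg w (h.der i he)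
  rw [map_mul, map_mul, h1, one_mul, h.lam_val w h1 h2 hep hx, one_mul, Valuation.map_neg,
    map_mul, map_mul, map_mul, map_pow, h1, h2, one_mul, one_mul, map_prod] at h3
  exact h3

theorem Roots.near_zero (h : Roots p e x y) (h1 : w (e : L) = 1) (h2 : w ((e : L) - 1) = 1)
    (he : 2 ≤ e) (hep : e < p) (hx0 : x ≠ 0) (hx : w x ≤ 1) (i : Fin (p + 1))
    (hi : w (y i) < 1) : w (y i) ^ e = w x := by
  have h0 : w (y i) ≠ 0 := (Valuation.ne_zero_iff _).2 (h.ne_zero hx0 he hep i)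
  have h3 := congrArg w (h.root i)
  rw [map_mul, h.lam_val w h1 h2 hep hx, one_mul, map_pow] at h3
  have h4 : w (y i) ^ p < w (y i) ^ e := pow_lt_pow_right_of_lt_one₀ (zero_lt_iff.2 h0) hi hep
  by_cases h5 : w (y i) ^ p < w x
  · rw [Valuation.map_sub_eq_of_lt_right] at h3
    · exact h3.symm
    · rw [map_pow]
      exact h5
  · exfalso
    rw [not_lt] at h5
    have h6 : w (y i ^ p - x) ≤ w (y i) ^ p :=
      (Valuation.map_sub _ _ _).trans (max_le (by rw [map_pow]) h5)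
    rw [h3] at h6
    exact absurd h6 (not_le.2 h4)

theorem binom_aux (hnat : ∀ n : ℕ, w (n : L) ≤ 1) (v : L) (hv : w v ≤ 1) (n : ℕ) :
    ∃ g : L, w g ≤ 1 ∧ 2 * ((1 + v) ^ n - 1 - n * v) = v ^ 2 * (n * (n - 1) + v * g) := by
  induction n with
  | zero => exact ⟨0, by simp, by simp⟩
  | succ n ih =>
    obtain ⟨g, hg, h⟩ := ih
    refine ⟨n * (n - 1) + g + v * g, ?_, ?_⟩
    · have h3 : w ((n : L) * (n - 1)) ≤ 1 := by
        rw [map_mul]
        refine mul_le_one' (hnat n) ((Valuation.map_sub _ _ _).trans (max_le (hnat n) ?_))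
        rw [map_one]
      refine (Valuation.map_add _ _ _).trans (max_le ((Valuation.map_add _ _ _).trans
        (max_le h3 hg)) ?_)
      rw [map_mul]
      exact mul_le_one' hv hg
    · push_cast
      rw [pow_succ]
      linear_combination (1 + v) * h

theorem Roots.near_one (h : Roots p e x y) (hnat : ∀ n : ℕ, w (n : L) ≤ 1)
    (h1 : w (e : L) = 1) (h2 : w ((e : L) - 1) = 1) (h22 : w (2 : L) = 1)
    (he : 2 ≤ e) (hep : e < p) (hx : w x ≤ 1) (i : Fin (p + 1))
    (hi : w (y i - 1) < 1) : w (y i - 1) ^ 2 = w x := by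
  set v := y i - 1 with hv
  have hyi : y i = 1 + v := by rw [hv]; ring
  have hp2 : 2 < p := lt_of_le_of_lt he hep
  obtain ⟨g, hg, hg2⟩ := binom_aux w hnat v hi.le e
  have h3 := h.root i
  have hfr : (1 + v) ^ p = 1 + v ^ p := by
    rw [add_pow_char, one_pow]
  rw [hyi, hfr] at h3
  have h4 := h.lam_val w h1 h2 hep hx i
  rw [hyi] at h4
  -- the equation for x
  have h5 : 2 * (((e : L) * (1 + v) - (e - 1)) * x) =
      2 * ((e : L) * (1 + v) - (e - 1)) * v ^ p - v ^ 2 * (e * (e - 1) + v * g) := by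
    linear_combination (-2) * h3 - hg2
  have h6 : w ((e : L) * (e - 1) + v * g) = 1 := by
    rw [Valuation.map_add_eq_of_lt_left]
    · rw [map_mul, h1, h2, one_mul]
    · rw [map_mul, map_mul, h1, h2, one_mul]
      exact lt_of_le_of_lt (mul_le_of_le_one_right' hg) hi
  have h7 := congrArg w h5
  have hv0 : v ≠ 0 ∨ v = 0 := (em _).symm
  rcases hv0 with hv0 | hv0
  · have hwv : w v ≠ 0 := (Valuation.ne_zero_iff _).2 hv0
    have h8 : w (v ^ p) < w (v ^ 2) := by
      rw [map_pow, map_pow]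
      exact pow_lt_pow_right_of_lt_one₀ (zero_lt_iff.2 hwv) hi hp2
    rw [Valuation.map_sub_eq_of_lt_right, map_mul, map_mul, h22, h4, one_mul, one_mul, map_mul, h6,
      mul_one, map_pow] at h7
    · exact h7.symm
    · rw [map_mul, map_mul, map_mul, h22, h4, h6, one_mul, one_mul, mul_one]
      exact h8
  · rw [hv0] at h7
    have hp : p ≠ 0 := (Fact.out : p.Prime).ne_zero
    have hx0 : x = 0 := by
      rw [hv0, zero_pow hp] at h3
      have e2 : (1 : L) - x = 1 := by
        have : ((e : L) * (1 + 0) - (e - 1)) = 1 := by ring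
        rw [this, one_mul, add_zero, one_pow] at h3
        simpa using h3
      linear_combination -e2
    rw [hv0, hx0]
    simp

theorem Roots.sep_zero (h : Roots p e x y) (h1 : w (e : L) = 1) (h2 : w ((e : L) - 1) = 1)
    (he : 2 ≤ e) (hep : e < p) (hx0 : x ≠ 0) (hx : w x ≤ 1) {i j : Fin (p + 1)} (hij : i ≠ j)
    (hi : w (y i) < 1) (hj : w (y j) < 1) : w (y i - y j) = w (y i) := by
  classical
  set γ := w (y i) with hγ
  have hγ0 : γ ≠ 0 := (Valuation.ne_zero_iff _).2 (h.ne_zero hx0 he hep i)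
  have hle : ∀ l, w (y l) ≤ 1 := h.le_one w h1 h2 hep hx
  have hγe : γ ^ e = w x := h.near_zero w h1 h2 he hep hx0 hx i hi
  have hall : ∀ l, w (y l) < 1 → w (y l) = γ := fun l hl => by
    have h3 := h.near_zero w h1 h2 he hep hx0 hx l hl
    rw [← hγe] at h3
    exact (pow_left_inj₀ zero_le zero_le (by omega)).1 h3
  let S : Finset (Fin (p + 1)) := Finset.univ.filter fun l => w (y l) < 1
  have hS : S.card = e := by
    refine card_eq (a := fun l => w (y l)) hγ0 hi (fun l hl => hall l (Finset.mem_filter.1 hl).2)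
      (fun l hl => ?_) ((h.prod_val w h1 h2 (by omega)).trans hγe.symm)
    refine le_antisymm (hle l) (not_lt.1 fun h3 => hl (Finset.mem_filter.2 ⟨Finset.mem_univ l, h3⟩))
  have hiS : i ∈ S := Finset.mem_filter.2 ⟨Finset.mem_univ i, hi⟩
  have hjS : j ∈ S := Finset.mem_filter.2 ⟨Finset.mem_univ j, hj⟩
  have hfar : ∀ l ∈ Finset.univ.erase i, l ∉ S.erase i → w (y i - y l) = 1 := by
    intro l hl hlS
    have hl1 : l ∉ S := fun h3 => hlS (Finset.mem_erase.2 ⟨(Finset.mem_erase.1 hl).1, h3⟩)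
    have hl2 : w (y l) = 1 := le_antisymm (hle l)
      (not_lt.1 fun h3 => hl1 (Finset.mem_filter.2 ⟨Finset.mem_univ l, h3⟩))
    rw [Valuation.map_sub_eq_of_lt_right]
    · exact hl2
    · rw [hl2]; exact hi
  have h3 := h.der_val w h1 h2 (by omega) hep hx i
  rw [← Finset.prod_subset (Finset.erase_subset_erase i (Finset.subset_univ S)) hfar] at h3
  have h4 : w (y i - 1) = 1 := by
    rw [Valuation.map_sub_eq_of_lt_right]
    · exact map_one w
    · rw [map_one]; exact hi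
  rw [h4, mul_one] at h3
  have h5 : (S.erase i).card = e - 1 := by rw [Finset.card_erase_of_mem hiS, hS]
  rw [← h5] at h3
  refine all_eq hγ0 (fun l hl => ?_) h3 j (Finset.mem_erase.2 ⟨hij.symm, hjS⟩)
  refine (Valuation.map_sub _ _ _).trans (max_le le_rfl ?_)
  rw [hall l (Finset.mem_filter.1 (Finset.mem_erase.1 hl).2).2]

theorem Roots.card_one (h : Roots p e x y) (hnat : ∀ n : ℕ, w (n : L) ≤ 1)
    (h1 : w (e : L) = 1) (h2 : w ((e : L) - 1) = 1) (h22 : w (2 : L) = 1)
    (he : 2 ≤ e) (hep : e < p) (hx0 : x ≠ 0) (hx : w x ≤ 1) {i : Fin (p + 1)}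
    (hi : w (y i - 1) < 1) :
    (∀ l, w (y l - 1) < 1 → w (y l - 1) = w (y i - 1)) ∧
      (Finset.univ.filter fun l => w (y l - 1) < 1).card = 2 := by
  classical
  set γ := w (y i - 1) with hγ
  have hγ0 : γ ≠ 0 := (Valuation.ne_zero_iff _).2 (sub_ne_zero.2 (h.ne_one hx0 i))
  have hle : ∀ l, w (y l - 1) ≤ 1 := fun l =>
    (Valuation.map_sub _ _ _).trans (max_le (h.le_one w h1 h2 hep hx l) (by rw [map_one]))
  have hγe : γ ^ 2 = w x := h.near_one w hnat h1 h2 h22 he hep hx i hi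
  have hall : ∀ l, w (y l - 1) < 1 → w (y l - 1) = γ := fun l hl => by
    have h3 := h.near_one w hnat h1 h2 h22 he hep hx l hl
    rw [← hγe] at h3
    exact (pow_left_inj₀ zero_le zero_le (by omega)).1 h3
  refine ⟨hall, ?_⟩
  refine card_eq (a := fun l => w (y l - 1)) hγ0 hi
      (fun l hl => hall l (Finset.mem_filter.1 hl).2)
      (fun l hl => ?_) ((h.prod_val_one w h1).trans hγe.symm)
  exact le_antisymm (hle l) (not_lt.1 fun h3 => hl (Finset.mem_filter.2 ⟨Finset.mem_univ l, h3⟩))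

theorem Roots.sep_one (h : Roots p e x y) (hnat : ∀ n : ℕ, w (n : L) ≤ 1)
    (h1 : w (e : L) = 1) (h2 : w ((e : L) - 1) = 1) (h22 : w (2 : L) = 1)
    (he : 2 ≤ e) (hep : e < p) (hx0 : x ≠ 0) (hx : w x ≤ 1) {i j : Fin (p + 1)} (hij : i ≠ j)
    (hi : w (y i - 1) < 1) (hj : w (y j - 1) < 1) : w (y i - y j) = w (y i - 1) := by
  classical
  obtain ⟨hall, hS⟩ := h.card_one w hnat h1 h2 h22 he hep hx0 hx hi
  set γ := w (y i - 1) with hγ
  have hγ0 : γ ≠ 0 := (Valuation.ne_zero_iff _).2 (sub_ne_zero.2 (h.ne_one hx0 i))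
  have hle : ∀ l, w (y l - 1) ≤ 1 := fun l =>
    (Valuation.map_sub _ _ _).trans (max_le (h.le_one w h1 h2 hep hx l) (by rw [map_one]))
  set S : Finset (Fin (p + 1)) := Finset.univ.filter fun l => w (y l - 1) < 1 with hSdef
  have hiS : i ∈ S := Finset.mem_filter.2 ⟨Finset.mem_univ i, hi⟩
  have hjS : j ∈ S := Finset.mem_filter.2 ⟨Finset.mem_univ j, hj⟩
  have hsub : ∀ l, y i - y l = (y i - 1) - (y l - 1) := fun l => by ring
  have hfar : ∀ l ∈ Finset.univ.erase i, l ∉ S.erase i → w (y i - y l) = 1 := by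
    intro l hl hlS
    have hl1 : l ∉ S := fun h3 => hlS (Finset.mem_erase.2 ⟨(Finset.mem_erase.1 hl).1, h3⟩)
    have hl2 : w (y l - 1) = 1 := le_antisymm (hle l)
      (not_lt.1 fun h3 => hl1 (Finset.mem_filter.2 ⟨Finset.mem_univ l, h3⟩))
    rw [hsub, Valuation.map_sub_eq_of_lt_right]
    · exact hl2
    · rw [hl2]; exact hi
  have h3 := h.der_val w h1 h2 (by omega) hep hx i
  rw [← Finset.prod_subset (Finset.erase_subset_erase i (Finset.subset_univ S)) hfar] at h3
  have h4 : w (y i) = 1 := by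
    have : y i = (y i - 1) + 1 := by ring
    rw [this, Valuation.map_add_eq_of_lt_right]
    · exact map_one w
    · rw [map_one]; exact hi
  have h5 : (S.erase i).card = 1 := by rw [Finset.card_erase_of_mem hiS, hS]
  rw [h4, one_pow, one_mul] at h3
  have h6 : ∏ l ∈ S.erase i, w (y i - y l) = γ ^ (S.erase i).card := by
    rw [h5, pow_one]
    exact h3
  refine all_eq hγ0 (fun l hl => ?_) h6 j (Finset.mem_erase.2 ⟨hij.symm, hjS⟩)
  rw [hsub]
  refine (Valuation.map_sub _ _ _).trans (max_le le_rfl ?_)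
  rw [hall l (Finset.mem_filter.1 (Finset.mem_erase.1 hl).2).2]

theorem Roots.sep_far (h : Roots p e x y) (h1 : w (e : L) = 1) (h2 : w ((e : L) - 1) = 1)
    (he : 2 ≤ e) (hep : e < p) (hx : w x ≤ 1) {i j : Fin (p + 1)} (hij : i ≠ j)
    (hi : w (y i) = 1) (hi' : w (y i - 1) = 1) : w (y i - y j) = 1 := by
  have hle : ∀ l, w (y l) ≤ 1 := h.le_one w h1 h2 hep hx
  have h3 := h.der_val w h1 h2 (by omega) hep hx i
  rw [hi, hi', one_pow, one_mul] at h3
  exact all_eq_one (fun l _ => (Valuation.map_sub _ _ _).trans (max_le (hle i) (hle l))) h3 j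
    (Finset.mem_erase.2 ⟨hij.symm, Finset.mem_univ j⟩)

end

end Pool.Agent.Y220.IC
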