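import Pool.Agent.Y220.IC.Fin

/-!
# The roots at the infinite place
-/

set_option autoImplicit false
set_option linter.unusedSectionVars false

namespace Pool.Agent.Y220.IC

open Polynomial

section

variable {L : Type} [Field L] {p e : ℕ} [Fact p.Prime] [CharP L p] {x : L} {y : Fin (p + 1) → L}
  {Γ : Type} [LinearOrderedCommGroupWithZero Γ] (w : Valuation L Γ)

theorem Roots.inf_lam_large (h1 : w (e : L) = 1) (h2 : w ((e : L) - 1) = 1)
    (i : Fin (p + 1)) (hi : 1 < w (y i)) : w ((e : L) * y i - (e - 1)) = w (y i) := by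
  rw [Valuation.map_sub_eq_of_lt_left]
  · rw [map_mul, h1, one_mul]
  · rw [map_mul, h1, one_mul, h2]
    exact hi

theorem Roots.inf_large (h : Roots p e x y) (h1 : w (e : L) = 1) (h2 : w ((e : L) - 1) = 1)
    (he : 1 ≤ e) (hep : e < p) (i : Fin (p + 1)) (hi : 1 < w (y i)) : w (y i) ^ p = w x := by
  have h3 := congrArg w (h.root i)
  have h0 : w (y i) ≠ 0 := (zero_lt_one.trans hi).ne'
  rw [map_mul, Roots.inf_lam_large w h1 h2 i hi, map_pow] at h3
  have h4 : w (y i ^ p - x) = w (y i) ^ (e - 1) := by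
    have h5 : w (y i) ^ e = w (y i) * w (y i) ^ (e - 1) := by
      rw [← pow_succ', Nat.sub_add_cancel he]
    rw [h5] at h3
    exact mul_left_cancel₀ h0 h3
  have h6 : w (y i ^ p - x) < w (y i ^ p) := by
    rw [h4, map_pow]
    exact pow_lt_pow_right₀ hi (by omega)
  have h7 : x = y i ^ p - (y i ^ p - x) := by ring
  rw [h7, Valuation.map_sub_eq_of_lt_left _ h6, map_pow]

theorem Roots.inf_small (h : Roots p e x y) (hx : 1 < w x) (i : Fin (p + 1)) (hi : w (y i) ≤ 1) :
    w ((e : L) * y i - (e - 1)) * w x ≤ 1 := by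
  have h3 := congrArg w (h.root i)
  have h4 : w (y i ^ p - x) = w x := by
    rw [Valuation.map_sub_eq_of_lt_right]
    rw [map_pow]
    exact lt_of_le_of_lt (pow_le_one' hi p) hx
  rw [map_mul, h4, map_pow] at h3
  rw [h3]
  exact pow_le_one' hi e

theorem Roots.exists_small (h : Roots p e x y) (h1 : w (e : L) = 1) (h2 : w ((e : L) - 1) = 1) : ∃ i, w (y i) ≤ 1 := by
  by_contra hcon
  push Not at hcon
  have h3 := h.prod_val_lam w h1 h2
  have h4 : 1 < ∏ i, w ((e : L) * y i - (e - 1)) := by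
    have h5 : ∀ i, 1 < w ((e : L) * y i - (e - 1)) := fun i => by
      rw [Roots.inf_lam_large w h1 h2 i (hcon i)]
      exact hcon i
    have h6 : (1 : Γ) = ∏ i : Fin (p + 1), 1 := by simp
    calc (1 : Γ) < w ((e : L) * y 0 - (e - 1)) := h5 0
      _ ≤ w ((e : L) * y 0 - (e - 1)) * ∏ i ∈ Finset.univ.erase 0, w ((e : L) * y i - (e - 1)) :=
        le_mul_of_one_le_right' (Finset.one_le_prod' fun i _ => (h5 i).le)
      _ = _ := Finset.mul_prod_erase _ (fun i => w ((e : L) * y i - (e - 1)))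
          (Finset.mem_univ 0)
  rw [h3] at h4
  exact lt_irrefl _ h4

theorem Roots.small_unique (h : Roots p e x y) (h1 : w (e : L) = 1) (h2 : w ((e : L) - 1) = 1)
    (he : 1 ≤ e) (hep : e < p) (hx : 1 < w x) {i j : Fin (p + 1)} (hi : w (y i) ≤ 1)
    (hj : w (y j) ≤ 1) : i = j := by
  by_contra hij
  have hp : p ≠ 0 := (Fact.out : p.Prime).ne_zero
  have h3 := h.prod_val_lam w h1 h2
  have hx0 : w x ≠ 0 := (zero_lt_one.trans hx).ne'
  -- bound for all factors
  have h4 : ∀ l, w ((e : L) * y l - (e - 1)) ^ p ≤ w x := by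
    intro l
    rcases le_or_gt (w (y l)) 1 with hl | hl
    · have h5 : w ((e : L) * y l - (e - 1)) ≤ 1 := by
        refine (Valuation.map_sub _ _ _).trans (max_le ?_ h2.le)
        rw [map_mul, h1, one_mul]
        exact hl
      exact (pow_le_one' h5 p).trans hx.le
    · rw [Roots.inf_lam_large w h1 h2 l hl, h.inf_large w h1 h2 he hep l hl]
  have h5 : ∀ l, w (y l) ≤ 1 → w ((e : L) * y l - (e - 1)) ^ p ≤ (w x)⁻¹ ^ p := by
    intro l hl
    refine pow_le_pow_left' ?_ p
    rw [← one_div, le_div_iff₀ (zero_lt_iff.2 hx0)]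
    exact h.inf_small w hx l hl
  have h6 : (∏ l, w ((e : L) * y l - (e - 1))) ^ p =
      w ((e : L) * y i - (e - 1)) ^ p * (w ((e : L) * y j - (e - 1)) ^ p *
        ∏ l ∈ (Finset.univ.erase i).erase j, w ((e : L) * y l - (e - 1)) ^ p) := by
    rw [Finset.mul_prod_erase _ (fun l => w ((e : L) * y l - (e - 1)) ^ p)
      (Finset.mem_erase.2 ⟨Ne.symm hij, Finset.mem_univ j⟩),
      Finset.mul_prod_erase _ (fun l => w ((e : L) * y l - (e - 1)) ^ p) (Finset.mem_univ i),
      Finset.prod_pow]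
  have h7 : ∏ l ∈ (Finset.univ.erase i).erase j, w ((e : L) * y l - (e - 1)) ^ p ≤
      w x ^ (p - 1) := by
    have h8 : ((Finset.univ.erase i).erase j).card = p - 1 := by
      rw [Finset.card_erase_of_mem (Finset.mem_erase.2 ⟨Ne.symm hij, Finset.mem_univ j⟩),
        Finset.card_erase_of_mem (Finset.mem_univ i), Finset.card_univ, Fintype.card_fin]
      omega
    rw [← h8]
    exact Finset.prod_le_pow_card _ _ _ fun l _ => h4 l
  have h8 : (1 : Γ) ≤ (w x)⁻¹ ^ p * ((w x)⁻¹ ^ p * w x ^ (p - 1)) := by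
    calc (1 : Γ) = (∏ l, w ((e : L) * y l - (e - 1))) ^ p := by rw [h3, one_pow]
      _ ≤ _ := by
        rw [h6]
        exact mul_le_mul' (h5 i hi) (mul_le_mul' (h5 j hj) h7)
  have h9 : (w x)⁻¹ ^ p * ((w x)⁻¹ ^ p * w x ^ (p - 1)) < 1 := by
    have h10 : (w x)⁻¹ ^ p * w x ^ (p - 1) ≤ 1 := by
      calc (w x)⁻¹ ^ p * w x ^ (p - 1) ≤ (w x)⁻¹ ^ p * w x ^ p :=
            mul_le_mul_right (pow_le_pow_right₀ hx.le (by omega)) _
        _ = 1 := by rw [← mul_pow, inv_mul_cancel₀ hx0, one_pow]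
    refine lt_of_le_of_lt (mul_le_of_le_one_right' h10) ?_
    refine pow_lt_one₀ zero_le ?_ hp
    exact inv_lt_one_of_one_lt₀ hx
  exact absurd h8 (not_le.2 h9)

theorem binom_aux2 (y δ : L) (hδ : w δ ≤ w y) (n : ℕ) :
    ∃ g : L, w g ≤ w y ^ n ∧
      (y + δ) ^ (n + 2) = y ^ (n + 2) + (n + 2) * y ^ (n + 1) * δ + δ ^ 2 * g := by
  induction n with
  | zero => exact ⟨1, by simp, by ring⟩
  | succ n ih =>
    obtain ⟨g, hg, h⟩ := ih
    have hn : w ((n : L) + 2) ≤ 1 := by
      have h3 : ((n : L) + 2) = ((n + 2 : ℕ) : L) := by push_cast; rfl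
      rw [h3]
      induction (n + 2) with
      | zero => simp
      | succ m hm =>
        push_cast
        exact (Valuation.map_add _ _ _).trans (max_le hm (by rw [map_one]))
    refine ⟨(n + 2) * y ^ (n + 1) + g * (y + δ), ?_, ?_⟩
    · refine (Valuation.map_add _ _ _).trans (max_le ?_ ?_)
      · rw [map_mul, map_pow]
        exact mul_le_of_le_one_left' hn
      · rw [map_mul, pow_succ]
        exact mul_le_mul' hg ((Valuation.map_add _ _ _).trans (max_le le_rfl hδ))
    · rw [pow_succ, h]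
      push_cast
      ring

theorem Roots.inf_eq (h : Roots p e x y) (he : 2 ≤ e) {i j : Fin (p + 1)} (hij : y i ≠ y j)
    (hle : w (y j - y i) ≤ w (y i)) : ∃ g : L, w g ≤ w (y i) ^ (e - 2) ∧
      (y j - y i) ^ (p - 1) * (((e : L) * y i - (e - 1)) * ((e : L) * y j - (e - 1))) =
        e * (e - 1) * y i ^ (e - 1) * (y i - 1) +
          ((e : L) * y i - (e - 1)) * (y j - y i) * g := by
  obtain ⟨n, rfl⟩ : ∃ n, e = n + 2 := ⟨e - 2, by omega⟩
  obtain ⟨g, hg, hg2⟩ := binom_aux2 w (y i) (y j - y i) hle n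
  refine ⟨g, hg, ?_⟩
  have hp : 1 ≤ p := (Fact.out : p.Prime).one_lt.le
  have hδ : y j - y i ≠ 0 := sub_ne_zero.2 (Ne.symm hij)
  have h3 := h.root i
  have h4 := h.root j
  have h5 : (y j - y i) ^ p = y j ^ p - y i ^ p := sub_pow_char (R := L) (p := p) _ _
  have h6 : (y j - y i) ^ p = (y j - y i) * (y j - y i) ^ (p - 1) := by
    rw [← pow_succ', Nat.sub_add_cancel hp]
  have h7 : y i + (y j - y i) = y j := by ring
  rw [h7] at hg2
  rw [show n + 2 - 1 = n + 1 by omega]
  apply mul_left_cancel₀ hδ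
  rw [h6] at h5
  push_cast at h3 h4 hg2 ⊢
  linear_combination ((n + 2 : L) * y i - (n + 2 - 1)) * ((n + 2 : L) * y j - (n + 2 - 1)) * h5
    + ((n + 2 : L) * y i - (n + 2 - 1)) * h4 - ((n + 2 : L) * y j - (n + 2 - 1)) * h3
    + ((n + 2 : L) * y i - (n + 2 - 1)) * hg2

/-- the main term -/
def mt (e : ℕ) {L : Type} [Field L] (z : L) : L := e * (e - 1) * z ^ (e - 1) * (z - 1)

theorem mt_val (h1 : w (e : L) = 1) (h2 : w ((e : L) - 1) = 1) (he : 1 ≤ e) (z : L)
    (hz : 1 < w z) : w (mt e z) = w z ^ e := by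
  have h3 : w (z - 1) = w z := by
    rw [Valuation.map_sub_eq_of_lt_left]
    rw [map_one]
    exact hz
  rw [mt, map_mul, map_mul, map_mul, map_pow, h1, h2, h3, one_mul, one_mul, ← pow_succ,
    Nat.sub_add_cancel he]

theorem Roots.inf_diff (h : Roots p e x y) (h1 : w (e : L) = 1) (h2 : w ((e : L) - 1) = 1)
    (he : 2 ≤ e) (hep : e < p) {i j : Fin (p + 1)} (hij : y i ≠ y j)
    (hi : 1 < w (y i)) (hj : 1 < w (y j)) :
    w (y j) = w (y i) ∧ w (y j - y i) < w (y i) ∧
      w (y j - y i) ^ (p - 1) = w (y i) ^ (e - 2) ∧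
      w ((y j - y i) ^ (p - 1) * ((e : L) * y j - (e - 1)) -
        mt e (y i) / ((e : L) * y i - (e - 1))) < w (y i) ^ (e - 1) := by
  have hp : p ≠ 0 := (Fact.out : p.Prime).ne_zero
  have hθ : w (y i) ≠ 0 := (zero_lt_one.trans hi).ne'
  have hθj : w (y j) ≠ 0 := (zero_lt_one.trans hj).ne'
  have h3 : w (y j) = w (y i) := by
    have h4 := (h.inf_large w h1 h2 (by omega) hep j hj).trans
      (h.inf_large w h1 h2 (by omega) hep i hi).symm
    exact (pow_left_inj₀ zero_le zero_le hp).1 h4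
  have hle : w (y j - y i) ≤ w (y i) :=
    (Valuation.map_sub _ _ _).trans (max_le h3.le le_rfl)
  obtain ⟨g, hg, heq⟩ := h.inf_eq w he hij hle
  have hli := Roots.inf_lam_large w h1 h2 i hi
  have hlj := Roots.inf_lam_large w h1 h2 j hj
  have hm : w (e * (e - 1) * y i ^ (e - 1) * (y i - 1)) = w (y i) ^ e :=
    mt_val w h1 h2 (by omega) (y i) hi
  have heq2 := congrArg w heq
  rw [map_mul, map_mul, map_pow, hli, hlj, h3] at heq2
  have hpow : ∀ a : Γ, a * (a * a ^ (e - 2)) = a ^ e := fun a => by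
    rw [← pow_succ', ← pow_succ']
    congr 1
    omega
  have hpow1 : ∀ a : Γ, a * a ^ (e - 2) = a ^ (e - 1) := fun a => by
    rw [← pow_succ']
    congr 1
    omega
  have hlt : w (y j - y i) < w (y i) := by
    by_contra hcon
    rw [not_lt] at hcon
    have h4 := le_antisymm hle hcon
    rw [h4] at heq2
    have h5 : w (y i) ^ (p - 1) * (w (y i) * w (y i)) = w (y i) ^ (p + 1) := by
      rw [← mul_assoc, ← pow_succ, ← pow_succ]
      congr 1
      omega
    rw [h5] at heq2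
    have h6 : w (e * (e - 1) * y i ^ (e - 1) * (y i - 1) +
        ((e : L) * y i - (e - 1)) * (y j - y i) * g) ≤ w (y i) ^ e := by
      refine (Valuation.map_add _ _ _).trans (max_le hm.le ?_)
      rw [map_mul, map_mul, hli, h4, mul_assoc, ← hpow]
      exact mul_le_mul' le_rfl (mul_le_mul' le_rfl hg)
    rw [← heq2] at h6
    have h7 := (pow_le_pow_iff_right₀ hi).1 h6
    omega
  have herr : w (((e : L) * y i - (e - 1)) * (y j - y i) * g) < w (y i) ^ e := by
    rw [map_mul, map_mul, hli, mul_assoc, ← hpow]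
    refine mul_lt_mul_of_pos_left ?_ (zero_lt_iff.2 hθ)
    calc w (y j - y i) * w g ≤ w (y j - y i) * w (y i) ^ (e - 2) := mul_le_mul' le_rfl hg
      _ < _ := mul_lt_mul_of_pos_right hlt (zero_lt_iff.2 (pow_ne_zero _ hθ))
  refine ⟨h3, hlt, ?_, ?_⟩
  · rw [Valuation.map_add_eq_of_lt_left _ (by rw [hm]; exact herr), hm, ← hpow] at heq2
    rw [← mul_assoc, ← mul_assoc, mul_comm, ← mul_assoc, mul_comm] at heq2
    have h8 : (w (y j - y i) ^ (p - 1)) * (w (y i) * w (y i)) =
        w (y i) ^ (e - 2) * (w (y i) * w (y i)) := by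
      calc _ = w (y i) * (w (y i) * w (y j - y i) ^ (p - 1)) := by
            rw [mul_comm, mul_assoc]
        _ = _ := by
            rw [heq2]
            rw [mul_comm, ← mul_assoc]
    exact mul_right_cancel₀ (mul_ne_zero hθ hθ) h8
  · have hl0 : (e : L) * y i - (e - 1) ≠ 0 := by
      intro h0
      rw [h0, map_zero] at hli
      exact hθ hli.symm
    have h5 : (y j - y i) ^ (p - 1) * ((e : L) * y j - (e - 1)) -
        mt e (y i) / ((e : L) * y i - (e - 1)) =
        (((e : L) * y i - (e - 1)) * (y j - y i) * g) / ((e : L) * y i - (e - 1)) := by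
      rw [eq_div_iff hl0, sub_mul, div_mul_cancel₀ _ hl0, mt]
      linear_combination heq
    rw [h5, map_div₀, hli, div_lt_iff₀ (zero_lt_iff.2 hθ), ← pow_succ]
    rwa [Nat.sub_add_cancel (by omega)]

theorem Roots.inf_ratio (h : Roots p e x y) (h1 : w (e : L) = 1) (h2 : w ((e : L) - 1) = 1)
    (he : 2 ≤ e) (hep : e < p) {i j l : Fin (p + 1)} (hij : y i ≠ y j) (hil : y i ≠ y l)
    (hi : 1 < w (y i)) (hj : 1 < w (y j)) (hl : 1 < w (y l)) :
    w (((y j - y i) / (y l - y i)) ^ (p - 1) - 1) < 1 := by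
  obtain ⟨a1, a2, a3, a4⟩ := h.inf_diff w h1 h2 he hep hij hi hj
  obtain ⟨b1, b2, b3, b4⟩ := h.inf_diff w h1 h2 he hep hil hi hl
  have hθ : w (y i) ≠ 0 := (zero_lt_one.trans hi).ne'
  set θ := w (y i) with hθdef
  set lj := (e : L) * y j - (e - 1) with hlj
  set ll := (e : L) * y l - (e - 1) with hll
  have hwlj : w lj = θ := (Roots.inf_lam_large w h1 h2 j hj).trans a1
  have h3 : w (lj - ll) < θ := by
    have : lj - ll = e * ((y j - y i) - (y l - y i)) := by rw [hlj, hll]; ring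
    rw [this, map_mul, h1, one_mul]
    exact lt_of_le_of_lt (Valuation.map_sub _ _ _) (max_lt a2 b2)
  have h4 : w ((y j - y i) ^ (p - 1) * lj - (y l - y i) ^ (p - 1) * ll) < θ ^ (e - 1) := by
    have := lt_of_le_of_lt (Valuation.map_sub w _ _) (max_lt a4 b4)
    simpa using this
  have hpow1 : θ ^ (e - 2) * θ = θ ^ (e - 1) := by
    rw [← pow_succ]
    congr 1
    omega
  have h5 : w (((y j - y i) ^ (p - 1) - (y l - y i) ^ (p - 1)) * lj) < θ ^ (e - 1) := by
    have : ((y j - y i) ^ (p - 1) - (y l - y i) ^ (p - 1)) * lj =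
      ((y j - y i) ^ (p - 1) * lj - (y l - y i) ^ (p - 1) * ll) -
        (y l - y i) ^ (p - 1) * (lj - ll) := by ring
    rw [this]
    refine lt_of_le_of_lt (Valuation.map_sub w _ _) (max_lt h4 ?_)
    rw [map_mul, map_pow, b3, ← hpow1]
    exact mul_lt_mul_of_pos_left h3 (zero_lt_iff.2 (pow_ne_zero _ hθ))
  rw [map_mul, hwlj, ← hpow1] at h5
  have h6 := lt_of_mul_lt_mul_right h5 zero_le
  have h7 : y l - y i ≠ 0 := sub_ne_zero.2 (Ne.symm hil)
  have h8 : ((y j - y i) / (y l - y i)) ^ (p - 1) - 1 =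
      ((y j - y i) ^ (p - 1) - (y l - y i) ^ (p - 1)) / (y l - y i) ^ (p - 1) := by
    rw [div_pow, sub_div, div_self (pow_ne_zero _ h7)]
  rw [h8, map_div₀, map_pow, b3, div_lt_one₀ (zero_lt_iff.2 (pow_ne_zero _ hθ))]
  exact h6

end

end Pool.Agent.Y220.IC
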