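import Mathlib

/-!
# Places of Galois extensions of a field of rational functions

For a finite Galois extension `L` of the fraction field `K` of `k[X]`, `k` algebraically closed, there
is a discrete valuation of `L` over the place `X = 0`, trivial on `k`, with residue field `k`, for
which the order of `X` is the order of the inertia group; every field automorphism of `L` which maps
`k[X]` and the ideal of `X` to itself preserves this valuation after composition with an element of
the Galois group.
-/

set_option autoImplicit false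

namespace Pool.Agent.Y220.IC

open Polynomial IsDedekindDomain WithZero

/-- The inertia group (as a set) of a valuation. -/
def inert (K : Type) {L Γ : Type} [Field K] [Field L] [Algebra K L]
    [LinearOrderedCommGroupWithZero Γ] (w : Valuation L Γ) : Set (L ≃ₐ[K] L) :=
  {σ | ∀ a : L, w a ≤ 1 → w (σ a - a) < 1}

theorem res_aux {k R : Type} [Field k] [IsAlgClosed k] [CommRing R] [IsDomain R]
    (f : k[X] →+* R) (hf : f.IsIntegral) (hX : f X = 0) (r : R) : ∃ c : k, f (C c) = r := by
  let g : k →+* R := f.comp C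
  have hfg : f = g.comp (evalRingHom (0 : k)) := by
    apply Polynomial.ringHom_ext
    · intro a
      simp [g]
    · rw [hX]
      simp
  have hgi : g.IsIntegral := by
    rw [hfg] at hf
    exact RingHom.IsIntegral.tower_top _ _ hf
  let : Algebra k R := g.toAlgebra
  have : Algebra.IsIntegral k R := ⟨hgi⟩
  obtain ⟨c, hc⟩ := (IsAlgClosed.algebraMap_bijective_of_isIntegral (k := k)
    (K := R)).2 r
  exact ⟨c, hc⟩

theorem perfect_aux {k : Type} [Field k] [IsAlgClosed k] (p : Ideal k[X]) [p.IsPrime]
    (hp : p = Ideal.span {X}) : PerfectField p.ResidueField := by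
  have hmax : p.IsMaximal := by
    rw [hp]
    exact PrincipalIdealRing.isMaximal_of_irreducible Polynomial.irreducible_X
  let g : k →+* p.ResidueField := (algebraMap k[X] p.ResidueField).comp C
  let : Algebra k p.ResidueField := g.toAlgebra
  have hs : Function.Surjective (algebraMap k p.ResidueField) := by
    intro x
    obtain ⟨y, hy⟩ := (Ideal.bijective_algebraMap_quotient_residueField p).2 x
    obtain ⟨q, rfl⟩ := Ideal.Quotient.mk_surjective y
    refine ⟨q.eval 0, ?_⟩
    rw [← hy]
    have h1 : Ideal.Quotient.mk p q = Ideal.Quotient.mk p (C (q.eval 0)) := by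
      rw [Ideal.Quotient.eq, hp, Ideal.mem_span_singleton, X_dvd_iff]
      simp [coeff_zero_eq_eval_zero]
    rw [h1]
    rfl
  have : Algebra.IsAlgebraic k p.ResidueField := by
    constructor
    intro x
    obtain ⟨y, rfl⟩ := hs x
    exact isAlgebraic_algebraMap y
  exact Algebra.IsAlgebraic.perfectField k

section AKLB

variable {k K L B : Type} [Field k] [Field K] [Field L] [CommRing B]
  [Algebra k[X] K] [IsFractionRing k[X] K] [Algebra K L] [FiniteDimensional K L] [IsGalois K L]
  [Algebra k[X] L] [IsScalarTower k[X] K L] [Algebra k[X] B] [Algebra B L]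
  [IsScalarTower k[X] B L] [IsIntegralClosure B k[X] L] [IsDedekindDomain B] [IsFractionRing B L]

theorem struct_aux (v : HeightOneSpectrum B) (a : L) : v.valuation L a ≤ 1 ↔
      ∃ b s : B, s ∉ v.asIdeal ∧ a * algebraMap B L s = algebraMap B L b := by
  constructor
  · intro ha
    obtain ⟨n, d, hd⟩ := v.exists_primeCompl_mul_eq_of_integer a ha
    exact ⟨n, d, d.2, hd⟩
  · rintro ⟨b, s, hs, h⟩
    have h1 : v.valuation L (algebraMap B L s) = 1 :=
      le_antisymm (v.valuation_le_one s)
        (not_lt.1 fun h2 => hs ((v.valuation_lt_one_iff_mem s).1 h2))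
    have h2 := congrArg (v.valuation L) h
    rw [map_mul, h1, mul_one] at h2
    rw [h2]
    exact v.valuation_le_one b

omit [IsDedekindDomain B] in
theorem mem_aux (p : Ideal k[X]) (hp : p = Ideal.span {X}) (P : Ideal B) [P.LiesOver p] (q : k[X]) :
    algebraMap k[X] B q ∈ P ↔ X ∣ q := by
  have h1 : q ∈ p ↔ algebraMap k[X] B q ∈ P := by
    rw [Ideal.over_def P p]; rfl
  rw [← h1, hp, Ideal.mem_span_singleton]

theorem residue_aux [IsAlgClosed k] (p : Ideal k[X]) (hp : p = Ideal.span {X})
    (v : HeightOneSpectrum B) [v.asIdeal.LiesOver p] (a : L) (ha : v.valuation L a ≤ 1) :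
    ∃ c : k, v.valuation L (a - algebraMap k[X] L (C c)) < 1 := by
  have hfi : (algebraMap k[X] B).IsIntegral := fun b => IsIntegralClosure.isIntegral k[X] L b
  have hdom : IsDomain (B ⧸ v.asIdeal) := Ideal.Quotient.isDomain v.asIdeal
  obtain ⟨b, hb⟩ := v.exists_valuation_sub_lt_of_integer (K := L) ha 1
  obtain ⟨c, hc⟩ := res_aux ((Ideal.Quotient.mk v.asIdeal).comp (algebraMap k[X] B))
    (RingHom.IsIntegral.trans _ _ hfi
      (RingHom.isIntegral_of_surjective _ Ideal.Quotient.mk_surjective))
    (Ideal.Quotient.eq_zero_iff_mem.2 ((mem_aux p hp v.asIdeal X).2 dvd_rfl))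
    (Ideal.Quotient.mk v.asIdeal b)
  have hc' : b - algebraMap k[X] B (C c) ∈ v.asIdeal := by
    refine Ideal.Quotient.eq.1 ?_
    rw [← hc]; rfl
  refine ⟨c, ?_⟩
  have h1 : a - algebraMap k[X] L (C c) = -(algebraMap B L b - a) +
    algebraMap B L (b - algebraMap k[X] B (C c)) := by
    rw [map_sub, ← IsScalarTower.algebraMap_apply]
    ring
  rw [h1]
  refine lt_of_le_of_lt (Valuation.map_add _ _ _)
    (max_lt ?_ ((v.valuation_lt_one_iff_mem _).2 hc'))
  rw [Valuation.map_neg]
  simpa using hb

theorem inert_aux [IsAlgClosed k] (p : HeightOneSpectrum k[X]) (hp : p.asIdeal = Ideal.span {X})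
    (v : HeightOneSpectrum B) [v.asIdeal.LiesOver p.asIdeal] :
    p.asIdeal.ramificationIdx' v.asIdeal = Nat.card (inert K (v.valuation L)) := by
  let : MulSemiringAction (L ≃ₐ[K] L) B := IsIntegralClosure.MulSemiringAction k[X] K L B
  have : Algebra.IsIntegral k[X] B := ⟨fun b => IsIntegralClosure.isIntegral k[X] L b⟩
  have : IsGaloisGroup (L ≃ₐ[K] L) k[X] B := IsGaloisGroup.of_isFractionRing _ _ _ K L
  have : Module.Finite k[X] B := IsIntegralClosure.finite k[X] K L B
  have hinjKL : Function.Injective (algebraMap K L) := (algebraMap K L).injective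
  have hinjAK : Function.Injective (algebraMap k[X] K) := IsFractionRing.injective k[X] K
  have : FaithfulSMul k[X] B := (faithfulSMul_iff_algebraMap_injective _ _).2 (by
    intro x y hxy
    apply hinjAK
    apply hinjKL
    rw [← IsScalarTower.algebraMap_apply, ← IsScalarTower.algebraMap_apply,
      IsScalarTower.algebraMap_apply k[X] B L, hxy, ← IsScalarTower.algebraMap_apply])
  have : Module.IsTorsionFree k[X] B := by infer_instance
  have : p.asIdeal.IsPrime := p.isPrime
  have : v.asIdeal.IsPrime := v.isPrime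
  have hsm : ∀ (σ : L ≃ₐ[K] L) (b : B), algebraMap B L (σ • b) = σ (algebraMap B L b) :=
    fun σ b => algebraMap_galRestrict_apply k[X] σ b
  have hPF : PerfectField p.asIdeal.ResidueField := perfect_aux _ hp
  have h3 : p.asIdeal.ramificationIdx' v.asIdeal = v.asIdeal.ramificationIdx k[X] :=
    Ideal.ramificationIdx'_eq_ramificationIdx p.asIdeal v.asIdeal p.ne_bot
  have h4 := Ideal.card_inertia_eq_ramificationIdxIn (G := L ≃ₐ[K] L) p.asIdeal v.asIdeal
  rw [Ideal.ramificationIdxIn_eq_ramificationIdx p.asIdeal v.asIdeal (L ≃ₐ[K] L)] at h4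
  rw [h3, ← h4]
  apply Nat.card_congr
  refine Equiv.subtypeEquivRight fun σ => ?_
  rw [AddSubgroup.mem_inertia]
  constructor
  · intro h a ha
    obtain ⟨b, s, hs, hab⟩ := (struct_aux v a).1 ha
    have h' : ∀ x : B, σ • x - x ∈ v.asIdeal := h
    have hσs : σ • s ∉ v.asIdeal := fun h5 => hs (by
      have := v.asIdeal.sub_mem h5 (h' s)
      rwa [sub_sub_cancel] at this)
    have hs1 : v.valuation L (algebraMap B L s) = 1 :=
      v.valuation_eq_one_iff_notMem.2 hs
    have hs2 : v.valuation L (algebraMap B L (σ • s)) = 1 :=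
      v.valuation_eq_one_iff_notMem.2 hσs
    have hσab : σ a * algebraMap B L (σ • s) = algebraMap B L (σ • b) := by
      rw [hsm, hsm, ← map_mul, hab]
    have h6 : (σ a - a) * (algebraMap B L s * algebraMap B L (σ • s)) =
        algebraMap B L ((σ • b - b) * s - b * (σ • s - s)) := by
      rw [map_sub, map_mul, map_mul, map_sub, map_sub, ← hσab, ← hab]
      ring
    have h7 : v.valuation L (algebraMap B L ((σ • b - b) * s - b * (σ • s - s))) < 1 := by
      rw [v.valuation_lt_one_iff_mem]
      exact v.asIdeal.sub_mem (v.asIdeal.mul_mem_right _ (h' b)) (v.asIdeal.mul_mem_left _ (h' s))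
    rw [← h6, map_mul, map_mul, hs1, hs2, mul_one, mul_one] at h7
    exact h7
  · intro h b
    have h5 := h (algebraMap B L b) (v.valuation_le_one b)
    rw [← hsm, ← map_sub, v.valuation_lt_one_iff_mem] at h5
    exact h5

theorem int_aux (hinj : Function.Injective (algebraMap k[X] L)) (γ : L ≃+* L)
    (h1 : ∀ q : k[X], ∃ q' : k[X], γ (algebraMap k[X] L q) = algebraMap k[X] L q') (x : L)
    (hx : IsIntegral k[X] x) : IsIntegral k[X] (γ x) := by
  choose φ hφ using h1
  let Φ : k[X] →+* k[X] :=
    { toFun := φ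
      map_one' := by apply hinj; rw [← hφ]; simp
      map_mul' := fun a b => by apply hinj; rw [← hφ, map_mul, map_mul, map_mul, hφ, hφ]
      map_zero' := by apply hinj; rw [← hφ]; simp
      map_add' := fun a b => by apply hinj; rw [← hφ, map_add, map_add, map_add, hφ, hφ] }
  obtain ⟨m, hm, hmx⟩ := hx
  refine ⟨m.map Φ, hm.map Φ, ?_⟩
  rw [eval₂_map]
  have h2 : (algebraMap k[X] L).comp Φ = (γ : L →+* L).comp (algebraMap k[X] L) := by
    ext q
    · exact (hφ _).symm
    · exact (hφ _).symm
  rw [h2]
  have h3 := hom_eval₂ m (algebraMap k[X] L) (γ : L →+* L) x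
  rw [hmx, map_zero] at h3
  exact h3.symm

theorem conj_aux (p : HeightOneSpectrum k[X]) (hp : p.asIdeal = Ideal.span {X})
    (v : HeightOneSpectrum B) [v.asIdeal.LiesOver p.asIdeal] (γ : L ≃+* L)
    (h1 : ∀ q : k[X], ∃ q' : k[X], γ (algebraMap k[X] L q) = algebraMap k[X] L q')
    (h3 : ∃ u : k[X], γ (algebraMap k[X] L X) = algebraMap k[X] L (u * X)) :
    ∃ g : L ≃ₐ[K] L, ∀ a, v.valuation L (γ (g a)) ≤ 1 ↔ v.valuation L a ≤ 1 := by
  let : MulSemiringAction (L ≃ₐ[K] L) B := IsIntegralClosure.MulSemiringAction k[X] K L B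
  have : Algebra.IsIntegral k[X] B := ⟨fun b => IsIntegralClosure.isIntegral k[X] L b⟩
  have : IsGaloisGroup (L ≃ₐ[K] L) k[X] B := IsGaloisGroup.of_isFractionRing _ _ _ K L
  have hinjKL : Function.Injective (algebraMap K L) := (algebraMap K L).injective
  have hinjAK : Function.Injective (algebraMap k[X] K) := IsFractionRing.injective k[X] K
  have hinj : Function.Injective (algebraMap k[X] L) := by
    rw [IsScalarTower.algebraMap_eq k[X] K L]
    exact hinjKL.comp hinjAK
  have : p.asIdeal.IsPrime := p.isPrime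
  have : v.asIdeal.IsPrime := v.isPrime
  have hsm : ∀ (σ : L ≃ₐ[K] L) (b : B), algebraMap B L (σ • b) = σ (algebraMap B L b) :=
    fun σ b => algebraMap_galRestrict_apply k[X] σ b
  have hγB : ∀ b : B, ∃ b' : B, γ (algebraMap B L b) = algebraMap B L b' := by
    intro b
    have hb : IsIntegral k[X] (algebraMap B L b) := IsIntegralClosure.isIntegral_iff.2 ⟨b, rfl⟩
    obtain ⟨b', hb'⟩ := (IsIntegralClosure.isIntegral_iff (A := B)).1 (int_aux hinj γ h1 _ hb)
    exact ⟨b', hb'.symm⟩
  have hγ1 : ∀ b : B, v.valuation L (γ (algebraMap B L b)) ≤ 1 := by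
    intro b
    obtain ⟨b', hb'⟩ := hγB b
    rw [hb']
    exact v.valuation_le_one b'
  let Q : Ideal B :=
    { carrier := {b | v.valuation L (γ (algebraMap B L b)) < 1}
      add_mem' := fun {a b} ha hb => by
        change v.valuation L (γ (algebraMap B L (a + b))) < 1
        rw [map_add, map_add]
        exact lt_of_le_of_lt (Valuation.map_add _ _ _) (max_lt ha hb)
      zero_mem' := by
        change v.valuation L (γ (algebraMap B L 0)) < 1
        simp
      smul_mem' := fun c x hx => by
        change v.valuation L (γ (algebraMap B L (c * x))) < 1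
        rw [map_mul, map_mul, map_mul]
        exact lt_of_le_of_lt (mul_le_of_le_one_left' (hγ1 c)) hx }
  have hQmem : ∀ b : B, b ∈ Q ↔ v.valuation L (γ (algebraMap B L b)) < 1 := fun b => Iff.rfl
  have hQp : Q.IsPrime := by
    refine ⟨?_, ?_⟩
    · intro h
      have : (1 : B) ∈ Q := by rw [h]; trivial
      rw [hQmem] at this
      simp at this
    · intro a b hab
      rw [hQmem, map_mul, map_mul, map_mul] at hab
      by_contra hcon
      push Not at hcon
      rw [hQmem, hQmem, not_lt, not_lt] at hcon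
      have e1 := le_antisymm (hγ1 a) hcon.1
      have e2 := le_antisymm (hγ1 b) hcon.2
      rw [e1, e2] at hab
      simp at hab
  have hQl : Q.LiesOver p.asIdeal := by
    have hmax : p.asIdeal.IsMaximal := p.isMaximal
    refine ⟨?_⟩
    refine hmax.eq_of_le ?_ ?_
    · intro h
      have : (1 : k[X]) ∈ Q.under k[X] := by rw [h]; trivial
      rw [Ideal.mem_comap, hQmem] at this
      simp at this
    · rw [hp, Ideal.span_le, Set.singleton_subset_iff]
      change (X : k[X]) ∈ Q.under k[X]
      rw [Ideal.mem_comap, hQmem, ← IsScalarTower.algebraMap_apply]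
      obtain ⟨u, hu⟩ := h3
      rw [hu, IsScalarTower.algebraMap_apply k[X] B L, v.valuation_lt_one_iff_mem,
        mem_aux p.asIdeal hp v.asIdeal]
      exact dvd_mul_left _ _
  obtain ⟨g, hg⟩ := Ideal.exists_smul_eq_of_isGaloisGroup p.asIdeal v.asIdeal Q (L ≃ₐ[K] L)
  have hgm : ∀ b : B, v.valuation L (γ (g (algebraMap B L b))) < 1 ↔ b ∈ v.asIdeal := by
    intro b
    rw [← hsm, ← hQmem, ← hg]
    exact Ideal.smul_mem_pointwise_smul_iff
  have hg1 : ∀ b : B, v.valuation L (γ (g (algebraMap B L b))) ≤ 1 := by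
    intro b
    rw [← hsm]
    exact hγ1 _
  have hg2 : ∀ s : B, s ∉ v.asIdeal → v.valuation L (γ (g (algebraMap B L s))) = 1 := fun s hs =>
    le_antisymm (hg1 s) (not_lt.1 fun h => hs ((hgm s).1 h))
  refine ⟨g, fun a => ⟨fun h => ?_, fun h => ?_⟩⟩
  · by_contra hcon
    rw [not_le] at hcon
    have ha0 : a ≠ 0 := by
      rintro rfl
      simp at hcon
    have h4 : v.valuation L a⁻¹ < 1 := by
      rw [map_inv₀]
      exact inv_lt_one_of_one_lt₀ hcon
    obtain ⟨b, s, hs, hab⟩ := (struct_aux v a⁻¹).1 h4.le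
    have hs1 : v.valuation L (algebraMap B L s) = 1 :=
      v.valuation_eq_one_iff_notMem.2 hs
    have h5 := congrArg (v.valuation L) hab
    rw [map_mul, hs1, mul_one] at h5
    rw [h5, v.valuation_lt_one_iff_mem] at h4
    have h6 := congrArg (fun x => v.valuation L (γ (g x))) hab
    simp only [map_mul, hg2 s hs, mul_one, map_inv₀] at h6
    have h7 := (hgm b).2 h4
    rw [← h6] at h7
    have h8 : 1 < v.valuation L (γ (g a)) := by
      rwa [inv_lt_one₀] at h7
      rw [zero_lt_iff, Valuation.ne_zero_iff]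
      simpa using ha0
    exact absurd h (not_le.2 h8)
  · obtain ⟨b, s, hs, hab⟩ := (struct_aux v a).1 h
    have h6 := congrArg (fun x => v.valuation L (γ (g x))) hab
    simp only [map_mul, hg2 s hs, mul_one] at h6
    rw [h6]
    exact hg1 b

end AKLB

/-- There is a discrete valuation of `L` over the place `X = 0`. -/
theorem exists_place {k : Type} (K L : Type) [Field k] [IsAlgClosed k] [Field K] [Field L]
    [Algebra k[X] K] [IsFractionRing k[X] K] [Algebra K L] [FiniteDimensional K L]
    [IsGalois K L] :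
    ∃ w : Valuation L ℤᵐ⁰,
      (∀ c : k, c ≠ 0 → w (algebraMap K L (algebraMap k[X] K (C c))) = 1) ∧
      (∀ a : L, w a ≤ 1 → ∃ c : k, w (a - algebraMap K L (algebraMap k[X] K (C c))) < 1) ∧
      w (algebraMap K L (algebraMap k[X] K X)) = exp (-(Nat.card (inert K w) : ℤ)) ∧
      ∀ γ : L ≃+* L,
        (∀ q : k[X], ∃ q' : k[X], γ (algebraMap K L (algebraMap k[X] K q)) =
          algebraMap K L (algebraMap k[X] K q')) →
        (∃ u : k[X], γ (algebraMap K L (algebraMap k[X] K X)) =
          algebraMap K L (algebraMap k[X] K (u * X))) →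
        ∃ g : L ≃ₐ[K] L, ∀ a, w (γ (g a)) ≤ 1 ↔ w a ≤ 1 := by
  let : Algebra k[X] L := ((algebraMap K L).comp (algebraMap k[X] K)).toAlgebra
  have : IsScalarTower k[X] K L := IsScalarTower.of_algebraMap_eq' rfl
  let B := integralClosure k[X] L
  have hBD : IsDedekindDomain B := integralClosure.isDedekindDomain k[X] K L
  have : IsFractionRing B L := integralClosure.isFractionRing_of_finite_extension K L
  have hinj : Function.Injective (algebraMap k[X] L) :=
    (algebraMap K L).injective.comp (IsFractionRing.injective k[X] K)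
  have : FaithfulSMul k[X] B := (faithfulSMul_iff_algebraMap_injective _ _).2 (by
    intro x y hxy
    exact hinj (congrArg (algebraMap B L) hxy))
  have : Module.IsTorsionFree k[X] B := by infer_instance
  have : Module.Finite k[X] B := IsIntegralClosure.finite k[X] K L B
  let p : HeightOneSpectrum k[X] := idealX k
  have hp : p.asIdeal = Ideal.span {X} := rfl
  have : p.asIdeal.IsPrime := p.isPrime
  obtain ⟨⟨P, hPp, hPl⟩⟩ : Nonempty (p.asIdeal.primesOver B) := inferInstance
  have hPbot : P ≠ ⊥ := Ideal.ne_bot_of_liesOver_of_ne_bot p.ne_bot P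
  let v : HeightOneSpectrum B := ⟨P, hPp, hPbot⟩
  have : v.asIdeal.LiesOver p.asIdeal := hPl
  refine ⟨v.valuation L, ?_, ?_, ?_, ?_⟩
  · intro c hc
    have h1 : algebraMap K L (algebraMap k[X] K (C c)) =
      algebraMap B L (algebraMap k[X] B (C c)) := rfl
    rw [h1, v.valuation_eq_one_iff_notMem, mem_aux p.asIdeal hp v.asIdeal, X_dvd_iff, coeff_C_zero]
    exact hc
  · exact residue_aux p.asIdeal hp v
  · have h1 : v.valuation L (algebraMap K L (algebraMap k[X] K X)) =
        exp (-1 : ℤ) ^ (p.asIdeal.ramificationIdx' v.asIdeal) := by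
      rw [← HeightOneSpectrum.valuation_liesOver L p v, HeightOneSpectrum.valuation_of_algebraMap]
      congr 1
      exact p.intValuation_singleton Polynomial.X_ne_zero rfl
    rw [h1, ← exp_nsmul, inert_aux (K := K) (L := L) p hp v]
    congr 1
    simp
  · intro γ h1 h3
    exact conj_aux p hp v γ h1 h3

end Pool.Agent.Y220.IC
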