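import Pool.Agent.Y220.IC.Fin

/-!
# The action on the roots, and its sign
-/

set_option autoImplicit false
set_option linter.unusedSectionVars false

namespace Pool.Agent.Y220.IC

open Polynomial

section

variable {L : Type} [Field L] {p e : ℕ} [Fact p.Prime] [CharP L p] {x : L} {y : Fin (p + 1) → L}

theorem Roots.exists_image (h : Roots p e x y) (he0 : (e : L) ≠ 0) (σ : L →+* L) (hσ : σ x = x)
    (i : Fin (p + 1)) : ∃ j, y j = σ (y i) := by
  have h1 := h.eval (σ (y i))
  have h2 := congrArg σ (h.root i)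
  simp only [map_mul, map_sub, map_pow, map_natCast, map_one, hσ] at h2
  rw [h2, sub_self, eq_comm, mul_eq_zero] at h1
  rcases h1 with h1 | h1
  · exact absurd h1 he0
  · obtain ⟨j, -, hj⟩ := Finset.prod_eq_zero_iff.1 h1
    exact ⟨j, (sub_eq_zero.1 hj).symm⟩

/-- the permutation of the roots given by an automorphism -/
noncomputable def permOf (y : Fin (p + 1) → L) (hinj : Function.Injective y) (σ : L ≃+* L)
    (hσ : ∀ i, ∃ j, y j = σ (y i)) : Equiv.Perm (Fin (p + 1)) :=
  Equiv.ofBijective (fun i => (hσ i).choose) (Finite.injective_iff_bijective.1 (by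
    intro i j hij
    apply hinj
    apply σ.injective
    rw [← (hσ i).choose_spec, ← (hσ j).choose_spec]
    exact congrArg y hij))

theorem permOf_spec (hinj : Function.Injective y) (σ : L ≃+* L)
    (hσ : ∀ i, ∃ j, y j = σ (y i)) (i : Fin (p + 1)) : y (permOf y hinj σ hσ i) = σ (y i) :=
  (hσ i).choose_spec

/-- the action of the Galois group on the roots -/
noncomputable def rho {K : Type} [Field K] [Algebra K L] (hinj : Function.Injective y)
    (hG : ∀ (σ : L ≃ₐ[K] L) (i : Fin (p + 1)), ∃ j, y j = σ (y i)) :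
    (L ≃ₐ[K] L) →* Equiv.Perm (Fin (p + 1)) where
  toFun σ := permOf y hinj σ (hG σ)
  map_one' := by
    ext i : 1
    apply hinj
    exact permOf_spec hinj _ (hG 1) i
  map_mul' σ τ := by
    ext i : 1
    apply hinj
    refine (permOf_spec hinj _ (hG (σ * τ)) i).trans ?_
    refine Eq.trans ?_ (permOf_spec hinj _ (hG σ) _).symm
    exact congrArg σ (permOf_spec hinj τ.toRingEquiv (hG τ) i).symm

theorem rho_spec {K : Type} [Field K] [Algebra K L] (hinj : Function.Injective y)
    (hG : ∀ (σ : L ≃ₐ[K] L) (i : Fin (p + 1)), ∃ j, y j = σ (y i)) (σ : L ≃ₐ[K] L)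
    (i : Fin (p + 1)) : y (rho hinj hG σ i) = σ (y i) :=
  permOf_spec hinj _ (hG σ) i

/-- the Vandermonde determinant -/
noncomputable def vdm (y : Fin (p + 1) → L) : L := (Matrix.vandermonde y).det

theorem vdm_ne_zero (hinj : Function.Injective y) : vdm y ≠ 0 :=
  Matrix.det_vandermonde_ne_zero_iff.2 hinj

theorem vdm_perm (σ : L →+* L) (π : Equiv.Perm (Fin (p + 1))) (h : ∀ i, y (π i) = σ (y i)) :
    σ (vdm y) = (Equiv.Perm.sign π : ℤ) * vdm y := by
  have h1 : σ (vdm y) = (Matrix.vandermonde (fun i => y (π i))).det := by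
    rw [vdm, RingHom.map_det]
    congr 1
    ext i j
    simp [Matrix.vandermonde_apply, h]
  have h2 : Matrix.vandermonde (fun i => y (π i)) = (Matrix.vandermonde y).submatrix π id := by
    ext i j
    simp [Matrix.vandermonde_apply]
  rw [h1, h2, Matrix.det_permute]
  rfl

theorem vdm_sq (y : Fin (p + 1) → L) : ∃ n : ℕ,
    ∏ i, ∏ j ∈ Finset.univ.erase i, (y i - y j) = (-1) ^ n * vdm y ^ 2 := by
  classical
  have h1 : ∀ i : Fin (p + 1), Finset.univ.erase i = Finset.Ioi i ∪ Finset.Iio i := by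
    intro i
    ext j
    simp only [Finset.mem_erase, Finset.mem_univ, and_true, Finset.mem_union, Finset.mem_Ioi,
      Finset.mem_Iio]
    exact ⟨fun h => (lt_or_gt_of_ne h).symm, fun h => h.elim ne_of_gt ne_of_lt⟩
  have h2 : ∀ i : Fin (p + 1), Disjoint (Finset.Ioi i) (Finset.Iio i) := by
    intro i
    rw [Finset.disjoint_left]
    intro j h3 h4
    exact lt_asymm (Finset.mem_Ioi.1 h3) (Finset.mem_Iio.1 h4)
  have hv : vdm y = ∏ i, ∏ j ∈ Finset.Ioi i, (y j - y i) := Matrix.det_vandermonde y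
  have h3 : ∏ i, ∏ j ∈ Finset.Iio i, (y i - y j) = vdm y := by
    rw [hv]
    rw [Finset.prod_comm' (s' := fun j => Finset.Ioi j) (t' := Finset.univ)]
    intro i j
    simp
  have h4 : ∏ i, ∏ j ∈ Finset.Ioi i, (y i - y j) =
      (-1) ^ (∑ i : Fin (p + 1), (Finset.Ioi i).card) * vdm y := by
    rw [hv, ← Finset.prod_pow_eq_pow_sum, ← Finset.prod_mul_distrib]
    refine Finset.prod_congr rfl fun i _ => ?_
    rw [← Finset.prod_const, ← Finset.prod_mul_distrib]
    exact Finset.prod_congr rfl fun j _ => by ring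
  refine ⟨∑ i : Fin (p + 1), (Finset.Ioi i).card, ?_⟩
  calc ∏ i, ∏ j ∈ Finset.univ.erase i, (y i - y j)
      = ∏ i, ((∏ j ∈ Finset.Ioi i, (y i - y j)) * ∏ j ∈ Finset.Iio i, (y i - y j)) := by
        refine Finset.prod_congr rfl fun i _ => ?_
        rw [h1 i, Finset.prod_union (h2 i)]
    _ = _ := by
        rw [Finset.prod_mul_distrib, h3, h4]
        ring

theorem Roots.disc (h : Roots p e x y) (h2 : 2 ≤ e) (hep : e < p) (hp3 : 3 ≤ p)
    {k : Type} [Field k] (ι : k →+* L) : ∃ κ : k, vdm y ^ 2 = ι κ * x ^ e := by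
  have hp : p.Prime := Fact.out
  have he0 : (e : L) ≠ 0 := cast_ne_zero_of_lt (by omega) hep
  have he1 : ((e : L) - 1) ≠ 0 := cast_sub_one_ne_zero h2 hep
  have heven : Even (p + 1) := (hp.odd_of_ne_two (by omega)).add_one
  obtain ⟨n, hn⟩ := vdm_sq y
  -- the product of the derivatives
  have hA : ∏ i, (e : L) * (((e : L) * y i - (e - 1)) * ∏ j ∈ Finset.univ.erase i, (y i - y j)) =
      ∏ i, -(e * (e - 1) * y i ^ (e - 1) * (y i - 1)) :=
    Finset.prod_congr rfl fun i _ => h.der i (by omega)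
  have hB : ∏ i, y i = (e - 1) / e * x := by
    have h3 := h.eval 0
    have h4 : ∏ i, (0 - y i) = ∏ i, y i := by
      simp only [zero_sub]
      rw [Finset.prod_neg, Finset.card_univ, Fintype.card_fin, heven.neg_one_pow, one_mul]
    rw [h4, mul_zero, zero_sub, zero_pow hp.ne_zero, zero_sub, zero_pow (by omega), sub_zero] at h3
    field_simp
    linear_combination -h3
  have hC : ∏ i, (y i - 1) = -x / e := by
    have h3 := h.eval 1
    have h4 : ∏ i, (1 - y i) = ∏ i, (y i - 1) := by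
      have : ∀ i, 1 - y i = -(y i - 1) := fun i => by ring
      simp only [this]
      rw [Finset.prod_neg, Finset.card_univ, Fintype.card_fin, heven.neg_one_pow, one_mul]
    rw [h4, one_pow, one_pow] at h3
    field_simp
    linear_combination -h3
  have hD : ∏ i, ((e : L) * y i - (e - 1)) = -(e : L) ^ p * ((e - 1) / e) ^ e := by
    have h3 := h.eval (((e : L) - 1) / e)
    have h4 : ((e : L) * (((e : L) - 1) / e) - (e - 1)) = 0 := by
      field_simp
      ring
    rw [h4, zero_mul, zero_sub] at h3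
    have h5 : ∏ i, ((e : L) * y i - (e - 1)) = ∏ i, (-(e : L)) * (((e : L) - 1) / e - y i) := by
      refine Finset.prod_congr rfl fun i _ => ?_
      field_simp
      ring
    rw [h5, Finset.prod_mul_distrib, Finset.prod_const, Finset.card_univ, Fintype.card_fin,
      heven.neg_pow, pow_succ, mul_assoc, ← h3]
    ring
  have hD0 : ∏ i, ((e : L) * y i - (e - 1)) ≠ 0 := by
    rw [hD]
    exact mul_ne_zero (neg_ne_zero.2 (pow_ne_zero _ he0)) (pow_ne_zero _ (div_ne_zero he1 he0))
  rw [Finset.prod_mul_distrib, Finset.prod_mul_distrib, hn] at hA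
  have hE : ∏ i, -((e : L) * (e - 1) * y i ^ (e - 1) * (y i - 1)) =
      ((e : L) * (e - 1)) ^ (p + 1) * (((e - 1) / e * x) ^ (e - 1) * (-x / e)) := by
    rw [Finset.prod_neg, Finset.card_univ, Fintype.card_fin, heven.neg_one_pow, one_mul,
      Finset.prod_mul_distrib, Finset.prod_mul_distrib, Finset.prod_const, Finset.card_univ,
      Fintype.card_fin, Finset.prod_pow, hB, hC]
    ring
  rw [hE, Finset.prod_const, Finset.card_univ, Fintype.card_fin, hD] at hA
  -- the constant
  refine ⟨(-1) ^ n * (((e : k) - 1) ^ (p + 1) * ((((e : k) - 1) / e) ^ (e - 1) * (-1 / e)) /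
    (-(e : k) ^ p * ((e - 1) / e) ^ e)), ?_⟩
  have hx' : x ^ e = x ^ (e - 1) * x := by rw [← pow_succ, Nat.sub_add_cancel (by omega)]
  simp only [map_mul, map_pow, map_neg, map_one, map_div₀, map_sub, map_natCast]
  have hs : ((-1 : L) ^ n) * (-1) ^ n = 1 := by
    rw [← mul_pow]; simp
  have hd : (-(e : L) ^ p * ((e - 1) / e) ^ e) ≠ 0 := by rw [← hD]; exact hD0
  rw [hx']
  have hA' : vdm y ^ 2 * (-(e : L) ^ p * ((e - 1) / e) ^ e) =
      (-1) ^ n * ((e - 1) ^ (p + 1) * (((e - 1) / e) ^ (e - 1) * (-1 / e))) *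
        (x ^ (e - 1) * x) := by
    have hee : (e : L) ^ (p + 1) ≠ 0 := pow_ne_zero _ he0
    apply mul_left_cancel₀ hee
    have h6 := congrArg (fun u => (-1 : L) ^ n * u) hA
    beta_reduce at h6
    rw [mul_pow (e : L) (e - 1) (p + 1), mul_pow ((e - 1) / e : L) x (e - 1)] at h6
    linear_combination h6 - (e : L) ^ (p + 1) * (-(e : L) ^ p * ((e - 1) / e) ^ e) *
      vdm y ^ 2 * hs
  have hfin : ((-1 : L) ^ n * (((e : L) - 1) ^ (p + 1) * ((((e : L) - 1) / e) ^ (e - 1) *
      (-1 / e)) / (-(e : L) ^ p * ((e - 1) / e) ^ e))) * (x ^ (e - 1) * x) =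
      ((-1) ^ n * ((e - 1) ^ (p + 1) * (((e - 1) / e) ^ (e - 1) * (-1 / e))) *
        (x ^ (e - 1) * x)) / (-(e : L) ^ p * ((e - 1) / e) ^ e) := by ring
  rw [hfin, eq_div_iff hd]
  exact hA'

end

end Pool.Agent.Y220.IC
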