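import Pool.Agent.Y220.IC.Inf
import Pool.Agent.Y220.IC.Sgn
import Pool.Agent.Y220.IC.Place
import Pool.Agent.Y220.IC.Aff

/-!
# The inertia group at the infinite place
-/

set_option autoImplicit false
set_option linter.unusedSectionVars false

namespace Pool.Agent.Y220.IC

open Polynomial

section

variable {L : Type} [Field L] {p e : ℕ} [Fact p.Prime] [CharP L p] {x : L} {y : Fin (p + 1) → L}
  {Γ : Type} [LinearOrderedCommGroupWithZero Γ] (w : Valuation L Γ)

/-- the prime field inside `L` -/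
def tm (p : ℕ) (L : Type) [Field L] [CharP L p] : ZMod p →+* L := ZMod.castHom (dvd_refl p) L

theorem prod_tm (u : L) : ∏ t : ZMod p, (u - tm p L t) = u ^ p - u := by
  have hp : p.Prime := Fact.out
  have h1 : (X ^ p - X : (ZMod p)[X]) = ∏ t : ZMod p, (X - C t) := by
    have h2 := FiniteField.roots_X_pow_card_sub_X (ZMod p)
    rw [ZMod.card] at h2
    have h3 : (X ^ p - X : (ZMod p)[X]).Monic := by
      apply Polynomial.monic_X_pow_sub
      rw [degree_X]
      exact_mod_cast hp.one_lt
    have h4 := Polynomial.prod_multiset_X_sub_C_of_monic_of_roots_card_eq h3 (by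
      rw [h2, FiniteField.X_pow_card_sub_X_natDegree_eq (ZMod p) hp.one_lt]
      simp [ZMod.card])
    rw [h2] at h4
    exact h4.symm
  have h2 := congrArg (Polynomial.eval₂ (tm p L) u) h1
  rw [eval₂_finsetProd] at h2
  simp only [eval₂_sub, eval₂_X, eval₂_C, eval₂_X_pow] at h2
  exact h2.symm

/-- Separation of the elements of the prime field by a valuation. -/
theorem tm_eq (hτ : ∀ t : ZMod p, t ≠ 0 → w (tm p L t) = 1) {s t : ZMod p}
    (h : w (tm p L s - tm p L t) < 1) : s = t := by
  by_contra hst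
  rw [← map_sub, hτ _ (sub_ne_zero.2 hst)] at h
  exact lt_irrefl _ h

theorem tm_le (hτ : ∀ t : ZMod p, t ≠ 0 → w (tm p L t) = 1) (t : ZMod p) : w (tm p L t) ≤ 1 := by
  by_cases ht : t = 0
  · rw [ht, map_zero, map_zero]
    exact zero_le
  · exact (hτ t ht).le

theorem exists_tm (u : L) (hu : w (u ^ p - u) < 1) : ∃ t : ZMod p, w (u - tm p L t) < 1 := by
  by_contra hcon
  push Not at hcon
  rw [← prod_tm, map_prod] at hu
  exact absurd hu (not_lt.2 (Finset.one_le_prod' fun t _ => hcon t))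

theorem exists_label (h : Roots p e x y) (h1 : w (e : L) = 1) (h2 : w ((e : L) - 1) = 1)
    (he : 2 ≤ e) (hep : e < p) (hx : 1 < w x) (hinj : Function.Injective y)
    (hτ : ∀ t : ZMod p, t ≠ 0 → w (tm p L t) = 1) :
    ∃ (b : Fin (p + 1) ≃ Option (ZMod p)) (i1 i2 : Fin (p + 1)), i1 ≠ i2 ∧ b i1 = some 0 ∧
      b i2 = some 1 ∧ w (y (b.symm none)) ≤ 1 ∧ (∀ t, 1 < w (y (b.symm (some t)))) ∧
      ∀ i t, b i = some t → w ((y i - y i1) / (y i2 - y i1) - tm p L t) < 1 := by
  classical
  have hp : p.Prime := Fact.out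
  obtain ⟨i0, hi0⟩ := h.exists_small w h1 h2
  have hlarge : ∀ i, i ≠ i0 → 1 < w (y i) := fun i hi => by
    by_contra hcon
    exact hi (h.small_unique w h1 h2 (by omega) hep hx (not_lt.1 hcon) hi0)
  -- two large roots
  obtain ⟨i1, hi1⟩ : ∃ i1, i1 ≠ i0 := by
    have : Nontrivial (Fin (p + 1)) := Fin.nontrivial_iff_two_le.2 (by have := hp.two_le; omega)
    exact exists_ne i0
  obtain ⟨i2, hi2⟩ : ∃ i2, i2 ∉ ({i0, i1} : Finset (Fin (p + 1))) := by
    by_contra hcon
    push Not at hcon
    have h3 : (Finset.univ : Finset (Fin (p + 1))).card ≤ ({i0, i1} : Finset (Fin (p + 1))).card :=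
      Finset.card_le_card fun i _ => hcon i
    rw [Finset.card_univ, Fintype.card_fin] at h3
    have := Finset.card_le_two (a := i0) (b := i1)
    have := hp.two_le
    omega
  simp only [Finset.mem_insert, Finset.mem_singleton, not_or] at hi2
  have h12 : y i1 ≠ y i2 := fun h3 => hi2.2 (hinj h3.symm)
  set δ := y i2 - y i1 with hδ
  have hδ0 : δ ≠ 0 := sub_ne_zero.2 (Ne.symm h12)
  have hwδ : w δ ≠ 0 := (Valuation.ne_zero_iff _).2 hδ0
  obtain ⟨-, -, hδp, -⟩ := h.inf_diff w h1 h2 he hep h12 (hlarge i1 hi1) (hlarge i2 hi2.1)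
  -- all differences have the same value
  have hdiff : ∀ i j, i ≠ i0 → j ≠ i0 → i ≠ j → w (y i - y j) = w δ := by
    intro i j hi hj hij
    obtain ⟨-, -, h3, -⟩ := h.inf_diff w h1 h2 he hep (fun h3 => hij (hinj h3.symm))
      (hlarge j hj) (hlarge i hi)
    have h4 : w (y j) = w (y i1) := by
      have h5 := (h.inf_large w h1 h2 (by omega) hep j (hlarge j hj)).trans
        (h.inf_large w h1 h2 (by omega) hep i1 (hlarge i1 hi1)).symm
      exact (pow_left_inj₀ zero_le zero_le hp.ne_zero).1 h5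
    rw [h4, ← hδp] at h3
    exact (pow_left_inj₀ zero_le zero_le (by have := hp.two_le; omega)).1 h3
  -- labels
  have hlab : ∀ i, i ≠ i0 → ∃ t : ZMod p, w ((y i - y i1) / δ - tm p L t) < 1 := by
    intro i hi
    apply exists_tm
    by_cases hii : i = i1
    · rw [hii, sub_self, zero_div, zero_pow hp.ne_zero, sub_self, map_zero]
      exact zero_lt_one
    · have h3 := h.inf_ratio w h1 h2 he hep (i := i1) (j := i) (l := i2)
        (fun h4 => hii (hinj h4.symm)) h12 (hlarge i1 hi1) (hlarge i hi) (hlarge i2 hi2.1)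
      have h4 : ((y i - y i1) / δ) ^ p - (y i - y i1) / δ =
          (y i - y i1) / δ * (((y i - y i1) / δ) ^ (p - 1) - 1) := by
        rw [mul_sub, ← pow_succ', Nat.sub_add_cancel hp.one_lt.le, mul_one]
      rw [h4, map_mul, map_div₀, hdiff i i1 hi hi1 hii, div_self hwδ, one_mul]
      exact h3
  choose lab hlab using hlab
  let f : Fin (p + 1) → Option (ZMod p) := fun i => if hi : i = i0 then none else some (lab i hi)
  have hf0 : f i0 = none := dif_pos rfl
  have hf1 : ∀ i (hi : i ≠ i0), f i = some (lab i hi) := fun i hi => dif_neg hi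
  have hfinj : Function.Injective f := by
    intro i j hij
    by_cases hi : i = i0
    · by_cases hj : j = i0
      · rw [hi, hj]
      · rw [hi, hf0, hf1 j hj] at hij
        exact absurd hij (by simp)
    · by_cases hj : j = i0
      · rw [hj, hf0, hf1 i hi] at hij
        exact absurd hij (by simp)
      · rw [hf1 i hi, hf1 j hj, Option.some_inj] at hij
        by_contra hne
        have h3 := hlab i hi
        have h4 := hlab j hj
        rw [← hij] at h4
        have h5 := lt_of_le_of_lt (Valuation.map_sub w _ _) (max_lt h3 h4)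
        have h6 : (y i - y i1) / δ - tm p L (lab i hi) - ((y j - y i1) / δ - tm p L (lab i hi)) =
          (y i - y j) / δ := by ring
        rw [h6, map_div₀, hdiff i j hi hj hne, div_self hwδ] at h5
        exact lt_irrefl _ h5
  have hfb : Function.Bijective f := by
    rw [Fintype.bijective_iff_injective_and_card]
    refine ⟨hfinj, ?_⟩
    simp [ZMod.card]
  have hl1 : lab i1 hi1 = 0 := by
    refine tm_eq w hτ ?_
    have h3 := hlab i1 hi1
    rw [sub_self, zero_div, zero_sub, Valuation.map_neg] at h3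
    rw [map_zero, sub_zero]
    exact h3
  have hl2 : lab i2 hi2.1 = 1 := by
    refine tm_eq w hτ ?_
    have h3 := hlab i2 hi2.1
    rw [← hδ, div_self hδ0, ← Valuation.map_neg, neg_sub] at h3
    rw [map_one]
    exact h3
  let b := Equiv.ofBijective f hfb
  have hb : ∀ i, b i = f i := fun i => rfl
  have hb0 : b.symm none = i0 := by
    rw [Equiv.symm_apply_eq, hb, hf0]
  refine ⟨b, i1, i2, fun h3 => hi2.2 h3.symm, ?_, ?_, ?_, ?_, ?_⟩
  · rw [hb, hf1 i1 hi1, hl1]
  · rw [hb, hf1 i2 hi2.1, hl2]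
  · rw [hb0]
    exact hi0
  · intro t
    apply hlarge
    rw [← hb0]
    intro h3
    have := b.symm.injective h3
    simp at this
  · intro i t hit
    have hi : i ≠ i0 := by
      rintro rfl
      rw [hb, hf0] at hit
      exact absurd hit (by simp)
    rw [hb, hf1 i hi, Option.some_inj] at hit
    rw [← hit]
    exact hlab i hi

variable {K : Type} [Field K] [Algebra K L]

theorem act_of_inert (h1 : w (e : L) = 1) (hinj : Function.Injective y)
    (hG : ∀ (σ : L ≃ₐ[K] L) (i : Fin (p + 1)), ∃ j, y j = σ (y i))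
    (hτ : ∀ t : ZMod p, t ≠ 0 → w (tm p L t) = 1)
    {b : Fin (p + 1) ≃ Option (ZMod p)} {i1 i2 : Fin (p + 1)} (h12 : i1 ≠ i2)
    (hb1 : b i1 = some 0) (hb2 : b i2 = some 1)
    (hb0 : w (y (b.symm none)) ≤ 1) (hbl : ∀ t, 1 < w (y (b.symm (some t))))
    (hlab : ∀ i t, b i = some t → w ((y i - y i1) / (y i2 - y i1) - tm p L t) < 1)
    {σ : L ≃ₐ[K] L} (hσ : σ ∈ inert K w) :
    ∃ a c, Act b (rho hinj hG σ) a c ∧
      w (σ (y i2 - y i1) / (y i2 - y i1) - tm p L a) < 1 := by
  have hspec := rho_spec hinj hG σ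
  set π := rho hinj hG σ with hπ
  have hδ0 : y i2 - y i1 ≠ 0 := sub_ne_zero.2 fun h3 => h12 (hinj h3.symm)
  set δ := y i2 - y i1 with hδ
  have hle : ∀ a, w a ≤ 1 → w (σ a) ≤ 1 := by
    intro a ha
    have h3 : σ a = (σ a - a) + a := by ring
    rw [h3]
    exact (Valuation.map_add _ _ _).trans (max_le (hσ a ha).le ha)
  have hsome : ∀ i, b i ≠ none → ∃ t, b i = some t := fun i hi => Option.ne_none_iff_exists'.1 hi
  have hsmall : ∀ i, w (y i) ≤ 1 → b i = none := by
    intro i hi
    by_contra hcon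
    obtain ⟨t, ht⟩ := hsome i hcon
    have h3 := hbl t
    rw [← ht, Equiv.symm_apply_apply] at h3
    exact absurd hi (not_le.2 h3)
  have h0 : b (π (b.symm none)) = none := by
    apply hsmall
    rw [hspec]
    exact hle _ hb0
  have hne : ∀ i t, b i = some t → ∃ s, b (π i) = some s := by
    intro i t hit
    apply hsome
    intro h3
    rw [← h0] at h3
    have h4 := π.injective (b.injective h3)
    rw [h4, Equiv.apply_symm_apply] at hit
    exact absurd hit (by simp)
  obtain ⟨c, hc⟩ := hne i1 0 hb1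
  obtain ⟨s2, hs2⟩ := hne i2 1 hb2
  have e1 := hlab _ _ hc
  have e2 := hlab _ _ hs2
  have hσδ : σ δ / δ = (y (π i2) - y i1) / δ - (y (π i1) - y i1) / δ := by
    rw [hδ, map_sub, ← hspec, ← hspec]
    ring
  have ha : w (σ δ / δ - tm p L (s2 - c)) < 1 := by
    rw [hσδ, map_sub (tm p L)]
    have h3 : (y (π i2) - y i1) / δ - (y (π i1) - y i1) / δ - (tm p L s2 - tm p L c) =
      ((y (π i2) - y i1) / δ - tm p L s2) - ((y (π i1) - y i1) / δ - tm p L c) := by ring
    rw [h3]
    exact lt_of_le_of_lt (Valuation.map_sub w _ _) (max_lt e2 e1)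
  have hale : w (σ δ / δ) ≤ 1 := by
    have h3 : σ δ / δ = (σ δ / δ - tm p L (s2 - c)) + tm p L (s2 - c) := by ring
    rw [h3]
    exact (Valuation.map_add _ _ _).trans (max_le ha.le (tm_le w hτ _))
  refine ⟨s2 - c, c, ⟨h0, fun t => ?_⟩, ha⟩
  have hit : b (b.symm (some t)) = some t := Equiv.apply_symm_apply _ _
  set i := b.symm (some t) with hi
  obtain ⟨s, hs⟩ := hne i t hit
  rw [hs, Option.some_inj]
  have e3 := hlab _ _ hs
  have e4 := hlab _ _ hit
  have hule : w ((y i - y i1) / δ) ≤ 1 := by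
    have h3 : (y i - y i1) / δ = ((y i - y i1) / δ - tm p L t) + tm p L t := by ring
    rw [h3]
    exact (Valuation.map_add _ _ _).trans (max_le e4.le (tm_le w hτ _))
  have e5 : w (σ ((y i - y i1) / δ) - tm p L t) < 1 := by
    have h3 : σ ((y i - y i1) / δ) - tm p L t =
      (σ ((y i - y i1) / δ) - (y i - y i1) / δ) + ((y i - y i1) / δ - tm p L t) := by ring
    rw [h3]
    exact lt_of_le_of_lt (Valuation.map_add w _ _) (max_lt (hσ _ hule) e4)
  apply tm_eq w hτ
  have hσδ0 : σ δ ≠ 0 := by simpa using hδ0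
  have key : tm p L s - tm p L ((s2 - c) * t + c) =
      -((y (π i) - y i1) / δ - tm p L s) + ((y (π i1) - y i1) / δ - tm p L c) +
        (σ δ / δ - tm p L (s2 - c)) * tm p L t +
        σ δ / δ * (σ ((y i - y i1) / δ) - tm p L t) := by
    have hσu : σ ((y i - y i1) / δ) = (y (π i) - y (π i1)) / σ δ := by
      rw [map_div₀, map_sub σ, ← hspec, ← hspec]
    rw [hσu, map_add (tm p L), map_mul (tm p L)]
    field_simp
    ring
  rw [key]
  refine lt_of_le_of_lt (Valuation.map_add w _ _) (max_lt ?_ ?_)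
  · refine lt_of_le_of_lt (Valuation.map_add w _ _) (max_lt ?_ ?_)
    · refine lt_of_le_of_lt (Valuation.map_add w _ _) (max_lt ?_ e1)
      rw [Valuation.map_neg]
      exact e3
    · rw [map_mul]
      exact lt_of_le_of_lt (mul_le_of_le_one_right' (tm_le w hτ _)) ha
  · rw [map_mul]
    exact lt_of_le_of_lt (mul_le_of_le_one_left' hale) e5

end

end Pool.Agent.Y220.IC
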