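import Pool.Agent.Y220.IC.Facts

/-!
# The main construction
-/

set_option autoImplicit false
set_option linter.unusedSectionVars false

namespace Pool.Agent.Y220.IC

open Polynomial WithZero

section

variable {k L : Type} [Field k] [IsAlgClosed k] [Field L] [Algebra (RatFunc k) L] {p e N : ℕ}
  [Fact p.Prime] [CharP k p] [CharP L p] [FiniteDimensional (RatFunc k) L]
  [IsGalois (RatFunc k) L]
  [IsSplittingField (RatFunc k) L (F p e (RatFunc.X ^ N : RatFunc k))]

theorem norm_mem {y : Fin (p + 1) → L} (hinj : Function.Injective y)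
    (hG : ∀ (σ : L ≃ₐ[RatFunc k] L) (i : Fin (p + 1)), ∃ j, y j = σ (y i))
    (ψ : L ≃+* L) (γ0 : RatFunc k ≃+* RatFunc k)
    (hψ : ∀ a, ψ (algebraMap (RatFunc k) L a) = algebraMap (RatFunc k) L (γ0 a))
    (hψG : ∀ i, ∃ j, y j = ψ (y i)) (g : Equiv.Perm (Fin (p + 1)))
    (hg : g ∈ (rho hinj hG).range) :
    permOf y hinj ψ hψG * g * (permOf y hinj ψ hψG)⁻¹ ∈ (rho hinj hG).range := by
  obtain ⟨σ, rfl⟩ := hg
  have hψs : ∀ a, ψ.symm (algebraMap (RatFunc k) L a) = algebraMap (RatFunc k) L (γ0.symm a) := by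
    intro a
    rw [RingEquiv.symm_apply_eq, hψ, RingEquiv.apply_symm_apply]
  let τ : L ≃ₐ[RatFunc k] L := AlgEquiv.ofRingEquiv (f := (ψ.symm.trans σ.toRingEquiv).trans ψ) (by
    intro a
    change ψ (σ (ψ.symm (algebraMap (RatFunc k) L a))) = algebraMap (RatFunc k) L a
    rw [hψs, σ.commutes, hψ, RingEquiv.apply_symm_apply])
  have hτ : ∀ a, τ a = ψ (σ (ψ.symm a)) := fun a => rfl
  refine ⟨τ, ?_⟩
  ext i : 1
  apply hinj
  rw [rho_spec hinj hG τ, hτ, Equiv.Perm.mul_apply, Equiv.Perm.mul_apply,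
    permOf_spec hinj ψ hψG, rho_spec hinj hG σ]
  congr 2
  rw [RingEquiv.symm_apply_eq, ← permOf_spec hinj ψ hψG]
  congr 1
  rw [← Equiv.Perm.inv_eq_iff_eq]

variable (k L p e N)

/-- The main construction, given an automorphism acting as a transposition. -/
theorem main_of_swap {m d r : ℕ} (hp3 : 3 ≤ p) (he : 2 ≤ e) (hep : e < p) (heN : e ∣ N)
    (h2N : 2 ∣ N) (hN : N = 2 * r * d) (hpm : p - 1 = 2 * d * m)
    (hcop : Nat.Coprime (r * (e - 2)) m) (hpN : Nat.Coprime p N)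
    (hswap : ∀ y : Fin (p + 1) → L, Roots p e (algebraMap (RatFunc k) L (RatFunc.X ^ N)) y →
      ∀ hinj : Function.Injective y,
      ∀ hG : ∀ (σ : L ≃ₐ[RatFunc k] L) (i : Fin (p + 1)), ∃ j, y j = σ (y i),
      ∃ a b : Fin (p + 1), a ≠ b ∧ ∀ g ∈ (rho hinj hG).range,
        Equiv.swap a b * g * (Equiv.swap a b)⁻¹ ∈ (rho hinj hG).range)
    (bI : Fin (p + 1) ≃ Option (ZMod p)) :
    ∃ φ : (L ≃ₐ[RatFunc k] L) ≃* alternatingGroup (Fin (p + 1)),
      (∀ (Γ : Type) (_ : LinearOrderedCommGroupWithZero Γ) (w : Valuation L Γ),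
          (∀ c : k, c ≠ 0 →
            w (algebraMap (RatFunc k) L (algebraMap k (RatFunc k) c)) = 1) →
          w (algebraMap (RatFunc k) L RatFunc.X) ≤ 1 →
          ∀ σ : L ≃ₐ[RatFunc k] L, (∀ a : L, w a ≤ 1 → w (σ a - a) < 1) → σ = 1) ∧
        ∃ (Γ : Type) (_ : LinearOrderedCommGroupWithZero Γ) (w : Valuation L Γ),
          (∀ c : k, c ≠ 0 →
            w (algebraMap (RatFunc k) L (algebraMap k (RatFunc k) c)) = 1) ∧
          1 < w (algebraMap (RatFunc k) L RatFunc.X) ∧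
          ∀ σ : L ≃ₐ[RatFunc k] L,
            (IsAff bI m (φ σ : Equiv.Perm (Fin (p + 1))) ↔
              ∀ a : L, w a ≤ 1 → w (σ a - a) < 1) := by
  have hp : p.Prime := Fact.out
  have he0k : (e : k) ≠ 0 := cast_ne_zero_of_lt (p := p) (by omega) hep
  have he0 : (e : L) ≠ 0 := cast_ne_zero_of_lt (p := p) (by omega) hep
  have hx0 : algebraMap (RatFunc k) L (RatFunc.X ^ N) ≠ 0 := by
    simp [RatFunc.X_ne_zero]
  have hpN' : ¬ p ∣ N := (hp.coprime_iff_not_dvd).1 hpN
  -- the roots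
  have hs : (F p e (algebraMap (RatFunc k) L (RatFunc.X ^ N))).Splits := by
    have := IsSplittingField.splits L (F p e (RatFunc.X ^ N : RatFunc k))
    rwa [F_map] at this
  obtain ⟨y, h⟩ := exists_roots he0 hep hp.two_le hs
  have hinj := h.injective hx0 he hep
  have hG := gal_roots h he0
  have hfaith := rho_inj h he0 hinj hG
  have hNe : Even (N * e) := (even_iff_two_dvd.2 h2N).mul_right e
  have halt := rho_alt h hinj hG he hep hp3 hNe
  -- the infinite place
  obtain ⟨θ, hθ1, hθ2⟩ := exists_equiv_inv (k := k)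
  obtain ⟨w, hw1, hw2, hw3, -⟩ := exists_place_tw (L := L) θ
  simp only [hθ1] at hw1 hw2
  have hwz : w (algebraMap (RatFunc k) L RatFunc.X) =
      exp ((Nat.card (inert (RatFunc k) w) : ℕ) : ℤ) := by
    rw [hθ2, map_inv₀, map_inv₀, exp_neg] at hw3
    exact inv_injective hw3
  have hwe : w (e : L) = 1 := val_nat w hw1 he0k
  have hwe1 : w ((e : L) - 1) = 1 := val_sub_one (p := p) w hw1 he hep
  obtain ⟨b, hb1, hb2⟩ := infD w h hwe hwe1 he hep (map_pow _ _ _) hN hpm hcop hpN hwz hinj hG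
    hfaith (val_tm w hw1)
  have h2t := two_trans h hinj hG he hep hpN' (fun π hπ => by
    obtain ⟨σ, -, hσ⟩ := hb2 π hπ
    exact ⟨σ, hσ⟩)
  -- the full alternating group
  have hle : alternatingGroup (Fin (p + 1)) ≤ (rho hinj hG).range := by
    obtain ⟨i, j, hij, hn⟩ := hswap y h hinj hG
    obtain ⟨l, hl⟩ : ∃ l, l ∉ ({i, j} : Finset (Fin (p + 1))) := by
      by_contra hcon
      push Not at hcon
      have h3 : (Finset.univ : Finset (Fin (p + 1))).card ≤ ({i, j} : Finset (Fin (p + 1))).card :=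
        Finset.card_le_card fun i _ => hcon i
      rw [Finset.card_univ, Fintype.card_fin] at h3
      have := Finset.card_le_two (a := i) (b := j)
      omega
    simp only [Finset.mem_insert, Finset.mem_singleton, not_or] at hl
    exact alt_le (rho hinj hG).range (fun a b c d hab hcd => h2t a b c d hab hcd) hij
      (Ne.symm hl.1) (Ne.symm hl.2) hn
  -- the isomorphism
  set τ : Equiv.Perm (Fin (p + 1)) := b.trans bI.symm with hτ
  have hτalt : ∀ σ, τ * rho hinj hG σ * τ⁻¹ ∈ alternatingGroup (Fin (p + 1)) := fun σ =>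
    (inferInstance : (alternatingGroup (Fin (p + 1))).Normal).conj_mem _ (halt σ) τ
  let φ0 : (L ≃ₐ[RatFunc k] L) →* alternatingGroup (Fin (p + 1)) :=
    ((MulAut.conj τ).toMonoidHom.comp (rho hinj hG)).codRestrict _ hτalt
  have hφ0 : ∀ σ, (φ0 σ : Equiv.Perm (Fin (p + 1))) = τ * rho hinj hG σ * τ⁻¹ := fun σ => rfl
  have hφb : Function.Bijective φ0 := by
    constructor
    · intro σ σ' hσ
      apply hfaith
      have h3 := congrArg (fun u : alternatingGroup (Fin (p + 1)) =>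
        (u : Equiv.Perm (Fin (p + 1)))) hσ
      simp only [hφ0] at h3
      exact mul_left_cancel (mul_right_cancel h3)
    · rintro ⟨π, hπ⟩
      have h3 : τ⁻¹ * π * τ ∈ alternatingGroup (Fin (p + 1)) := by
        have := (inferInstance : (alternatingGroup (Fin (p + 1))).Normal).conj_mem _ hπ τ⁻¹
        rwa [inv_inv] at this
      obtain ⟨σ, hσ⟩ := hle h3
      refine ⟨σ, Subtype.ext ?_⟩
      rw [hφ0, hσ]
      group
  refine ⟨MulEquiv.ofBijective φ0 hφb, ?_, ℤᵐ⁰, inferInstance, w, ?_, ?_, ?_⟩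
  · intro Γ _ v hv1 hv2 σ hσ
    simp only [RatFunc.algebraMap_eq_C] at hv1
    apply faithful h he0 σ
    obtain ⟨n0, hn0⟩ := heN
    obtain ⟨n1, hn1⟩ := h2N
    refine fin_fix v h (val_nat_le v hv1) (val_nat v hv1 he0k)
      (val_sub_one (p := p) v hv1 he hep) ?_ he hep hx0 ?_
      (s0 := algebraMap (RatFunc k) L (RatFunc.X ^ n0))
      (s1 := algebraMap (RatFunc k) L (RatFunc.X ^ n1)) ?_ ?_ σ.toRingEquiv (σ.commutes _)
      (σ.commutes _) hσ (hG σ)
    · have h3 := val_nat v hv1 (n := 2) (cast_ne_zero_of_lt (p := p) (by norm_num) (by omega))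
      exact_mod_cast h3
    · rw [map_pow, map_pow]
      exact pow_le_one' hv2 N
    · rw [← map_pow, ← pow_mul, hn0, mul_comm]
    · rw [← map_pow, ← pow_mul, hn1, mul_comm]
  · intro c hc
    rw [RatFunc.algebraMap_eq_C]
    exact hw1 c hc
  · rw [hwz, ← exp_zero, exp_lt_exp]
    have : Nonempty (inert (RatFunc k) w) := ⟨⟨1, fun a _ => by simp⟩⟩
    have h5 : 0 < Nat.card (inert (RatFunc k) w) := Nat.card_pos
    omega
  · intro σ
    change IsAff bI m (τ * rho hinj hG σ * τ⁻¹) ↔ σ ∈ inert (RatFunc k) w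
    rw [isAff_conj, hb1]

end

end Pool.Agent.Y220.IC
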