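import Mathlib

/-!
# The polynomial `(e U - (e - 1)) (U ^ p - x) - U ^ e` in characteristic `p`
-/

set_option autoImplicit false

namespace Pool.Agent.Y220.IC

open Polynomial

/-- The polynomial whose roots are the `p + 1` values of `U` with `x = U ^ p - U ^ e / (e U - e + 1)`. -/
noncomputable def F (p e : ℕ) {R : Type} [CommRing R] (x : R) : R[X] :=
  (C (e : R) * X - C ((e : R) - 1)) * (X ^ p - C x) - X ^ e

theorem F_map {p e : ℕ} {R S : Type} [CommRing R] [CommRing S] (φ : R →+* S) (x : R) :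
    (F p e x).map φ = F p e (φ x) := by
  simp [F]

/-- `y` lists the roots of the polynomial. -/
structure Roots (p e : ℕ) {L : Type} [Field L] (x : L) (y : Fin (p + 1) → L) : Prop where
  eq : F p e x = C (e : L) * ∏ i, (X - C (y i))

section

variable {L : Type} [Field L] {p e : ℕ} [Fact p.Prime] [CharP L p] {x : L} {y : Fin (p + 1) → L}

omit [Fact p.Prime] [CharP L p] in
theorem Roots.eval (h : Roots p e x y) (U : L) :
    ((e : L) * U - (e - 1)) * (U ^ p - x) - U ^ e = e * ∏ i, (U - y i) := by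
  have h1 := congrArg (Polynomial.eval U) h.eq
  simpa [F, eval_prod] using h1

omit [Fact p.Prime] [CharP L p] in
theorem Roots.root (h : Roots p e x y) (i : Fin (p + 1)) :
    ((e : L) * y i - (e - 1)) * (y i ^ p - x) = y i ^ e := by
  have h1 := h.eval (y i)
  rw [Finset.prod_eq_zero (Finset.mem_univ i) (sub_self _), mul_zero, sub_eq_zero] at h1
  exact h1

omit [Fact p.Prime] in
theorem Roots.der (h : Roots p e x y) (i : Fin (p + 1)) (he : 1 ≤ e) :
    (e : L) * (((e : L) * y i - (e - 1)) * ∏ j ∈ Finset.univ.erase i, (y i - y j)) =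
      -(e * (e - 1) * y i ^ (e - 1) * (y i - 1)) := by
  have h1 := congrArg (fun q => Polynomial.eval (y i) (derivative q)) h.eq
  rw [← Finset.mul_prod_erase Finset.univ _ (Finset.mem_univ i)] at h1
  simp only [F, derivative_sub, derivative_mul, derivative_C, derivative_X, derivative_X_pow,
    eval_add, eval_sub, eval_mul, eval_C, eval_X, eval_pow, zero_mul, zero_add, mul_one, sub_zero,
    CharP.cast_eq_zero, mul_zero, add_zero, one_mul, sub_self, Polynomial.C_0, eval_natCast,
    eval_prod, C_eq_natCast, derivative_natCast, eval_zero] at h1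
  have h2 := h.root i
  have h3 : y i ^ e = y i ^ (e - 1) * y i := by
    rw [← pow_succ, Nat.sub_add_cancel he]
  rw [mul_left_comm, ← h1]
  rw [h3] at h2
  linear_combination (e : L) * h2

omit [Fact p.Prime] in
theorem cast_ne_zero_of_lt {n : ℕ} (h0 : 0 < n) (hn : n < p) : (n : L) ≠ 0 := by
  rw [Ne, CharP.cast_eq_zero_iff L p]
  intro h
  exact absurd (Nat.le_of_dvd h0 h) (not_le.2 hn)

omit [Fact p.Prime] in
theorem cast_sub_one_ne_zero {n : ℕ} (h0 : 2 ≤ n) (hn : n < p) : ((n : L) - 1) ≠ 0 := by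
  have h1 : ((n - 1 : ℕ) : L) ≠ 0 := cast_ne_zero_of_lt (by omega) (by omega)
  rwa [Nat.cast_sub (by omega), Nat.cast_one] at h1

theorem Roots.ne_zero (h : Roots p e x y) (hx : x ≠ 0) (h2 : 2 ≤ e) (hep : e < p)
    (i : Fin (p + 1)) : y i ≠ 0 := by
  intro h0
  have h1 := h.root i
  have hp : p ≠ 0 := (Fact.out : p.Prime).ne_zero
  rw [h0, zero_pow hp, zero_pow (by omega)] at h1
  have h3 : ((e : L) - 1) ≠ 0 := cast_sub_one_ne_zero h2 hep
  rcases mul_eq_zero.1 h1 with h4 | h4
  · apply h3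
    linear_combination -h4
  · apply hx
    linear_combination -h4

omit [Fact p.Prime] [CharP L p] in
theorem Roots.ne_one (h : Roots p e x y) (hx : x ≠ 0) (i : Fin (p + 1)) : y i ≠ 1 := by
  intro h0
  have h1 := h.root i
  rw [h0, one_pow, one_pow] at h1
  apply hx
  linear_combination -h1

theorem Roots.lam_ne_zero (h : Roots p e x y) (hx : x ≠ 0) (h2 : 2 ≤ e) (hep : e < p)
    (i : Fin (p + 1)) : (e : L) * y i - (e - 1) ≠ 0 := by
  intro h0
  have h1 := h.root i
  rw [h0, zero_mul] at h1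
  exact h.ne_zero hx h2 hep i (pow_eq_zero_iff (by omega) |>.1 h1.symm)

theorem Roots.prod_ne_zero (h : Roots p e x y) (hx : x ≠ 0) (h2 : 2 ≤ e) (hep : e < p)
    (i : Fin (p + 1)) : ∏ j ∈ Finset.univ.erase i, (y i - y j) ≠ 0 := by
  have h1 := h.der i (by omega)
  have h3 : (e : L) ≠ 0 := cast_ne_zero_of_lt (by omega) hep
  have h4 : ((e : L) - 1) ≠ 0 := cast_sub_one_ne_zero h2 hep
  have h5 := h.ne_zero hx h2 hep i
  have h6 := sub_ne_zero.2 (h.ne_one hx i)
  intro h0
  rw [h0, mul_zero, mul_zero, eq_comm, neg_eq_zero] at h1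
  exact (mul_ne_zero (mul_ne_zero (mul_ne_zero h3 h4) (pow_ne_zero _ h5)) h6) h1

theorem Roots.injective (h : Roots p e x y) (hx : x ≠ 0) (h2 : 2 ≤ e) (hep : e < p) :
    Function.Injective y := by
  intro i j hij
  by_contra hne
  apply h.prod_ne_zero hx h2 hep i
  exact Finset.prod_eq_zero (Finset.mem_erase.2 ⟨Ne.symm hne, Finset.mem_univ j⟩)
    (sub_eq_zero.2 hij)

end

end Pool.Agent.Y220.IC
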