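import Pool.Agent.Y220.IC.Place

/-!
# Automorphisms of the field of rational functions, and places
-/

set_option autoImplicit false

namespace Pool.Agent.Y220.IC

open Polynomial WithZero

section Aut

variable {k : Type} [Field k]

theorem rat_hom_ext {S : Type} [CommRing S] {f g : RatFunc k →+* S}
    (hC : ∀ c, f (RatFunc.C c) = g (RatFunc.C c)) (hX : f RatFunc.X = g RatFunc.X) : f = g := by
  apply IsLocalization.ringHom_ext (nonZeroDivisors k[X])
  apply Polynomial.ringHom_ext
  · intro c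
    simpa using hC c
  · simpa using hX

theorem exists_hom (α : k →+* k) (u : RatFunc k) (hu : Transcendental k u) :
    ∃ f : RatFunc k →+* RatFunc k, (∀ c, f (RatFunc.C c) = RatFunc.C (α c)) ∧ f RatFunc.X = u := by
  let φ : k[X] →+* RatFunc k := (aeval u : k[X] →ₐ[k] RatFunc k).toRingHom.comp (mapRingHom α)
  have hφ : Function.Injective φ :=
    (transcendental_iff_injective.1 hu).comp (Polynomial.map_injective α α.injective)
  have hφ' : nonZeroDivisors k[X] ≤ (nonZeroDivisors (RatFunc k)).comap φ := by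
    intro q hq
    rw [Submonoid.mem_comap, mem_nonZeroDivisors_iff_ne_zero]
    rw [mem_nonZeroDivisors_iff_ne_zero] at hq
    exact fun h => hq (hφ (by rw [h, map_zero]))
  refine ⟨RatFunc.liftRingHom φ hφ', fun c => ?_, ?_⟩
  · rw [← RatFunc.algebraMap_C, RatFunc.liftRingHom_algebraMap]
    simp [φ, RatFunc.algebraMap_eq_C]
  · rw [← RatFunc.algebraMap_X, RatFunc.liftRingHom_algebraMap]
    simp [φ]

theorem exists_equiv (α : k ≃+* k) (u v : RatFunc k) (hu : Transcendental k u)
    (hv : Transcendental k v)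
    (h1 : ∀ f : RatFunc k →+* RatFunc k, (∀ c, f (RatFunc.C c) = RatFunc.C (α c)) →
      f RatFunc.X = u → f v = RatFunc.X)
    (h2 : ∀ f : RatFunc k →+* RatFunc k, (∀ c, f (RatFunc.C c) = RatFunc.C (α.symm c)) →
      f RatFunc.X = v → f u = RatFunc.X) :
    ∃ f : RatFunc k ≃+* RatFunc k, (∀ c, f (RatFunc.C c) = RatFunc.C (α c)) ∧ f RatFunc.X = u := by
  obtain ⟨f, hf1, hf2⟩ := exists_hom (α : k →+* k) u hu
  obtain ⟨g, hg1, hg2⟩ := exists_hom (α.symm : k →+* k) v hv
  refine ⟨RingEquiv.ofRingHom f g ?_ ?_, hf1, hf2⟩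
  · apply rat_hom_ext
    · intro c
      rw [RingHom.comp_apply, hg1, hf1]
      simp
    · rw [RingHom.comp_apply, hg2]
      exact h1 f hf1 hf2
  · apply rat_hom_ext
    · intro c
      rw [RingHom.comp_apply, hf1, hg1]
      simp
    · rw [RingHom.comp_apply, hf2]
      exact h2 g hg1 hg2

theorem trans_inv : Transcendental k ((RatFunc.X : RatFunc k)⁻¹) := by
  intro h
  apply RatFunc.transcendental_X (K := k)
  have := h.inv
  rwa [inv_inv] at this

theorem trans_aff (a b : k) (ha : a ≠ 0) :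
    Transcendental k (RatFunc.C a * RatFunc.X + RatFunc.C b : RatFunc k) := by
  intro h
  apply RatFunc.transcendental_X (K := k)
  have h1 : (RatFunc.X : RatFunc k) =
      algebraMap k (RatFunc k) a⁻¹ *
        ((RatFunc.C a * RatFunc.X + RatFunc.C b) - algebraMap k (RatFunc k) b) := by
    rw [RatFunc.algebraMap_eq_C, add_sub_cancel_right, ← mul_assoc, ← map_mul,
      inv_mul_cancel₀ ha, map_one, one_mul]
  rw [h1]
  exact (isAlgebraic_algebraMap _).mul (h.sub (isAlgebraic_algebraMap _))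

/-- The automorphism `X ↦ X⁻¹`. -/
theorem exists_equiv_inv : ∃ f : RatFunc k ≃+* RatFunc k,
    (∀ c, f (RatFunc.C c) = RatFunc.C c) ∧ f RatFunc.X = RatFunc.X⁻¹ := by
  refine exists_equiv (RingEquiv.refl k) _ _ trans_inv trans_inv ?_ ?_
  · intro f _ hf
    rw [map_inv₀, hf, inv_inv]
  · intro f _ hf
    rw [map_inv₀, hf, inv_inv]

/-- The automorphism `c ↦ α c`, `X ↦ a X + b`. -/
theorem exists_equiv_aff (α : k ≃+* k) (a b : k) (ha : a ≠ 0) : ∃ f : RatFunc k ≃+* RatFunc k,
    (∀ c, f (RatFunc.C c) = RatFunc.C (α c)) ∧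
      f RatFunc.X = RatFunc.C a * RatFunc.X + RatFunc.C b := by
  have ha' : α.symm a ≠ 0 := by simpa using ha
  refine exists_equiv α _ (RatFunc.C (α.symm a)⁻¹ * RatFunc.X +
    RatFunc.C (-((α.symm a)⁻¹ * α.symm b))) (trans_aff a b ha)
    (trans_aff _ _ (inv_ne_zero ha')) ?_ ?_
  · intro f hfC hf
    rw [map_add, map_mul, hfC, hfC, hf]
    simp only [map_inv₀, map_neg, map_mul, RingEquiv.apply_symm_apply]
    have hC : (RatFunc.C a : RatFunc k) ≠ 0 := by simpa using ha
    field_simp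
    ring
  · intro f hfC hf
    rw [map_add, map_mul, hfC, hfC, hf]
    simp only [map_inv₀, map_neg, map_mul]
    have hC : (RatFunc.C (α.symm a) : RatFunc k) ≠ 0 := by simpa using ha
    field_simp
    ring

end Aut

section Places

theorem frac_tw {R K K' : Type} [CommRing R] [Field K] [Field K'] [Algebra R K]
    [IsFractionRing R K] [Algebra R K'] (θ : K ≃+* K')
    (h : ∀ r, θ (algebraMap R K r) = algebraMap R K' r) : IsFractionRing R K' :=
  IsLocalization.isLocalization_of_algEquiv _ (AlgEquiv.ofRingEquiv h)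

theorem exists_place_tw' {k K K' L : Type} [Field k] [IsAlgClosed k] [Field K] [Algebra k[X] K]
    [IsFractionRing k[X] K] [Field K'] [Field L] [Algebra K' L]
    [FiniteDimensional K' L] [IsGalois K' L] (θ : K ≃+* K') :
    ∃ w : Valuation L ℤᵐ⁰,
      (∀ c : k, c ≠ 0 → w (algebraMap K' L (θ (algebraMap k[X] K (C c)))) = 1) ∧
      (∀ a : L, w a ≤ 1 → ∃ c : k, w (a - algebraMap K' L (θ (algebraMap k[X] K (C c)))) < 1) ∧
      w (algebraMap K' L (θ (algebraMap k[X] K X))) =
        exp (-(Nat.card (inert K' w) : ℤ)) ∧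
      ∀ γ : L ≃+* L, ∀ α : k →+* k, ∀ η : k,
        (∀ c : k, γ (algebraMap K' L (θ (algebraMap k[X] K (C c)))) =
          algebraMap K' L (θ (algebraMap k[X] K (C (α c))))) →
        γ (algebraMap K' L (θ (algebraMap k[X] K X))) =
          algebraMap K' L (θ (algebraMap k[X] K (C η * X))) →
        ∃ g : L ≃ₐ[K'] L, ∀ a, w (γ (g a)) ≤ 1 ↔ w a ≤ 1 := by
  let : Algebra k[X] K' := ((θ : K →+* K').comp (algebraMap k[X] K)).toAlgebra
  have : IsFractionRing k[X] K' := frac_tw θ fun _ => rfl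
  obtain ⟨w, h1, h2, h3, h4⟩ := exists_place (k := k) K' L
  refine ⟨w, h1, h2, h3, fun γ α η hC hX => h4 γ ?_ ⟨C η, hX⟩⟩
  have hθ : ∀ q, algebraMap k[X] K' q = θ (algebraMap k[X] K q) := fun q => rfl
  have h5 : (γ : L →+* L).comp ((algebraMap K' L).comp (algebraMap k[X] K')) =
      ((algebraMap K' L).comp (algebraMap k[X] K')).comp
        ((compRingHom (C η * X)).comp (mapRingHom α)) := by
    apply Polynomial.ringHom_ext
    · intro c
      simpa [hθ] using hC c
    · simpa [hθ] using hX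
  exact fun q => ⟨_, congrArg (fun f : k[X] →+* L => f q) h5⟩

variable {k L : Type} [Field k] [IsAlgClosed k] [Field L] [Algebra (RatFunc k) L]
  [FiniteDimensional (RatFunc k) L] [IsGalois (RatFunc k) L]

/-- There is a discrete valuation of `L` over the place `θ X = 0`. -/
theorem exists_place_tw (θ : RatFunc k ≃+* RatFunc k) :
    ∃ w : Valuation L ℤᵐ⁰,
      (∀ c : k, c ≠ 0 → w (algebraMap (RatFunc k) L (θ (RatFunc.C c))) = 1) ∧
      (∀ a : L, w a ≤ 1 → ∃ c : k, w (a - algebraMap (RatFunc k) L (θ (RatFunc.C c))) < 1) ∧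
      w (algebraMap (RatFunc k) L (θ RatFunc.X)) =
        exp (-(Nat.card (inert (RatFunc k) w) : ℤ)) ∧
      ∀ γ : L ≃+* L, ∀ α : k →+* k, ∀ η : k,
        (∀ c : k, γ (algebraMap (RatFunc k) L (θ (RatFunc.C c))) =
          algebraMap (RatFunc k) L (θ (RatFunc.C (α c)))) →
        γ (algebraMap (RatFunc k) L (θ RatFunc.X)) =
          algebraMap (RatFunc k) L (θ (RatFunc.C η * RatFunc.X)) →
        ∃ g : L ≃ₐ[RatFunc k] L, ∀ a, w (γ (g a)) ≤ 1 ↔ w a ≤ 1 := by
  have := exists_place_tw' (k := k) (K := RatFunc k) (K' := RatFunc k) (L := L) θ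
  simpa only [map_mul, RatFunc.algebraMap_C, RatFunc.algebraMap_X] using this

end Places

end Pool.Agent.Y220.IC
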