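import Pool.Agent.Y220.IC.Poly
import Pool.Agent.Y220.IC.Sgn

/-!
# Listing the roots
-/

set_option autoImplicit false
set_option linter.unusedSectionVars false

namespace Pool.Agent.Y220.IC

open Polynomial

section

variable {R : Type} [CommRing R] {p e : ℕ}

theorem F_eq {x : R} : F p e x = C (e : R) * X ^ (p + 1) + (-(C ((e : R) - 1) * X ^ p) -
    C (e * x) * X + C (((e : R) - 1) * x) - X ^ e) := by
  simp only [F, C_sub, C_1, C_mul]
  ring

theorem F_lower {x : R} (hep : e < p) (hp : 2 ≤ p) :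
    (-(C ((e : R) - 1) * X ^ p) - C (e * x) * X + C (((e : R) - 1) * x) - X ^ e).natDegree ≤ p := by
  have h1 : (C ((e : R) - 1) * X ^ p).natDegree ≤ p := natDegree_C_mul_X_pow_le _ _
  have h2 : (C ((e : R) * x) * X).natDegree ≤ p := (natDegree_C_mul_le _ _).trans (natDegree_X_le.trans (by omega))
  have h3 : (C (((e : R) - 1) * x)).natDegree ≤ p := by rw [natDegree_C]; exact Nat.zero_le _
  have h4 : (X ^ e : R[X]).natDegree ≤ p := (natDegree_X_pow_le _).trans hep.le
  refine (natDegree_sub_le _ _).trans (max_le ?_ h4)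
  refine natDegree_add_le_of_degree_le ?_ h3
  refine (natDegree_sub_le _ _).trans (max_le ?_ h2)
  rw [natDegree_neg]
  exact h1

theorem F_natDegree {x : R} (he0 : (e : R) ≠ 0) (hep : e < p) (hp : 2 ≤ p) :
    (F p e x).natDegree = p + 1 := by
  rw [F_eq, natDegree_add_eq_left_of_natDegree_lt]
  · exact natDegree_C_mul_X_pow _ _ he0
  · rw [natDegree_C_mul_X_pow _ _ he0]
    exact Nat.lt_succ_of_le (F_lower hep hp)

theorem F_leadingCoeff {x : R} (he0 : (e : R) ≠ 0) (hep : e < p) (hp : 2 ≤ p) :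
    (F p e x).leadingCoeff = e := by
  rw [leadingCoeff, F_natDegree he0 hep hp, F_eq, coeff_add, coeff_C_mul_X_pow, if_pos rfl,
    coeff_eq_zero_of_natDegree_lt (Nat.lt_succ_of_le (F_lower hep hp)), add_zero]

end

section

variable {L : Type} [Field L] {p e : ℕ}

theorem exists_roots {x : L} (he0 : (e : L) ≠ 0) (hep : e < p) (hp : 2 ≤ p)
    (hs : (F p e x).Splits) : ∃ y : Fin (p + 1) → L, Roots p e x y := by
  have hc : (F p e x).roots.card = p + 1 := by
    rw [← F_natDegree he0 hep hp (x := x)]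
    exact hs.natDegree_eq_card_roots.symm
  have h1 := hs.eq_prod_roots
  rw [F_leadingCoeff he0 hep hp] at h1
  obtain ⟨l, hl⟩ := Quot.exists_rep (F p e x).roots
  have hl' : ((l : Multiset L)) = (F p e x).roots := hl
  have hlen : l.length = p + 1 := by
    rw [← hc, ← hl', Multiset.coe_card]
  refine ⟨fun i => l.get (i.cast hlen.symm), ⟨?_⟩⟩
  rw [h1, ← hl', Multiset.map_coe, Multiset.prod_coe]
  congr 1
  rw [← Fin.prod_univ_fun_getElem l (fun a => X - C a)]
  exact (Fintype.prod_equiv (finCongr hlen.symm) _ _ fun i => rfl).symm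

theorem Roots.separable {x : L} {y : Fin (p + 1) → L} (h : Roots p e x y)
    (hinj : Function.Injective y) (he0 : (e : L) ≠ 0) : (F p e x).Separable := by
  rw [h.eq]
  refine Separable.unit_mul (isUnit_C.2 (isUnit_iff_ne_zero.2 he0)) ?_
  exact separable_prod_X_sub_C_iff.2 hinj

theorem Roots.exists_eq {x : L} {y : Fin (p + 1) → L} (h : Roots p e x y) (he0 : (e : L) ≠ 0)
    {a : L} (ha : (F p e x).eval a = 0) : ∃ i, y i = a := by
  rw [h.eq, eval_mul, eval_C, mul_eq_zero, eval_prod] at ha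
  rcases ha with ha | ha
  · exact absurd ha he0
  · obtain ⟨i, -, hi⟩ := Finset.prod_eq_zero_iff.1 ha
    rw [eval_sub, eval_X, eval_C] at hi
    exact ⟨i, (sub_eq_zero.1 hi).symm⟩

theorem faithful {K : Type} [Field K] [Algebra K L] {x : K} [IsSplittingField K L (F p e x)]
    {y : Fin (p + 1) → L} (h : Roots p e (algebraMap K L x) y) (he0 : (e : L) ≠ 0)
    (σ : L ≃ₐ[K] L) (hσ : ∀ i, σ (y i) = y i) : σ = 1 := by
  have h1 := IsSplittingField.adjoin_rootSet L (F p e x)
  have h2 : (σ : L →ₐ[K] L) = AlgHom.id K L := by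
    refine AlgHom.ext_of_adjoin_eq_top h1 ?_
    intro a ha
    have h3 := (mem_rootSet.1 ha).2
    rw [aeval_def, ← eval_map, F_map] at h3
    obtain ⟨i, rfl⟩ := h.exists_eq he0 h3
    exact hσ i
  ext a
  exact congrArg (fun f : L →ₐ[K] L => f a) h2

end

theorem fixed_absurd_poly {k : Type} [Field k] {p e N : ℕ} (he0 : (e : k) ≠ 0)
    (he1 : (e : k) - 1 ≠ 0) (he : 1 ≤ e) (hep : e < p) (hpN : ¬ p ∣ N) (b : k[X])
    (hb : (C (e : k) * b - C ((e : k) - 1)) * (b ^ p - X ^ N) = b ^ e) : False := by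
  have hN : N ≠ 0 := by
    rintro rfl
    exact hpN (dvd_zero p)
  by_cases hn : b.natDegree = 0
  · obtain ⟨c, rfl⟩ := natDegree_eq_zero.1 hn
    have h1 := congrArg (fun q => coeff q N) hb
    have h2 : (C (e : k) * C c - C ((e : k) - 1)) * (C c ^ p - X ^ N) =
      C ((e * c - (e - 1)) * c ^ p) - C (e * c - (e - 1)) * X ^ N := by
      simp only [C_mul, C_sub, C_pow, C_1]
      ring
    rw [h2] at h1
    simp only [← C_pow, coeff_sub, coeff_C_mul_X_pow, coeff_C_of_ne_zero hN, if_pos] at h1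
    rw [zero_sub, neg_eq_zero] at h1
    have h3 := congrArg (fun q => coeff q 0) hb
    rw [h2, h1, zero_mul, C_0, zero_mul, sub_zero] at h3
    rw [← C_pow] at h3
    simp only [coeff_zero, coeff_C_zero] at h3
    have h4 : c = 0 := pow_eq_zero_iff (by omega) |>.1 h3.symm
    rw [h4, mul_zero, zero_sub, neg_eq_zero] at h1
    exact he1 h1
  · have hpos : 0 < b.natDegree := Nat.pos_of_ne_zero hn
    have h1 : (C (e : k) * b - C ((e : k) - 1)).natDegree = b.natDegree := by
      rw [natDegree_sub_C, natDegree_C_mul he0]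
    have h2 : p * b.natDegree ≤ (b ^ p - X ^ N).natDegree := by
      have h3 : (b ^ p).natDegree ≠ (X ^ N : k[X]).natDegree := by
        rw [natDegree_pow, natDegree_X_pow]
        rintro rfl
        exact hpN (dvd_mul_right _ _)
      rcases lt_or_gt_of_ne h3 with h4 | h4
      · rw [natDegree_sub_eq_right_of_natDegree_lt h4, ← natDegree_pow]
        exact h4.le
      · rw [natDegree_sub_eq_left_of_natDegree_lt h4, natDegree_pow]
    have h3 := congrArg natDegree hb
    have h4 : C (e : k) * b - C ((e : k) - 1) ≠ 0 := by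
      intro h5
      rw [h5, natDegree_zero] at h1
      omega
    have h5 : b ^ p - X ^ N ≠ 0 := by
      intro h5
      rw [h5, natDegree_zero] at h2
      have : 0 < p * b.natDegree := Nat.mul_pos (by omega) hpos
      omega
    rw [natDegree_mul h4 h5, h1, natDegree_pow] at h3
    have h6 : e * b.natDegree ≤ p * b.natDegree := Nat.mul_le_mul_right _ hep.le
    omega

theorem fixed_absurd {k : Type} [Field k] {p e N : ℕ} (he0 : (e : k) ≠ 0)
    (he1 : (e : k) - 1 ≠ 0) (he : 1 ≤ e) (hep : e < p) (hpN : ¬ p ∣ N) (b : RatFunc k)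
    (hb : ((e : RatFunc k) * b - ((e : RatFunc k) - 1)) * (b ^ p - RatFunc.X ^ N) = b ^ e) : False := by
  have hp : 2 ≤ p := by omega
  have hint : IsIntegral k[X] b := by
    have hee : ((e : k[X])) ≠ 0 := by
      rw [← C_eq_natCast, Ne, C_eq_zero]
      exact he0
    have h1 : (F p e (X ^ N : k[X])).coeff (p + 1) = (e : k[X]) := by
      have h2 := F_leadingCoeff (x := (X ^ N : k[X])) hee hep hp
      rwa [leadingCoeff, F_natDegree hee hep hp] at h2
    refine ⟨C (C (e : k)⁻¹) * F p e (X ^ N : k[X]), ?_, ?_⟩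
    · refine monic_of_natDegree_le_of_coeff_eq_one (p + 1) ?_ ?_
      · exact (natDegree_C_mul_le _ _).trans (F_natDegree hee hep hp).le
      · rw [coeff_C_mul, h1, ← C_eq_natCast, ← C_mul, inv_mul_cancel₀ he0, C_1]
    · rw [eval₂_mul]
      have h3 : (F p e (algebraMap k[X] (RatFunc k) (X ^ N))).eval b = 0 := by
        simp only [F, map_pow, RatFunc.algebraMap_X, eval_sub, eval_mul, eval_C, eval_X,
          eval_pow, hb, sub_self]
      rw [← eval_map _ b (p := F p e (X ^ N)), F_map, h3, mul_zero]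
  obtain ⟨q, rfl⟩ := (IsIntegrallyClosed.isIntegral_iff).1 hint
  apply fixed_absurd_poly he0 he1 he hep hpN q
  apply RatFunc.algebraMap_injective
  simp only [map_mul, map_sub, map_pow, RatFunc.algebraMap_X, map_natCast, map_one]
  exact hb

end Pool.Agent.Y220.IC
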