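import Pool.Agent.Y220.IC.Main

/-!
# The transposition, general case
-/

set_option autoImplicit false
set_option linter.unusedSectionVars false

namespace Pool.Agent.Y220.IC

open Polynomial WithZero

section

variable {k L : Type} [Field k] [IsAlgClosed k] [Field L] [Algebra (RatFunc k) L] {p e N : ℕ}
  [Fact p.Prime] [CharP k p] [CharP L p] [FiniteDimensional (RatFunc k) L]
  [IsGalois (RatFunc k) L]
  [IsSplittingField (RatFunc k) L (F p e (RatFunc.X ^ N : RatFunc k))]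

theorem swap_gen {d : ℕ} (hd : 0 < d) (hp3 : 3 ≤ p) (he : 2 ≤ e) (heo : Odd e) (hep : e < p)
    (hN : N = 2 * e * d)
    (y : Fin (p + 1) → L) (h : Roots p e (algebraMap (RatFunc k) L (RatFunc.X ^ N)) y)
    (hinj : Function.Injective y)
    (hG : ∀ (σ : L ≃ₐ[RatFunc k] L) (i : Fin (p + 1)), ∃ j, y j = σ (y i)) :
    ∃ a b : Fin (p + 1), a ≠ b ∧ ∀ g ∈ (rho hinj hG).range,
        Equiv.swap a b * g * (Equiv.swap a b)⁻¹ ∈ (rho hinj hG).range := by
  obtain ⟨η, hη⟩ := IsAlgClosed.exists_pow_nat_eq (-1 : k) hd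
  have hη0 : η ≠ 0 := by
    rintro rfl
    rw [zero_pow hd.ne'] at hη
    have h3 : (1 : k) ≠ 0 := one_ne_zero
    apply h3
    linear_combination hη
  have hη2 : η ^ (2 * d) = 1 := by
    rw [mul_comm, pow_mul, hη]
    norm_num
  have hη1 : η ^ (e * d) = -1 := by
    rw [mul_comm, pow_mul, hη, heo.neg_one_pow]
  have hηN : η ^ N = 1 := by
    rw [hN, mul_comm 2 e, mul_assoc, mul_comm, pow_mul, hη2, one_pow]
  have hx0 : algebraMap (RatFunc k) L (RatFunc.X ^ N) ≠ 0 := by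
    simp [RatFunc.X_ne_zero]
  have he0k : (e : k) ≠ 0 := cast_ne_zero_of_lt (p := p) (by omega) hep
  have he0 : (e : L) ≠ 0 := cast_ne_zero_of_lt (p := p) (by omega) hep
  have hγX : ∀ γ0 : RatFunc k ≃+* RatFunc k, (∀ c, γ0 (RatFunc.C c) = RatFunc.C c) →
      γ0 RatFunc.X = RatFunc.C η * RatFunc.X → ∀ n, γ0 (RatFunc.X ^ n) =
        RatFunc.C (η ^ n) * RatFunc.X ^ n := by
    intro γ0 _ h3 n
    rw [map_pow, h3, mul_pow, map_pow]
  obtain ⟨w, ψ, γ0, h1, h2, h3, h4, h5, h6⟩ := exists_psi (L := L)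
    (F p e (RatFunc.X ^ N : RatFunc k)) (RingEquiv.refl k) η 0 hη0 (by simp) (by
      intro γ0 h3 h4
      rw [F_map]
      congr 1
      have h5 := hγX γ0 h3 h4 N
      rw [hηN, map_one, one_mul] at h5
      exact h5)
  have hw1 := val_nat w h4 he0k
  have hw2 : w ((e : L) - 1) = 1 := val_sub_one (p := p) w h4 he hep
  have hγ1 : ∀ c, γ0 (RatFunc.C c) = RatFunc.C c := h1
  have hpow := hγX γ0 hγ1 h2
  rw [map_zero, sub_zero] at h5
  have hψx : (ψ : L →+* L) (algebraMap (RatFunc k) L (RatFunc.X ^ N)) =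
      algebraMap (RatFunc k) L (RatFunc.X ^ N) := by
    change ψ _ = _
    rw [h3, hpow, hηN, map_one, one_mul]
  have hψG : ∀ i, ∃ j, y j = ψ (y i) := fun i => h.exists_image he0 (ψ : L →+* L) hψx i
  have hψ : ∀ a, w a ≤ 1 → w (ψ a - a) < 1 := by
    intro a ha
    obtain ⟨c, hc1, hc2⟩ := h6 a ha
    have h7 : ψ a - a = (ψ a - algebraMap (RatFunc k) L (RatFunc.C c)) -
      (a - algebraMap (RatFunc k) L (RatFunc.C c)) := by ring
    rw [h7]
    exact lt_of_le_of_lt (Valuation.map_sub w _ _) (max_lt hc2 hc1)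
  obtain ⟨a, b, hab, hperm⟩ := fin_swap w h hinj (val_nat_le w h4) hw1 hw2 (by
    have h7 := val_nat w h4 (n := 2) (cast_ne_zero_of_lt (p := p) (by norm_num) (by omega))
    exact_mod_cast h7) he hep hx0 (by
      rw [map_pow, map_pow]
      refine pow_lt_one₀ zero_le h5 ?_
      rw [hN]
      have : 0 < 2 * e * d := by positivity
      exact this.ne')
    (s0 := algebraMap (RatFunc k) L (RatFunc.X ^ (2 * d)))
    (s1 := algebraMap (RatFunc k) L (RatFunc.X ^ (e * d)))
    (by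
      rw [← map_pow, ← pow_mul, hN]
      congr 2
      ring)
    (by
      rw [← map_pow, ← pow_mul, hN]
      congr 2
      ring) ψ (by rw [h3, hpow, hη2, map_one, one_mul])
    (by rw [h3, hpow, hη1, map_neg, map_one, neg_one_mul, map_neg]) hψ hψG
  refine ⟨a, b, hab, fun g hg => ?_⟩
  rw [← hperm]
  exact norm_mem hinj hG ψ γ0 h3 hψG g hg

end

end Pool.Agent.Y220.IC
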